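import Mathlib

/-! # The algebraic identities behind the filling -/

namespace Run7.h141

/-- `Im (conj (a + i b) (c + i d))` -/
def cx (a b c d : ℝ) : ℝ := a * d - b * c

section

variable {a1 a2 b1 b2 c1 c2 K1 K2 K3 m n S1 S2 Q1 Q2 g1 g2 r1 r2 h1 h2 k1 k2 : ℝ}

lemma alg_SA (hA : a1 ^ 2 + a2 ^ 2 = 1 - K1 ^ 2)
    (hP : a1 * c1 + a2 * c2 = -(K1 * K3))
    (hS1 : S1 = (1 - K1 ^ 2) * K1 * a1 + (1 - K3 ^ 2) * K3 * c1)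
    (hS2 : S2 = (1 - K1 ^ 2) * K1 * a2 + (1 - K3 ^ 2) * K3 * c2) :
    a1 * S1 + a2 * S2 = K1 * ((1 - K1 ^ 2) ^ 2 - (1 - K3 ^ 2) * K3 ^ 2) := by
  rw [hS1, hS2]
  linear_combination (1 - K1 ^ 2) * K1 * hA + (1 - K3 ^ 2) * K3 * hP

lemma alg_SC (hC : c1 ^ 2 + c2 ^ 2 = 1 - K3 ^ 2)
    (hP : a1 * c1 + a2 * c2 = -(K1 * K3))
    (hS1 : S1 = (1 - K1 ^ 2) * K1 * a1 + (1 - K3 ^ 2) * K3 * c1)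
    (hS2 : S2 = (1 - K1 ^ 2) * K1 * a2 + (1 - K3 ^ 2) * K3 * c2) :
    c1 * S1 + c2 * S2 = K3 * ((1 - K3 ^ 2) ^ 2 - (1 - K1 ^ 2) * K1 ^ 2) := by
  rw [hS1, hS2]
  linear_combination (1 - K1 ^ 2) * K1 * hP + (1 - K3 ^ 2) * K3 * hC

/-- the `x`-component of the taming inequality -/
lemma alg_x (hA : a1 ^ 2 + a2 ^ 2 = 1 - K1 ^ 2) (hC : c1 ^ 2 + c2 ^ 2 = 1 - K3 ^ 2)
    (hP : a1 * c1 + a2 * c2 = -(K1 * K3)) (hK : K1 ^ 2 + K2 ^ 2 + K3 ^ 2 = 1)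
    (hn : n * ((1 - K1 ^ 2) ^ 2 + (1 - K3 ^ 2) ^ 2) = 1)
    (hS1 : S1 = (1 - K1 ^ 2) * K1 * a1 + (1 - K3 ^ 2) * K3 * c1)
    (hS2 : S2 = (1 - K1 ^ 2) * K1 * a2 + (1 - K3 ^ 2) * K3 * c2) :
    (2 * K3 ^ 2 - 1) * cx (2 * m * (K1 - n * S1 * a1)) (2 * m * (-(n * S1 * a2)))
        (2 * m * (-(n * S2 * a1))) (2 * m * (K1 - n * S2 * a2)) +
      2 * K3 * c2 * cx (2 * m * (-(n * S2 * a1))) (2 * m * (K1 - n * S2 * a2))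
        (2 * m * (-a2)) (2 * m * a1) -
      2 * K3 * c1 * cx (2 * m * (-a2)) (2 * m * a1)
        (2 * m * (K1 - n * S1 * a1)) (2 * m * (-(n * S1 * a2))) =
    -4 * m ^ 2 * n * (1 - K3 ^ 2) * (K1 ^ 2 + 2 * K3 ^ 2 * K2 ^ 2) := by
  have e1 := alg_SA hA hP hS1 hS2
  have e2 := alg_SC hC hP hS1 hS2
  have e3 : (2 * K3 ^ 2 - 1) * cx (2 * m * (K1 - n * S1 * a1)) (2 * m * (-(n * S1 * a2)))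
        (2 * m * (-(n * S2 * a1))) (2 * m * (K1 - n * S2 * a2)) +
      2 * K3 * c2 * cx (2 * m * (-(n * S2 * a1))) (2 * m * (K1 - n * S2 * a2))
        (2 * m * (-a2)) (2 * m * a1) -
      2 * K3 * c1 * cx (2 * m * (-a2)) (2 * m * a1)
        (2 * m * (K1 - n * S1 * a1)) (2 * m * (-(n * S1 * a2))) =
      4 * m ^ 2 * ((2 * K3 ^ 2 - 1) * (K1 ^ 2 - n * K1 * (a1 * S1 + a2 * S2)) +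
        2 * K3 * K1 * (a1 * c1 + a2 * c2) -
        2 * K3 * n * (a1 ^ 2 + a2 ^ 2) * (c1 * S1 + c2 * S2)) := by
    simp only [cx]; ring
  rw [e3, e1, e2, hA, hP]
  have hK2 : K2 ^ 2 = 1 - K1 ^ 2 - K3 ^ 2 := by linarith
  rw [hK2]
  linear_combination (4 * m ^ 2 * K1 ^ 2) * hn

/-- the `y`-component of the taming inequality -/
lemma alg_y (hA : a1 ^ 2 + a2 ^ 2 = 1 - K1 ^ 2) (hC : c1 ^ 2 + c2 ^ 2 = 1 - K3 ^ 2)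
    (hP : a1 * c1 + a2 * c2 = -(K1 * K3))
    (hn : n * ((1 - K1 ^ 2) ^ 2 + (1 - K3 ^ 2) ^ 2) = 1)
    (hS1 : S1 = (1 - K1 ^ 2) * K1 * a1 + (1 - K3 ^ 2) * K3 * c1)
    (hS2 : S2 = (1 - K1 ^ 2) * K1 * a2 + (1 - K3 ^ 2) * K3 * c2)
    (hQ1 : Q1 = a1 ^ 2 - a2 ^ 2 - (c1 ^ 2 - c2 ^ 2)) (hQ2 : Q2 = 2 * (a1 * a2 - c1 * c2))
    (hg1 : g1 = K1 * a1 - K3 * c1) (hg2 : g2 = K1 * a2 - K3 * c2) :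
    (2 * K3 ^ 2 - 1) * cx (4 * m ^ 2 * (g1 - n * S1 * Q1)) (4 * m ^ 2 * (-(g2 - n * S1 * Q2)))
        (4 * m ^ 2 * (-g2 - n * S2 * Q1)) (4 * m ^ 2 * (-(g1 - n * S2 * Q2))) +
      2 * K3 * c2 * cx (4 * m ^ 2 * (-g2 - n * S2 * Q1)) (4 * m ^ 2 * (-(g1 - n * S2 * Q2)))
        (4 * m ^ 2 * (-Q2)) (4 * m ^ 2 * (-Q1)) -
      2 * K3 * c1 * cx (4 * m ^ 2 * (-Q2)) (4 * m ^ 2 * (-Q1))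
        (4 * m ^ 2 * (g1 - n * S1 * Q1)) (4 * m ^ 2 * (-(g2 - n * S1 * Q2))) =
    -16 * m ^ 4 * n * (2 * (K1 ^ 2) ^ 3 * K3 ^ 2 + (K1 ^ 2) ^ 3 + 4 * (K1 ^ 2) ^ 2 * (K3 ^ 2) ^ 2
      - 3 * (K1 ^ 2) ^ 2 * K3 ^ 2 - (K1 ^ 2) ^ 2 + 2 * K1 ^ 2 * (K3 ^ 2) ^ 3
      - 7 * K1 ^ 2 * (K3 ^ 2) ^ 2 + 2 * K1 ^ 2 * K3 ^ 2 - 3 * (K3 ^ 2) ^ 3 + 3 * (K3 ^ 2) ^ 2) := by
  have e2 := alg_SC hC hP hS1 hS2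
  have e3 : (2 * K3 ^ 2 - 1) * cx (4 * m ^ 2 * (g1 - n * S1 * Q1)) (4 * m ^ 2 * (-(g2 - n * S1 * Q2)))
        (4 * m ^ 2 * (-g2 - n * S2 * Q1)) (4 * m ^ 2 * (-(g1 - n * S2 * Q2))) +
      2 * K3 * c2 * cx (4 * m ^ 2 * (-g2 - n * S2 * Q1)) (4 * m ^ 2 * (-(g1 - n * S2 * Q2)))
        (4 * m ^ 2 * (-Q2)) (4 * m ^ 2 * (-Q1)) -
      2 * K3 * c1 * cx (4 * m ^ 2 * (-Q2)) (4 * m ^ 2 * (-Q1))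
        (4 * m ^ 2 * (g1 - n * S1 * Q1)) (4 * m ^ 2 * (-(g2 - n * S1 * Q2))) =
      -16 * m ^ 4 * ((2 * K3 ^ 2 - 1) * ((g1 ^ 2 + g2 ^ 2) -
          n * (S1 * (Q1 * g1 + Q2 * g2) - S2 * (Q1 * g2 - Q2 * g1))) +
        2 * K3 * (c1 * (Q1 * g1 + Q2 * g2) - c2 * (Q1 * g2 - Q2 * g1)) -
        2 * K3 * n * (Q1 ^ 2 + Q2 ^ 2) * (c1 * S1 + c2 * S2)) := by
    simp only [cx]; ring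
  have f1 : g1 ^ 2 + g2 ^ 2 = K1 ^ 2 * (a1 ^ 2 + a2 ^ 2) + K3 ^ 2 * (c1 ^ 2 + c2 ^ 2) -
      2 * K1 * K3 * (a1 * c1 + a2 * c2) := by rw [hg1, hg2]; ring
  have f2 : c1 * (Q1 * g1 + Q2 * g2) - c2 * (Q1 * g2 - Q2 * g1) =
      K1 * ((a1 ^ 2 + a2 ^ 2) - (c1 ^ 2 + c2 ^ 2)) * (a1 * c1 + a2 * c2) -
      K3 * (2 * (a1 * c1 + a2 * c2) ^ 2 - (a1 ^ 2 + a2 ^ 2) * (c1 ^ 2 + c2 ^ 2) -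
        (c1 ^ 2 + c2 ^ 2) ^ 2) := by rw [hQ1, hQ2, hg1, hg2]; ring
  have f3 : a1 * (Q1 * g1 + Q2 * g2) - a2 * (Q1 * g2 - Q2 * g1) =
      K1 * ((a1 ^ 2 + a2 ^ 2) ^ 2 - (2 * (a1 * c1 + a2 * c2) ^ 2 -
        (a1 ^ 2 + a2 ^ 2) * (c1 ^ 2 + c2 ^ 2))) -
      K3 * ((a1 ^ 2 + a2 ^ 2) - (c1 ^ 2 + c2 ^ 2)) * (a1 * c1 + a2 * c2) := by
    rw [hQ1, hQ2, hg1, hg2]; ring
  have f4 : Q1 ^ 2 + Q2 ^ 2 = (a1 ^ 2 + a2 ^ 2) ^ 2 + (c1 ^ 2 + c2 ^ 2) ^ 2 -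
      2 * (2 * (a1 * c1 + a2 * c2) ^ 2 - (a1 ^ 2 + a2 ^ 2) * (c1 ^ 2 + c2 ^ 2)) := by
    rw [hQ1, hQ2]; ring
  have f5 : S1 * (Q1 * g1 + Q2 * g2) - S2 * (Q1 * g2 - Q2 * g1) =
      (1 - K1 ^ 2) * K1 * (a1 * (Q1 * g1 + Q2 * g2) - a2 * (Q1 * g2 - Q2 * g1)) +
      (1 - K3 ^ 2) * K3 * (c1 * (Q1 * g1 + Q2 * g2) - c2 * (Q1 * g2 - Q2 * g1)) := by
    rw [hS1, hS2]; ring
  rw [e3, f5, f3, f2, f1, f4, e2, hA, hC, hP]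
  linear_combination (16 * m ^ 4 * ((2 * K3 ^ 2 - 1) * (K1 ^ 2 * (1 - K1 ^ 2) +
    K3 ^ 2 * (1 - K3 ^ 2) + 2 * K1 ^ 2 * K3 ^ 2) + 2 * K3 * (K1 * ((1 - K1 ^ 2) - (1 - K3 ^ 2)) *
      (-(K1 * K3)) - K3 * (2 * (K1 * K3) ^ 2 - (1 - K1 ^ 2) * (1 - K3 ^ 2) -
        (1 - K3 ^ 2) ^ 2)))) * hn

/-- the `z`-component of the taming inequality -/
lemma alg_z (hC : c1 ^ 2 + c2 ^ 2 = 1 - K3 ^ 2)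
    (hB : b1 ^ 2 + b2 ^ 2 = 1 - K2 ^ 2)
    (hP : a1 * c1 + a2 * c2 = -(K1 * K3)) (hP2 : a1 * c2 - a2 * c1 = -K2)
    (hK : K1 ^ 2 + K2 ^ 2 + K3 ^ 2 = 1)
    (hn : n * ((1 - K1 ^ 2) ^ 2 + (1 - K3 ^ 2) ^ 2) = 1)
    (hS1 : S1 = (1 - K1 ^ 2) * K1 * a1 + (1 - K3 ^ 2) * K3 * c1)
    (hS2 : S2 = (1 - K1 ^ 2) * K1 * a2 + (1 - K3 ^ 2) * K3 * c2)
    (hb1 : b1 = K1 * c1 - K3 * a1) (hb2 : b2 = K1 * c2 - K3 * a2)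
    (hr1 : r1 = c1 * b1 + c2 * b2) (hr2 : r2 = c1 * b2 - c2 * b1)
    (hh1 : h1 = K3 * b1 + K2 * c2) (hh2 : h2 = K3 * b2 + K2 * c1)
    (hk1 : k1 = K3 * b1 - K2 * c2) (hk2 : k2 = K3 * b2 - K2 * c1) :
    (2 * K3 ^ 2 - 1) * cx (2 * m ^ 2 * (h1 - 2 * n * S1 * r1)) (2 * m ^ 2 * (h2 - 2 * n * S1 * r2))
        (2 * m ^ 2 * (k2 - 2 * n * S2 * r1)) (2 * m ^ 2 * (-k1 - 2 * n * S2 * r2)) =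
    4 * m ^ 4 * n * (2 * (K1 ^ 2) ^ 3 * K3 ^ 2 - (K1 ^ 2) ^ 3 + 4 * (K1 ^ 2) ^ 2 * (K3 ^ 2) ^ 2
      - 4 * (K1 ^ 2) ^ 2 * K3 ^ 2 + (K1 ^ 2) ^ 2 - 2 * K1 ^ 2 * (K3 ^ 2) ^ 3
      + 5 * K1 ^ 2 * (K3 ^ 2) ^ 2 - 6 * K1 ^ 2 * K3 ^ 2 + 2 * K1 ^ 2 + 2 * (K3 ^ 2) ^ 3
      - 9 * (K3 ^ 2) ^ 2 + 8 * K3 ^ 2 - 2) := by
  have e2 := alg_SC hC hP hS1 hS2
  have e3 : (2 * K3 ^ 2 - 1) * cx (2 * m ^ 2 * (h1 - 2 * n * S1 * r1))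
        (2 * m ^ 2 * (h2 - 2 * n * S1 * r2))
        (2 * m ^ 2 * (k2 - 2 * n * S2 * r1)) (2 * m ^ 2 * (-k1 - 2 * n * S2 * r2)) =
      4 * m ^ 4 * (2 * K3 ^ 2 - 1) * (-(h1 * k1 + h2 * k2) - 2 * n * S2 * (h1 * r2 - h2 * r1) +
        2 * n * S1 * (r1 * k1 + r2 * k2)) := by
    simp only [cx]; ring
  have f1 : h1 * k1 + h2 * k2 = K3 ^ 2 * (b1 ^ 2 + b2 ^ 2) - K2 ^ 2 * (c1 ^ 2 + c2 ^ 2) := by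
    rw [hh1, hh2, hk1, hk2]; ring
  have f2 : h1 * r2 - h2 * r1 = -K3 * (b1 ^ 2 + b2 ^ 2) * c2 - K2 * (c1 ^ 2 + c2 ^ 2) * b1 := by
    rw [hh1, hh2, hr1, hr2]; ring
  have f3 : r1 * k1 + r2 * k2 = K3 * (b1 ^ 2 + b2 ^ 2) * c1 - K2 * (c1 ^ 2 + c2 ^ 2) * b2 := by
    rw [hk1, hk2, hr1, hr2]; ring
  have f4 : S2 * b1 - S1 * b2 = -((1 - K1 ^ 2) * K1 ^ 2 + (1 - K3 ^ 2) * K3 ^ 2) *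
      (a1 * c2 - a2 * c1) := by
    rw [hS1, hS2, hb1, hb2]; ring
  have f5 : -(2 * n * S2 * (-K3 * (b1 ^ 2 + b2 ^ 2) * c2 - K2 * (c1 ^ 2 + c2 ^ 2) * b1)) +
        2 * n * S1 * (K3 * (b1 ^ 2 + b2 ^ 2) * c1 - K2 * (c1 ^ 2 + c2 ^ 2) * b2) =
      2 * n * (K3 * (b1 ^ 2 + b2 ^ 2) * (c1 * S1 + c2 * S2) +
        K2 * (c1 ^ 2 + c2 ^ 2) * (S2 * b1 - S1 * b2)) := by ring
  have hK2 : K2 ^ 2 = 1 - K1 ^ 2 - K3 ^ 2 := by linarith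
  have f6 : -(h1 * k1 + h2 * k2) - 2 * n * S2 * (h1 * r2 - h2 * r1) +
        2 * n * S1 * (r1 * k1 + r2 * k2) =
      -(K3 ^ 2 * (K1 ^ 2 + K3 ^ 2) - (1 - K1 ^ 2 - K3 ^ 2) * (1 - K3 ^ 2)) +
      2 * n * (K3 ^ 2 * (K1 ^ 2 + K3 ^ 2) * ((1 - K3 ^ 2) ^ 2 - (1 - K1 ^ 2) * K1 ^ 2) +
        (1 - K1 ^ 2 - K3 ^ 2) * (1 - K3 ^ 2) *
          ((1 - K1 ^ 2) * K1 ^ 2 + (1 - K3 ^ 2) * K3 ^ 2)) := by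
    rw [f2, f3]
    have := f5
    rw [e2, f4, hP2, hB, hC] at this
    rw [f1, hB, hC]
    linear_combination this + (K3 ^ 2 + (1 - K3 ^ 2)) * hK2 +
      2 * n * ((1 - K3 ^ 2) * ((1 - K1 ^ 2) * K1 ^ 2 + (1 - K3 ^ 2) * K3 ^ 2) -
        K3 ^ 2 * ((1 - K3 ^ 2) ^ 2 - (1 - K1 ^ 2) * K1 ^ 2)) * hK2
  rw [e3, f6]
  linear_combination (-4 * m ^ 4 * (2 * K3 ^ 2 - 1) * (-(K3 ^ 2 * (K1 ^ 2 + K3 ^ 2) -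
    (1 - K1 ^ 2 - K3 ^ 2) * (1 - K3 ^ 2)))) * hn

end

section

variable {a1 a2 b1 b2 c1 c2 K1 K2 K3 m n S1 S2 Q1 Q2 g1 g2 r1 r2 h1 h2 k1 k2 B1 B2 : ℝ}

/-- the `z`-component of the pulled back form -/
lemma alg_z23 (hC : c1 ^ 2 + c2 ^ 2 = 1 - K3 ^ 2)
    (hB : b1 ^ 2 + b2 ^ 2 = 1 - K2 ^ 2)
    (hP : a1 * c1 + a2 * c2 = -(K1 * K3)) (hP2 : a1 * c2 - a2 * c1 = -K2)
    (hK : K1 ^ 2 + K2 ^ 2 + K3 ^ 2 = 1)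
    (hn : n * ((1 - K1 ^ 2) ^ 2 + (1 - K3 ^ 2) ^ 2) = 1)
    (hS1 : S1 = (1 - K1 ^ 2) * K1 * a1 + (1 - K3 ^ 2) * K3 * c1)
    (hS2 : S2 = (1 - K1 ^ 2) * K1 * a2 + (1 - K3 ^ 2) * K3 * c2)
    (hb1 : b1 = K1 * c1 - K3 * a1) (hb2 : b2 = K1 * c2 - K3 * a2)
    (hr1 : r1 = c1 * b1 + c2 * b2) (hr2 : r2 = c1 * b2 - c2 * b1)
    (hh1 : h1 = K3 * b1 + K2 * c2) (hh2 : h2 = K3 * b2 + K2 * c1)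
    (hk1 : k1 = K3 * b1 - K2 * c2) (hk2 : k2 = K3 * b2 - K2 * c1) :
    cx (2 * m ^ 2 * (h1 - 2 * n * S1 * r1)) (2 * m ^ 2 * (h2 - 2 * n * S1 * r2))
        (2 * m ^ 2 * (k2 - 2 * n * S2 * r1)) (2 * m ^ 2 * (-k1 - 2 * n * S2 * r2)) =
    4 * m ^ 4 * n * ((1 - K1 ^ 2) * (2 * (1 - K3 ^ 2) ^ 2 - (K1 ^ 2 + K3 ^ 2) ^ 2)) := by
  have e2 := alg_SC hC hP hS1 hS2
  have e3 : cx (2 * m ^ 2 * (h1 - 2 * n * S1 * r1))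
        (2 * m ^ 2 * (h2 - 2 * n * S1 * r2))
        (2 * m ^ 2 * (k2 - 2 * n * S2 * r1)) (2 * m ^ 2 * (-k1 - 2 * n * S2 * r2)) =
      4 * m ^ 4 * (-(h1 * k1 + h2 * k2) - 2 * n * S2 * (h1 * r2 - h2 * r1) +
        2 * n * S1 * (r1 * k1 + r2 * k2)) := by
    simp only [cx]; ring
  have f1 : h1 * k1 + h2 * k2 = K3 ^ 2 * (b1 ^ 2 + b2 ^ 2) - K2 ^ 2 * (c1 ^ 2 + c2 ^ 2) := by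
    rw [hh1, hh2, hk1, hk2]; ring
  have f2 : h1 * r2 - h2 * r1 = -K3 * (b1 ^ 2 + b2 ^ 2) * c2 - K2 * (c1 ^ 2 + c2 ^ 2) * b1 := by
    rw [hh1, hh2, hr1, hr2]; ring
  have f3 : r1 * k1 + r2 * k2 = K3 * (b1 ^ 2 + b2 ^ 2) * c1 - K2 * (c1 ^ 2 + c2 ^ 2) * b2 := by
    rw [hk1, hk2, hr1, hr2]; ring
  have f4 : S2 * b1 - S1 * b2 = -((1 - K1 ^ 2) * K1 ^ 2 + (1 - K3 ^ 2) * K3 ^ 2) *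
      (a1 * c2 - a2 * c1) := by
    rw [hS1, hS2, hb1, hb2]; ring
  have f5 : -(2 * n * S2 * (-K3 * (b1 ^ 2 + b2 ^ 2) * c2 - K2 * (c1 ^ 2 + c2 ^ 2) * b1)) +
        2 * n * S1 * (K3 * (b1 ^ 2 + b2 ^ 2) * c1 - K2 * (c1 ^ 2 + c2 ^ 2) * b2) =
      2 * n * (K3 * (b1 ^ 2 + b2 ^ 2) * (c1 * S1 + c2 * S2) +
        K2 * (c1 ^ 2 + c2 ^ 2) * (S2 * b1 - S1 * b2)) := by ring
  have hK2 : K2 ^ 2 = 1 - K1 ^ 2 - K3 ^ 2 := by linarith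
  have f6 : -(h1 * k1 + h2 * k2) - 2 * n * S2 * (h1 * r2 - h2 * r1) +
        2 * n * S1 * (r1 * k1 + r2 * k2) =
      -(K3 ^ 2 * (K1 ^ 2 + K3 ^ 2) - (1 - K1 ^ 2 - K3 ^ 2) * (1 - K3 ^ 2)) +
      2 * n * (K3 ^ 2 * (K1 ^ 2 + K3 ^ 2) * ((1 - K3 ^ 2) ^ 2 - (1 - K1 ^ 2) * K1 ^ 2) +
        (1 - K1 ^ 2 - K3 ^ 2) * (1 - K3 ^ 2) *
          ((1 - K1 ^ 2) * K1 ^ 2 + (1 - K3 ^ 2) * K3 ^ 2)) := by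
    rw [f2, f3]
    have := f5
    rw [e2, f4, hP2, hB, hC] at this
    rw [f1, hB, hC]
    linear_combination this + (K3 ^ 2 + (1 - K3 ^ 2)) * hK2 +
      2 * n * ((1 - K3 ^ 2) * ((1 - K1 ^ 2) * K1 ^ 2 + (1 - K3 ^ 2) * K3 ^ 2) -
        K3 ^ 2 * ((1 - K3 ^ 2) ^ 2 - (1 - K1 ^ 2) * K1 ^ 2)) * hK2
  rw [e3, f6]
  linear_combination (-4 * m ^ 4 * (-(K3 ^ 2 * (K1 ^ 2 + K3 ^ 2) -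
    (1 - K1 ^ 2 - K3 ^ 2) * (1 - K3 ^ 2)))) * hn

/-- the first component of `β` -/
lemma beta_1 (hA : a1 ^ 2 + a2 ^ 2 = 1 - K1 ^ 2) (hC : c1 ^ 2 + c2 ^ 2 = 1 - K3 ^ 2)
    (hP : a1 * c1 + a2 * c2 = -(K1 * K3))
    (hQ1 : Q1 = a1 ^ 2 - a2 ^ 2 - (c1 ^ 2 - c2 ^ 2)) (hQ2 : Q2 = 2 * (a1 * a2 - c1 * c2)) :
    8 * (m ^ 2 * (a1 ^ 2 + a2 ^ 2)) * cx (m * a1) (m * a2) (2 * m * (-a2)) (2 * m * a1) +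
      2 * cx (m ^ 2 * Q1) (m ^ 2 * (-Q2)) (4 * m ^ 2 * (-Q2)) (4 * m ^ 2 * (-Q1)) =
    -8 * m ^ 4 * (2 * (1 - K3 ^ 2) ^ 2 - (K1 ^ 2 + K3 ^ 2) ^ 2) := by
  have f4 : Q1 ^ 2 + Q2 ^ 2 = (a1 ^ 2 + a2 ^ 2) ^ 2 + (c1 ^ 2 + c2 ^ 2) ^ 2 -
      2 * (2 * (a1 * c1 + a2 * c2) ^ 2 - (a1 ^ 2 + a2 ^ 2) * (c1 ^ 2 + c2 ^ 2)) := by
    rw [hQ1, hQ2]; ring
  have e : 8 * (m ^ 2 * (a1 ^ 2 + a2 ^ 2)) * cx (m * a1) (m * a2) (2 * m * (-a2)) (2 * m * a1) +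
      2 * cx (m ^ 2 * Q1) (m ^ 2 * (-Q2)) (4 * m ^ 2 * (-Q2)) (4 * m ^ 2 * (-Q1)) =
      8 * m ^ 4 * (2 * (a1 ^ 2 + a2 ^ 2) ^ 2 - (Q1 ^ 2 + Q2 ^ 2)) := by
    simp only [cx]; ring
  rw [e, f4, hA, hC, hP]; ring

/-- the second component of `β` -/
lemma beta_2 (hA : a1 ^ 2 + a2 ^ 2 = 1 - K1 ^ 2) (hC : c1 ^ 2 + c2 ^ 2 = 1 - K3 ^ 2)
    (hP : a1 * c1 + a2 * c2 = -(K1 * K3)) (hP2 : a1 * c2 - a2 * c1 = -K2)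
    (hQ1 : Q1 = a1 ^ 2 - a2 ^ 2 - (c1 ^ 2 - c2 ^ 2)) (hQ2 : Q2 = 2 * (a1 * a2 - c1 * c2))
    (hg1 : g1 = K1 * a1 - K3 * c1) (hg2 : g2 = K1 * a2 - K3 * c2)
    (hb1 : b1 = K1 * c1 - K3 * a1) (hb2 : b2 = K1 * c2 - K3 * a2)
    (hr1 : r1 = c1 * b1 + c2 * b2) (hr2 : r2 = c1 * b2 - c2 * b1)
    (hh1 : h1 = K3 * b1 + K2 * c2) (hh2 : h2 = K3 * b2 + K2 * c1)
    (hB2 : B2 = -(1 - K1 ^ 2) * K1 * a2 + (2 * (1 - K3 ^ 2) + K1 ^ 2 - K2 ^ 2) * K3 * c2 +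
      2 * K1 * K2 * (c1 + 2 * n * K3 * S1)) :
    8 * (m ^ 2 * (a1 ^ 2 + a2 ^ 2)) * cx (m * a1) (m * a2)
        (2 * m * (K1 - n * S1 * a1)) (2 * m * (-(n * S1 * a2))) +
      2 * cx (m ^ 2 * Q1) (m ^ 2 * (-Q2))
        (4 * m ^ 2 * (g1 - n * S1 * Q1)) (4 * m ^ 2 * (-(g2 - n * S1 * Q2))) +
      4 * ((m ^ 2 * r1) * (2 * m ^ 2 * (h2 - 2 * n * S1 * r2)) +
        (m ^ 2 * r2) * (2 * m ^ 2 * (h1 - 2 * n * S1 * r1))) =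
    8 * m ^ 4 * B2 := by
  have f1 : r1 = K1 := by
    rw [hr1, hb1, hb2]; linear_combination K1 * hC - K3 * hP
  have f2 : r2 = -(K2 * K3) := by
    rw [hr2, hb1, hb2]; linear_combination K3 * hP2
  have f3 : Q1 * g2 - Q2 * g1 = K1 * (-(a1 ^ 2 + a2 ^ 2) * a2 + c1 * (a1 * c2 - a2 * c1) +
      c2 * (a1 * c1 + a2 * c2)) - K3 * (a1 * (a1 * c2 - a2 * c1) - a2 * (a1 * c1 + a2 * c2) +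
        (c1 ^ 2 + c2 ^ 2) * c2) := by
    rw [hQ1, hQ2, hg1, hg2]; ring
  have e : 8 * (m ^ 2 * (a1 ^ 2 + a2 ^ 2)) * cx (m * a1) (m * a2)
        (2 * m * (K1 - n * S1 * a1)) (2 * m * (-(n * S1 * a2))) +
      2 * cx (m ^ 2 * Q1) (m ^ 2 * (-Q2))
        (4 * m ^ 2 * (g1 - n * S1 * Q1)) (4 * m ^ 2 * (-(g2 - n * S1 * Q2))) +
      4 * ((m ^ 2 * r1) * (2 * m ^ 2 * (h2 - 2 * n * S1 * r2)) +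
        (m ^ 2 * r2) * (2 * m ^ 2 * (h1 - 2 * n * S1 * r1))) =
      8 * m ^ 4 * (-2 * (a1 ^ 2 + a2 ^ 2) * K1 * a2 - (Q1 * g2 - Q2 * g1) +
        (r1 * h2 + r2 * h1) - 4 * n * S1 * r1 * r2) := by
    simp only [cx]; ring
  have R5 : a1 * K2 = -(1 - K1 ^ 2) * c2 - K1 * K3 * a2 := by
    linear_combination a1 * hP2 - c2 * hA + a2 * hP
  have R6 : K2 * c1 = (1 - K3 ^ 2) * a2 + K1 * K3 * c2 := by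
    linear_combination c1 * hP2 + a2 * hC - c2 * hP
  rw [e, f3, f1, f2, hh1, hh2, hb1, hb2, hA, hC, hP, hP2, hB2]
  linear_combination (8 * m ^ 4 * (-K3 * (1 - K3 ^ 2))) * R5 + (8 * m ^ 4 * (-K1 * K3 ^ 2)) * R6

/-- the third component of `β` -/
lemma beta_3 (hA : a1 ^ 2 + a2 ^ 2 = 1 - K1 ^ 2) (hC : c1 ^ 2 + c2 ^ 2 = 1 - K3 ^ 2)
    (hP : a1 * c1 + a2 * c2 = -(K1 * K3)) (hP2 : a1 * c2 - a2 * c1 = -K2)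
    (hQ1 : Q1 = a1 ^ 2 - a2 ^ 2 - (c1 ^ 2 - c2 ^ 2)) (hQ2 : Q2 = 2 * (a1 * a2 - c1 * c2))
    (hg1 : g1 = K1 * a1 - K3 * c1) (hg2 : g2 = K1 * a2 - K3 * c2)
    (hb1 : b1 = K1 * c1 - K3 * a1) (hb2 : b2 = K1 * c2 - K3 * a2)
    (hr1 : r1 = c1 * b1 + c2 * b2) (hr2 : r2 = c1 * b2 - c2 * b1)
    (hk1 : k1 = K3 * b1 - K2 * c2) (hk2 : k2 = K3 * b2 - K2 * c1)
    (hB1 : B1 = -(1 - K1 ^ 2) * K1 * a1 + (2 * (1 - K3 ^ 2) + K1 ^ 2 - K2 ^ 2) * K3 * c1 -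
      2 * K1 * K2 * (c2 + 2 * n * K3 * S2)) :
    8 * (m ^ 2 * (a1 ^ 2 + a2 ^ 2)) * cx (m * a1) (m * a2)
        (2 * m * (-(n * S2 * a1))) (2 * m * (K1 - n * S2 * a2)) +
      2 * cx (m ^ 2 * Q1) (m ^ 2 * (-Q2))
        (4 * m ^ 2 * (-g2 - n * S2 * Q1)) (4 * m ^ 2 * (-(g1 - n * S2 * Q2))) +
      4 * ((m ^ 2 * r1) * (2 * m ^ 2 * (-k1 - 2 * n * S2 * r2)) +
        (m ^ 2 * r2) * (2 * m ^ 2 * (k2 - 2 * n * S2 * r1))) =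
    -8 * m ^ 4 * B1 := by
  have f1 : r1 = K1 := by
    rw [hr1, hb1, hb2]; linear_combination K1 * hC - K3 * hP
  have f2 : r2 = -(K2 * K3) := by
    rw [hr2, hb1, hb2]; linear_combination K3 * hP2
  have f3 : Q1 * g1 + Q2 * g2 = K1 * ((a1 ^ 2 + a2 ^ 2) * a1 - c1 * (a1 * c1 + a2 * c2) +
      c2 * (a1 * c2 - a2 * c1)) - K3 * (a1 * (a1 * c1 + a2 * c2) + a2 * (a1 * c2 - a2 * c1) -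
        (c1 ^ 2 + c2 ^ 2) * c1) := by
    rw [hQ1, hQ2, hg1, hg2]; ring
  have e : 8 * (m ^ 2 * (a1 ^ 2 + a2 ^ 2)) * cx (m * a1) (m * a2)
        (2 * m * (-(n * S2 * a1))) (2 * m * (K1 - n * S2 * a2)) +
      2 * cx (m ^ 2 * Q1) (m ^ 2 * (-Q2))
        (4 * m ^ 2 * (-g2 - n * S2 * Q1)) (4 * m ^ 2 * (-(g1 - n * S2 * Q2))) +
      4 * ((m ^ 2 * r1) * (2 * m ^ 2 * (-k1 - 2 * n * S2 * r2)) +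
        (m ^ 2 * r2) * (2 * m ^ 2 * (k2 - 2 * n * S2 * r1))) =
      8 * m ^ 4 * (2 * (a1 ^ 2 + a2 ^ 2) * K1 * a1 - (Q1 * g1 + Q2 * g2) -
        (r1 * k1 - r2 * k2) - 4 * n * S2 * r1 * r2) := by
    simp only [cx]; ring
  have R7 : a2 * K2 = (1 - K1 ^ 2) * c1 + K1 * K3 * a1 := by
    linear_combination a2 * hP2 + c1 * hA - a1 * hP
  have R8 : K2 * c2 = -(1 - K3 ^ 2) * a1 - K1 * K3 * c1 := by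
    linear_combination c2 * hP2 - a1 * hC + c1 * hP
  rw [e, f3, f1, f2, hk1, hk2, hb1, hb2, hA, hC, hP, hP2, hB1]
  linear_combination (8 * m ^ 4 * (-K3 * (1 - K3 ^ 2))) * R7 + (8 * m ^ 4 * (-K1 * K3 ^ 2)) * R8

/-- the product with `β`, `x`-component -/
lemma betaR_x (hA : a1 ^ 2 + a2 ^ 2 = 1 - K1 ^ 2) (hC : c1 ^ 2 + c2 ^ 2 = 1 - K3 ^ 2)
    (hP : a1 * c1 + a2 * c2 = -(K1 * K3)) (hP2 : a1 * c2 - a2 * c1 = -K2)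
    (hK : K1 ^ 2 + K2 ^ 2 + K3 ^ 2 = 1)
    (hn : n * ((1 - K1 ^ 2) ^ 2 + (1 - K3 ^ 2) ^ 2) = 1)
    (hS1 : S1 = (1 - K1 ^ 2) * K1 * a1 + (1 - K3 ^ 2) * K3 * c1)
    (hS2 : S2 = (1 - K1 ^ 2) * K1 * a2 + (1 - K3 ^ 2) * K3 * c2)
    (hB1 : B1 = -(1 - K1 ^ 2) * K1 * a1 + (2 * (1 - K3 ^ 2) + K1 ^ 2 - K2 ^ 2) * K3 * c1 -
      2 * K1 * K2 * (c2 + 2 * n * K3 * S2))
    (hB2 : B2 = -(1 - K1 ^ 2) * K1 * a2 + (2 * (1 - K3 ^ 2) + K1 ^ 2 - K2 ^ 2) * K3 * c2 +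
      2 * K1 * K2 * (c1 + 2 * n * K3 * S1)) :
    -(2 * (1 - K3 ^ 2) ^ 2 - (K1 ^ 2 + K3 ^ 2) ^ 2) *
        cx (2 * m * (K1 - n * S1 * a1)) (2 * m * (-(n * S1 * a2)))
        (2 * m * (-(n * S2 * a1))) (2 * m * (K1 - n * S2 * a2)) +
      B2 * cx (2 * m * (-(n * S2 * a1))) (2 * m * (K1 - n * S2 * a2))
        (2 * m * (-a2)) (2 * m * a1) +
      (-B1) * cx (2 * m * (-a2)) (2 * m * a1)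
        (2 * m * (K1 - n * S1 * a1)) (2 * m * (-(n * S1 * a2))) =
    -4 * m ^ 2 * n * (K1 ^ 2 + K3 ^ 2) * (1 - K3 ^ 2) ^ 3 := by
  have e1 := alg_SA hA hP hS1 hS2
  have e2 := alg_SC hC hP hS1 hS2
  have e : -(2 * (1 - K3 ^ 2) ^ 2 - (K1 ^ 2 + K3 ^ 2) ^ 2) *
        cx (2 * m * (K1 - n * S1 * a1)) (2 * m * (-(n * S1 * a2)))
        (2 * m * (-(n * S2 * a1))) (2 * m * (K1 - n * S2 * a2)) +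
      B2 * cx (2 * m * (-(n * S2 * a1))) (2 * m * (K1 - n * S2 * a2))
        (2 * m * (-a2)) (2 * m * a1) +
      (-B1) * cx (2 * m * (-a2)) (2 * m * a1)
        (2 * m * (K1 - n * S1 * a1)) (2 * m * (-(n * S1 * a2))) =
      4 * m ^ 2 * (-(2 * (1 - K3 ^ 2) ^ 2 - (K1 ^ 2 + K3 ^ 2) ^ 2) *
        (K1 ^ 2 - n * K1 * (a1 * S1 + a2 * S2)) + K1 * (B1 * a1 + B2 * a2) -
        n * (a1 ^ 2 + a2 ^ 2) * (B1 * S1 + B2 * S2)) := by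
    simp only [cx]; ring
  have f1 : B1 * a1 + B2 * a2 = -(1 - K1 ^ 2) * K1 * (a1 ^ 2 + a2 ^ 2) +
      (2 * (1 - K3 ^ 2) + K1 ^ 2 - K2 ^ 2) * K3 * (a1 * c1 + a2 * c2) -
      2 * K1 * K2 * (1 + 2 * n * K3 * ((1 - K3 ^ 2) * K3)) * (a1 * c2 - a2 * c1) := by
    rw [hB1, hB2, hS1, hS2]; ring
  have f2 : B1 * S1 + B2 * S2 = -(1 - K1 ^ 2) * K1 * (a1 * S1 + a2 * S2) +
      (2 * (1 - K3 ^ 2) + K1 ^ 2 - K2 ^ 2) * K3 * (c1 * S1 + c2 * S2) -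
      2 * K1 * K2 * ((1 - K1 ^ 2) * K1) * (a1 * c2 - a2 * c1) := by
    rw [hB1, hB2, hS1, hS2]; ring
  have hK2 : K2 ^ 2 = 1 - K1 ^ 2 - K3 ^ 2 := by linarith
  have g1 : B1 * a1 + B2 * a2 = -(1 - K1 ^ 2) ^ 2 * K1 -
      (2 * (1 - K3 ^ 2) + K1 ^ 2 - (1 - K1 ^ 2 - K3 ^ 2)) * K3 ^ 2 * K1 +
      2 * K1 * (1 - K1 ^ 2 - K3 ^ 2) * (1 + 2 * n * (1 - K3 ^ 2) * K3 ^ 2) := by
    rw [f1, hA, hP, hP2]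
    linear_combination (K1 * K3 ^ 2 + 2 * K1 * (1 + 2 * n * (1 - K3 ^ 2) * K3 ^ 2)) * hK2
  have g2 : B1 * S1 + B2 * S2 = -(1 - K1 ^ 2) * K1 ^ 2 *
        ((1 - K1 ^ 2) ^ 2 - (1 - K3 ^ 2) * K3 ^ 2) +
      (2 * (1 - K3 ^ 2) + K1 ^ 2 - (1 - K1 ^ 2 - K3 ^ 2)) * K3 ^ 2 *
        ((1 - K3 ^ 2) ^ 2 - (1 - K1 ^ 2) * K1 ^ 2) +
      2 * K1 ^ 2 * (1 - K1 ^ 2 - K3 ^ 2) * (1 - K1 ^ 2) := by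
    rw [f2, e1, e2, hP2]
    linear_combination (-K3 ^ 2 * ((1 - K3 ^ 2) ^ 2 - (1 - K1 ^ 2) * K1 ^ 2) +
      2 * K1 ^ 2 * (1 - K1 ^ 2)) * hK2
  rw [e, g1, g2, e1, hA]
  linear_combination (-4 * m ^ 2 * (-(2 * (1 - K3 ^ 2) ^ 2 - (K1 ^ 2 + K3 ^ 2) ^ 2) * K1 ^ 2 +
    K1 * (-(1 - K1 ^ 2) ^ 2 * K1 -
      (2 * (1 - K3 ^ 2) + K1 ^ 2 - (1 - K1 ^ 2 - K3 ^ 2)) * K3 ^ 2 * K1 +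
      2 * K1 * (1 - K1 ^ 2 - K3 ^ 2)))) * hn

/-- the product with `β`, `y`-component -/
lemma betaR_y (hA : a1 ^ 2 + a2 ^ 2 = 1 - K1 ^ 2) (hC : c1 ^ 2 + c2 ^ 2 = 1 - K3 ^ 2)
    (hP : a1 * c1 + a2 * c2 = -(K1 * K3)) (hP2 : a1 * c2 - a2 * c1 = -K2)
    (hK : K1 ^ 2 + K2 ^ 2 + K3 ^ 2 = 1)
    (hn : n * ((1 - K1 ^ 2) ^ 2 + (1 - K3 ^ 2) ^ 2) = 1)
    (hS1 : S1 = (1 - K1 ^ 2) * K1 * a1 + (1 - K3 ^ 2) * K3 * c1)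
    (hS2 : S2 = (1 - K1 ^ 2) * K1 * a2 + (1 - K3 ^ 2) * K3 * c2)
    (hQ1 : Q1 = a1 ^ 2 - a2 ^ 2 - (c1 ^ 2 - c2 ^ 2)) (hQ2 : Q2 = 2 * (a1 * a2 - c1 * c2))
    (hg1 : g1 = K1 * a1 - K3 * c1) (hg2 : g2 = K1 * a2 - K3 * c2)
    (hB1 : B1 = -(1 - K1 ^ 2) * K1 * a1 + (2 * (1 - K3 ^ 2) + K1 ^ 2 - K2 ^ 2) * K3 * c1 -
      2 * K1 * K2 * (c2 + 2 * n * K3 * S2))
    (hB2 : B2 = -(1 - K1 ^ 2) * K1 * a2 + (2 * (1 - K3 ^ 2) + K1 ^ 2 - K2 ^ 2) * K3 * c2 +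
      2 * K1 * K2 * (c1 + 2 * n * K3 * S1)) :
    -(2 * (1 - K3 ^ 2) ^ 2 - (K1 ^ 2 + K3 ^ 2) ^ 2) *
        cx (4 * m ^ 2 * (g1 - n * S1 * Q1)) (4 * m ^ 2 * (-(g2 - n * S1 * Q2)))
        (4 * m ^ 2 * (-g2 - n * S2 * Q1)) (4 * m ^ 2 * (-(g1 - n * S2 * Q2))) +
      B2 * cx (4 * m ^ 2 * (-g2 - n * S2 * Q1)) (4 * m ^ 2 * (-(g1 - n * S2 * Q2)))
        (4 * m ^ 2 * (-Q2)) (4 * m ^ 2 * (-Q1)) +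
      (-B1) * cx (4 * m ^ 2 * (-Q2)) (4 * m ^ 2 * (-Q1))
        (4 * m ^ 2 * (g1 - n * S1 * Q1)) (4 * m ^ 2 * (-(g2 - n * S1 * Q2))) =
    -16 * m ^ 4 * n * ((1 - K1 ^ 2) * (K1 ^ 2 + K3 ^ 2) ^ 3 * (1 - K3 ^ 2)) := by
  have e1 := alg_SA hA hP hS1 hS2
  have e2 := alg_SC hC hP hS1 hS2
  have hK2 : K2 ^ 2 = 1 - K1 ^ 2 - K3 ^ 2 := by linarith
  have e : -(2 * (1 - K3 ^ 2) ^ 2 - (K1 ^ 2 + K3 ^ 2) ^ 2) *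
        cx (4 * m ^ 2 * (g1 - n * S1 * Q1)) (4 * m ^ 2 * (-(g2 - n * S1 * Q2)))
        (4 * m ^ 2 * (-g2 - n * S2 * Q1)) (4 * m ^ 2 * (-(g1 - n * S2 * Q2))) +
      B2 * cx (4 * m ^ 2 * (-g2 - n * S2 * Q1)) (4 * m ^ 2 * (-(g1 - n * S2 * Q2)))
        (4 * m ^ 2 * (-Q2)) (4 * m ^ 2 * (-Q1)) +
      (-B1) * cx (4 * m ^ 2 * (-Q2)) (4 * m ^ 2 * (-Q1))
        (4 * m ^ 2 * (g1 - n * S1 * Q1)) (4 * m ^ 2 * (-(g2 - n * S1 * Q2))) =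
      -16 * m ^ 4 * (-(2 * (1 - K3 ^ 2) ^ 2 - (K1 ^ 2 + K3 ^ 2) ^ 2) *
        ((g1 ^ 2 + g2 ^ 2) - n * (S1 * (Q1 * g1 + Q2 * g2) - S2 * (Q1 * g2 - Q2 * g1))) +
        (B1 * (Q1 * g1 + Q2 * g2) - B2 * (Q1 * g2 - Q2 * g1)) -
        n * (Q1 ^ 2 + Q2 ^ 2) * (B1 * S1 + B2 * S2)) := by
    simp only [cx]; ring
  have f1 : g1 ^ 2 + g2 ^ 2 = K1 ^ 2 * (a1 ^ 2 + a2 ^ 2) + K3 ^ 2 * (c1 ^ 2 + c2 ^ 2) -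
      2 * K1 * K3 * (a1 * c1 + a2 * c2) := by rw [hg1, hg2]; ring
  have f2 : c1 * (Q1 * g1 + Q2 * g2) - c2 * (Q1 * g2 - Q2 * g1) =
      K1 * ((a1 ^ 2 + a2 ^ 2) - (c1 ^ 2 + c2 ^ 2)) * (a1 * c1 + a2 * c2) -
      K3 * (2 * (a1 * c1 + a2 * c2) ^ 2 - (a1 ^ 2 + a2 ^ 2) * (c1 ^ 2 + c2 ^ 2) -
        (c1 ^ 2 + c2 ^ 2) ^ 2) := by rw [hQ1, hQ2, hg1, hg2]; ring
  have f3 : a1 * (Q1 * g1 + Q2 * g2) - a2 * (Q1 * g2 - Q2 * g1) =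
      K1 * ((a1 ^ 2 + a2 ^ 2) ^ 2 - (2 * (a1 * c1 + a2 * c2) ^ 2 -
        (a1 ^ 2 + a2 ^ 2) * (c1 ^ 2 + c2 ^ 2))) -
      K3 * ((a1 ^ 2 + a2 ^ 2) - (c1 ^ 2 + c2 ^ 2)) * (a1 * c1 + a2 * c2) := by
    rw [hQ1, hQ2, hg1, hg2]; ring
  have f4 : Q1 ^ 2 + Q2 ^ 2 = (a1 ^ 2 + a2 ^ 2) ^ 2 + (c1 ^ 2 + c2 ^ 2) ^ 2 -
      2 * (2 * (a1 * c1 + a2 * c2) ^ 2 - (a1 ^ 2 + a2 ^ 2) * (c1 ^ 2 + c2 ^ 2)) := by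
    rw [hQ1, hQ2]; ring
  have f5 : S1 * (Q1 * g1 + Q2 * g2) - S2 * (Q1 * g2 - Q2 * g1) =
      (1 - K1 ^ 2) * K1 * (a1 * (Q1 * g1 + Q2 * g2) - a2 * (Q1 * g2 - Q2 * g1)) +
      (1 - K3 ^ 2) * K3 * (c1 * (Q1 * g1 + Q2 * g2) - c2 * (Q1 * g2 - Q2 * g1)) := by
    rw [hS1, hS2]; ring
  have f6 : c1 * (Q1 * g2 - Q2 * g1) + c2 * (Q1 * g1 + Q2 * g2) =
      (K1 * ((a1 ^ 2 + a2 ^ 2) + (c1 ^ 2 + c2 ^ 2)) - 2 * K3 * (a1 * c1 + a2 * c2)) *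
        (a1 * c2 - a2 * c1) := by rw [hQ1, hQ2, hg1, hg2]; ring
  have f7 : a1 * (Q1 * g2 - Q2 * g1) + a2 * (Q1 * g1 + Q2 * g2) =
      (2 * K1 * (a1 * c1 + a2 * c2) - K3 * ((a1 ^ 2 + a2 ^ 2) + (c1 ^ 2 + c2 ^ 2))) *
        (a1 * c2 - a2 * c1) := by rw [hQ1, hQ2, hg1, hg2]; ring
  have f8 : S1 * (Q1 * g2 - Q2 * g1) + S2 * (Q1 * g1 + Q2 * g2) =
      (1 - K1 ^ 2) * K1 * (a1 * (Q1 * g2 - Q2 * g1) + a2 * (Q1 * g1 + Q2 * g2)) +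
      (1 - K3 ^ 2) * K3 * (c1 * (Q1 * g2 - Q2 * g1) + c2 * (Q1 * g1 + Q2 * g2)) := by
    rw [hS1, hS2]; ring
  have f9 : B1 * (Q1 * g1 + Q2 * g2) - B2 * (Q1 * g2 - Q2 * g1) =
      -(1 - K1 ^ 2) * K1 * (a1 * (Q1 * g1 + Q2 * g2) - a2 * (Q1 * g2 - Q2 * g1)) +
      (2 * (1 - K3 ^ 2) + K1 ^ 2 - K2 ^ 2) * K3 *
        (c1 * (Q1 * g1 + Q2 * g2) - c2 * (Q1 * g2 - Q2 * g1)) -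
      2 * K1 * K2 * ((c1 * (Q1 * g2 - Q2 * g1) + c2 * (Q1 * g1 + Q2 * g2)) +
        2 * n * K3 * (S1 * (Q1 * g2 - Q2 * g1) + S2 * (Q1 * g1 + Q2 * g2))) := by
    rw [hB1, hB2]; ring
  have f10 : B1 * S1 + B2 * S2 = -(1 - K1 ^ 2) * K1 * (a1 * S1 + a2 * S2) +
      (2 * (1 - K3 ^ 2) + K1 ^ 2 - K2 ^ 2) * K3 * (c1 * S1 + c2 * S2) -
      2 * K1 * K2 * ((1 - K1 ^ 2) * K1) * (a1 * c2 - a2 * c1) := by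
    rw [hB1, hB2, hS1, hS2]; ring
  rw [hA, hC, hP] at f1 f2 f3 f4
  rw [hA, hC, hP, hP2] at f6 f7
  rw [f3, f2] at f5
  rw [f7, f6] at f8
  rw [f3, f2, f6, f8] at f9
  rw [e1, e2, hP2] at f10
  have g9 : B1 * (Q1 * g1 + Q2 * g2) - B2 * (Q1 * g2 - Q2 * g1) =
      -(1 - K1 ^ 2) * K1 * (K1 * ((1 - K1 ^ 2) ^ 2 - (2 * (-(K1 * K3)) ^ 2 - (1 - K1 ^ 2) * (1 - K3 ^ 2))) - K3 * ((1 - K1 ^ 2) - (1 - K3 ^ 2)) * (-(K1 * K3))) +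
      (2 * (1 - K3 ^ 2) + K1 ^ 2 - (1 - K1 ^ 2 - K3 ^ 2)) * K3 *
        (K1 * ((1 - K1 ^ 2) - (1 - K3 ^ 2)) * (-(K1 * K3)) - K3 * (2 * (-(K1 * K3)) ^ 2 - (1 - K1 ^ 2) * (1 - K3 ^ 2) - (1 - K3 ^ 2) ^ 2)) +
      2 * K1 * (1 - K1 ^ 2 - K3 ^ 2) * ((K1 * ((1 - K1 ^ 2) + (1 - K3 ^ 2)) - 2 * K3 * (-(K1 * K3))) +
        2 * n * K3 * ((1 - K1 ^ 2) * K1 * (2 * K1 * (-(K1 * K3)) - K3 * ((1 - K1 ^ 2) + (1 - K3 ^ 2))) + (1 - K3 ^ 2) * K3 * (K1 * ((1 - K1 ^ 2) + (1 - K3 ^ 2)) - 2 * K3 * (-(K1 * K3))))) := by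
    rw [f9]
    linear_combination (-K3 * (K1 * ((1 - K1 ^ 2) - (1 - K3 ^ 2)) * (-(K1 * K3)) - K3 * (2 * (-(K1 * K3)) ^ 2 - (1 - K1 ^ 2) * (1 - K3 ^ 2) - (1 - K3 ^ 2) ^ 2)) +
      2 * K1 * ((K1 * ((1 - K1 ^ 2) + (1 - K3 ^ 2)) - 2 * K3 * (-(K1 * K3))) +
        2 * n * K3 * ((1 - K1 ^ 2) * K1 * (2 * K1 * (-(K1 * K3)) - K3 * ((1 - K1 ^ 2) + (1 - K3 ^ 2))) + (1 - K3 ^ 2) * K3 * (K1 * ((1 - K1 ^ 2) + (1 - K3 ^ 2)) - 2 * K3 * (-(K1 * K3)))))) * hK2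
  have g10 : B1 * S1 + B2 * S2 = -(1 - K1 ^ 2) * K1 ^ 2 *
        ((1 - K1 ^ 2) ^ 2 - (1 - K3 ^ 2) * K3 ^ 2) +
      (2 * (1 - K3 ^ 2) + K1 ^ 2 - (1 - K1 ^ 2 - K3 ^ 2)) * K3 ^ 2 *
        ((1 - K3 ^ 2) ^ 2 - (1 - K1 ^ 2) * K1 ^ 2) +
      2 * K1 ^ 2 * (1 - K1 ^ 2 - K3 ^ 2) * (1 - K1 ^ 2) := by
    rw [f10]
    linear_combination (-K3 ^ 2 * ((1 - K3 ^ 2) ^ 2 - (1 - K1 ^ 2) * K1 ^ 2) +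
      2 * K1 ^ 2 * (1 - K1 ^ 2)) * hK2
  rw [e, f1, f5, g9, f4, g10]
  linear_combination (16 * m ^ 4 * (-(2 * (1 - K3 ^ 2) ^ 2 - (K1 ^ 2 + K3 ^ 2) ^ 2) *
    (K1 ^ 2 * (1 - K1 ^ 2) + K3 ^ 2 * (1 - K3 ^ 2) - 2 * K1 * K3 * (-(K1 * K3))) +
    (-(1 - K1 ^ 2) * K1 * (K1 * ((1 - K1 ^ 2) ^ 2 - (2 * (-(K1 * K3)) ^ 2 - (1 - K1 ^ 2) * (1 - K3 ^ 2))) - K3 * ((1 - K1 ^ 2) - (1 - K3 ^ 2)) * (-(K1 * K3))) +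
      (2 * (1 - K3 ^ 2) + K1 ^ 2 - (1 - K1 ^ 2 - K3 ^ 2)) * K3 *
        (K1 * ((1 - K1 ^ 2) - (1 - K3 ^ 2)) * (-(K1 * K3)) - K3 * (2 * (-(K1 * K3)) ^ 2 - (1 - K1 ^ 2) * (1 - K3 ^ 2) - (1 - K3 ^ 2) ^ 2)) +
      2 * K1 * (1 - K1 ^ 2 - K3 ^ 2) * (K1 * ((1 - K1 ^ 2) + (1 - K3 ^ 2)) - 2 * K3 * (-(K1 * K3)))))) * hn

end

end Run7.h141
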