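import Pool.Agent.Run7.h141.Tube

/-! # The open books -/

open scoped ContDiff Topology
open Set

noncomputable section

namespace Run7.h141

/-- a page of the open book of `Y2` -/
def pageSet (s : ℂ) : Set (ℂ × ℂ) := {x | F0 x = 0 ∧ x.1 * x.2 ≠ 0 ∧ qq x = s}

/-- parametrisation of a page -/
def pageMap (s : ℂ) (p : ℝ × ℝ) : ℂ × ℂ :=
  ((√p.1 : ℂ) * Complex.exp ((p.2 : ℂ) * Complex.I),
    (√(1 - p.1) : ℂ) * ((starRingEnd ℂ) s * Complex.exp (-((p.2 : ℂ) * Complex.I))))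

lemma pageMap_continuous (s : ℂ) : Continuous (pageMap s) := by
  unfold pageMap
  have h1 : Continuous (fun p : ℝ × ℝ => (√p.1 : ℂ)) :=
    Complex.continuous_ofReal.comp (Real.continuous_sqrt.comp continuous_fst)
  have h2 : Continuous (fun p : ℝ × ℝ => (√(1 - p.1) : ℂ)) :=
    Complex.continuous_ofReal.comp (Real.continuous_sqrt.comp (continuous_const.sub continuous_fst))
  have h3 : Continuous (fun p : ℝ × ℝ => (p.2 : ℂ) * Complex.I) :=
    (Complex.continuous_ofReal.comp continuous_snd).mul continuous_const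
  exact (h1.mul (Complex.continuous_exp.comp h3)).prodMk
    (h2.mul (continuous_const.mul (Complex.continuous_exp.comp h3.neg)))

lemma page_eq {s : ℂ} (hs : ‖s‖ = 1) : pageSet s = pageMap s '' (Ioo 0 1 ×ˢ univ) := by
  have hss : s * (starRingEnd ℂ) s = 1 := by
    rw [Complex.mul_conj, Complex.normSq_eq_norm_sq, hs]; simp
  ext x
  constructor
  · rintro ⟨hF, hx, hq⟩
    have hN := NN_eq_one hF
    rw [NN_eq_norm] at hN
    have hx1 : x.1 ≠ 0 := left_ne_zero_of_mul hx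
    have hx2 : x.2 ≠ 0 := right_ne_zero_of_mul hx
    have hn1 := norm_pos_iff.2 hx1
    have hn2 := norm_pos_iff.2 hx2
    refine ⟨(‖x.1‖ ^ 2, x.1.arg), ⟨⟨by positivity, ?_⟩, mem_univ _⟩, ?_⟩
    · simp only; nlinarith
    · have e1 : √(‖x.1‖ ^ 2) = ‖x.1‖ := Real.sqrt_sq hn1.le
      have e2 : √(1 - ‖x.1‖ ^ 2) = ‖x.2‖ := by
        rw [← hN]
        rw [add_sub_cancel_left]
        exact Real.sqrt_sq hn2.le
      have e3 := Complex.norm_mul_exp_arg_mul_I x.1
      simp only [pageMap]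
      rw [e1, e2]
      ext1
      · exact e3
      · simp only
        have h1 := qq_mul hx
        rw [hq] at h1
        have h2 := congrArg (starRingEnd ℂ) h1
        simp only [map_mul, Complex.conj_ofReal, Complex.conj_conj, norm_mul] at h2
        push_cast at h2
        have h3 : Complex.exp ((x.1.arg : ℂ) * Complex.I) ≠ 0 := Complex.exp_ne_zero _
        rw [Complex.exp_neg]
        have h4 : (‖x.1‖ : ℂ) ≠ 0 := by exact_mod_cast hn1.ne'
        have h5 : (‖x.1‖ : ℂ) * Complex.exp ((x.1.arg : ℂ) * Complex.I) ≠ 0 := mul_ne_zero h4 h3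
        apply mul_left_cancel₀ h5
        rw [e3, ← h2]
        have e4 : Complex.exp ((x.1.arg : ℂ) * Complex.I) *
            (Complex.exp ((x.1.arg : ℂ) * Complex.I))⁻¹ = 1 := mul_inv_cancel₀ h3
        linear_combination (-((‖x.2‖ : ℂ) * (starRingEnd ℂ) s *
          (Complex.exp ((x.1.arg : ℂ) * Complex.I))⁻¹)) * e3 +
          (‖x.1‖ : ℂ) * (‖x.2‖ : ℂ) * (starRingEnd ℂ) s * e4
  · rintro ⟨⟨ρ, τ⟩, ⟨⟨h0, h1⟩, -⟩, rfl⟩
    simp only at h0 h1
    have hr1 : 0 < √ρ := Real.sqrt_pos.2 h0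
    have hr2 : 0 < √(1 - ρ) := Real.sqrt_pos.2 (by linarith)
    have hmul : (pageMap s (ρ, τ)).1 * (pageMap s (ρ, τ)).2 =
        ((√ρ * √(1 - ρ) : ℝ) : ℂ) * (starRingEnd ℂ) s := by
      simp only [pageMap]
      rw [Complex.exp_neg]
      have h3 : Complex.exp ((τ : ℂ) * Complex.I) ≠ 0 := Complex.exp_ne_zero _
      push_cast
      field_simp
    have hs0 : s ≠ 0 := by rintro rfl; simp at hs
    refine ⟨?_, ?_, ?_⟩
    · have hn : ‖Complex.exp (-((τ : ℂ) * Complex.I))‖ = 1 := by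
        have := Complex.norm_exp_ofReal_mul_I (-τ)
        rw [← this]; congr 2; push_cast; ring
      rw [F0_eq_NN, NN_eq_norm]
      simp only [pageMap, norm_mul, Complex.norm_exp_ofReal_mul_I, RCLike.norm_conj, hs, hn,
        Complex.norm_real, Real.norm_of_nonneg hr1.le, Real.norm_of_nonneg hr2.le, mul_one]
      rw [Real.sq_sqrt h0.le, Real.sq_sqrt (by linarith)]; ring
    · rw [hmul]
      refine mul_ne_zero ?_ ((map_ne_zero _).2 hs0)
      exact_mod_cast (mul_pos hr1 hr2).ne'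
    · rw [qq_of_mul (mul_pos hr1 hr2) hmul, hs]; simp

lemma page_isConnected {s : ℂ} (hs : ‖s‖ = 1) : IsConnected (pageSet s) := by
  rw [page_eq hs]
  apply IsConnected.image
  · refine ⟨⟨(1 / 2, 0), ?_⟩, ?_⟩
    · simp; norm_num
    · exact (isPreconnected_Ioo.prod isPreconnected_univ)
  · exact (pageMap_continuous s).continuousOn

lemma rel_refl (k : ℕ) (x : ℂ × ℂ) : Rel k x x := ⟨1, one_pow _, by simp⟩

lemma mul_of_rel {k : ℕ} (hk : 0 < k) {x y : ℂ × ℂ} (h : Rel k x y) : y.1 * y.2 = x.1 * x.2 := by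
  obtain ⟨u, hu, rfl⟩ := h
  have hu0 : u ≠ 0 := by
    rintro rfl
    rw [zero_pow (by omega)] at hu
    exact zero_ne_one hu
  simp only
  field_simp

lemma F0_of_rel {k : ℕ} (hk : 0 < k) {x y : ℂ × ℂ} (h : Rel k x y) : F0 y = F0 x := by
  obtain ⟨u, hu, rfl⟩ := h
  rw [F0_eq_NN, F0_eq_NN, NN_rot (norm_of_pow (by omega) hu)]

lemma qq_congr {x y : ℂ × ℂ} (h : y.1 * y.2 = x.1 * x.2) : qq y = qq x := by
  rw [qq, qq, h]

lemma iota_mul (x : ℂ × ℂ) : (iotaE x).1 * (iotaE x).2 = -(x.1 * x.2) := by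
  simp only [iotaE_apply]
  linear_combination (x.1 * x.2) * Complex.I_mul_I

lemma qq_neg_mul {x y : ℂ × ℂ} (h : y.1 * y.2 = -(x.1 * x.2)) : qq y = -qq x := by
  rw [qq, qq, h, map_neg, norm_neg, neg_div]

lemma same1_iff_rel {x y : ℂ × ℂ} : Y1.Same x y ↔ Rel 1 x y ∨ Rel 1 (iotaE x) y := by
  have key : ∀ x y : ℂ × ℂ, Rel 1 x y ↔ (y = x ∨ y = -x) := by
    intro x y
    constructor
    · rintro ⟨u, hu, h⟩
      have h2 : u ^ 2 = 1 := by simpa using hu
      rcases sq_eq_sq_iff_eq_or_eq_neg.1 (h2.trans (one_pow 2).symm) with rfl | rfl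
      · left; simpa using h
      · right; rw [h]; ext1 <;> simp
    · rintro (rfl | rfl)
      · exact rel_refl 1 y
      · refine ⟨-1, by simp, ?_⟩
        ext1 <;> simp
  rw [same1, key, key]
  tauto

lemma F0_iota (x : ℂ × ℂ) : F0 (iotaE x) = F0 x := by
  rw [F0_eq_NN, F0_eq_NN, NN_iotaE]

lemma not_mem_KK {x : ℂ × ℂ} : x ∈ {x | F0 x = 0} \ KK ↔ F0 x = 0 ∧ x.1 * x.2 ≠ 0 := by
  constructor
  · rintro ⟨h1, h2⟩
    exact ⟨h1, fun h => h2 ⟨h1, h⟩⟩
  · rintro ⟨h1, h2⟩
    exact ⟨h1, fun h => h2 h.2⟩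

lemma fderiv_qq_ne {x : ℂ × ℂ} (hx : x.1 * x.2 ≠ 0) : fderiv ℝ qq x (fr 1 0 0 x) ≠ 0 := by
  intro h
  have h1 := dθ_qq_fr hx 1 0 0
  rw [h] at h1
  have hc := cr_ci_pos hx
  have hpos : (0 : ℝ) < ‖x.1 * x.2‖ := norm_pos_iff.2 hx
  rw [mul_zero, Complex.zero_im, eq_comm, div_eq_zero_iff] at h1
  rcases h1 with h1 | h1
  · linarith
  · have : (0 : ℝ) < 2 * ‖x.1 * x.2‖ ^ 2 := by positivity
    exact this.ne' h1

lemma nhds_aux {k : ℕ} (hk : 0 < k) {x : ℂ × ℂ} (hx : x ∈ KK) :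
    ({y | ∃ p : ℝ × ℂ, ‖p.2‖ < 1 ∧ Rel k (tube1 k p) y} ∈ 𝓝[{y | F0 y = 0}] x ∧ x.1 = 0) ∨
    ({y | ∃ p : ℝ × ℂ, ‖p.2‖ < 1 ∧ Rel k (tube2 k p) y} ∈ 𝓝[{y | F0 y = 0}] x ∧ x.2 = 0) := by
  rcases mul_eq_zero.1 hx.2 with h | h
  · left
    refine ⟨?_, h⟩
    have ho : IsOpen {y : ℂ × ℂ | ‖y.1‖ < 1 / 2} :=
      isOpen_lt (continuous_norm.comp continuous_fst) continuous_const
    have hm : x ∈ {y : ℂ × ℂ | ‖y.1‖ < 1 / 2} := by
      simp [h]
    filter_upwards [inter_mem_nhdsWithin {y : ℂ × ℂ | F0 y = 0} (ho.mem_nhds hm)] with y hy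
    obtain ⟨p, hp, h1, -⟩ := exists_tube1 hk hy.1 hy.2
    exact ⟨p, hp, h1 ▸ rel_refl k _⟩
  · right
    refine ⟨?_, h⟩
    have ho : IsOpen {y : ℂ × ℂ | ‖y.2‖ < 1 / 2} :=
      isOpen_lt (continuous_norm.comp continuous_snd) continuous_const
    have hm : x ∈ {y : ℂ × ℂ | ‖y.2‖ < 1 / 2} := by
      simp [h]
    filter_upwards [inter_mem_nhdsWithin {y : ℂ × ℂ | F0 y = 0} (ho.mem_nhds hm)] with y hy
    obtain ⟨p, hp, h1, -⟩ := exists_tube2 hk hy.1 hy.2
    exact ⟨p, hp, h1 ▸ rel_refl k _⟩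

/-- the tubes of the open book of `Y2 k` -/
def tubes (k : ℕ) (i : Fin 2) : ℝ × ℂ → ℂ × ℂ := if i = 0 then tube1 k else tube2 k

/-- The open book of `Y2 k`. -/
def B2 (k : ℕ) (hk : 0 < k) : RationalOpenBook (Y2 k hk) (Fin 2) where
  K := KK
  π := qq
  tube := tubes k
  mult := fun _ => 1
  twist := fun _ => 0
  norm_π := fun x hx => norm_qq (not_mem_KK.1 hx).2
  smooth_π := fun x hx => contDiffAt_qq (not_mem_KK.1 hx).2
  invariant_π := fun g hg x hx =>
    qq_congr (mul_of_rel hk (same2.1 ⟨g, hg, rfl⟩))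
  submersion := fun x hx => ⟨fr 1 0 0 x, fr_tangent _ _ _ _, fderiv_qq_ne (not_mem_KK.1 hx).2⟩
  page_connected := fun s hs => ⟨pageSet s, page_isConnected hs, fun x => by
    constructor
    · rintro ⟨hx, h⟩
      exact ⟨x, ⟨(not_mem_KK.1 hx).1, (not_mem_KK.1 hx).2, h⟩, same2.2 (rel_refl k x)⟩
    · rintro ⟨a, ⟨h1, h2, h3⟩, h⟩
      have hr : Rel k a x := same2.1 h
      refine ⟨not_mem_KK.2 ⟨by rw [F0_of_rel hk hr, h1], by rw [mul_of_rel hk hr]; exact h2⟩, ?_⟩
      rw [qq_congr (mul_of_rel hk hr), h3]⟩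
  mult_pos := fun _ => one_pos
  tube_smooth := fun i => by
    unfold tubes
    split_ifs
    · exact tube1_smooth k
    · exact tube2_smooth k
  tube_mem := fun i p hp => by
    unfold tubes
    split_ifs
    · exact F0_tube1 k hp
    · exact F0_tube2 k hp
  tube_immersion := fun i p hp => by
    unfold tubes
    split_ifs
    · exact tube1_injective hk hp
    · exact tube2_injective hk hp
  tube_same := fun i j p q hp hq => by
    rw [same2]
    change Rel k _ _ ↔ _
    fin_cases i <;> fin_cases j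
    · simpa [tubes] using rel_tube1 hk hp hq
    · simpa [tubes] using not_rel_tube12 hk hp hq
    · simpa [tubes] using not_rel_tube21 hk hp hq
    · simpa [tubes] using rel_tube2 hk hp hq
  mem_K := fun x => by
    constructor
    · rintro ⟨hF, hx⟩
      rcases mul_eq_zero.1 hx with h | h
      · obtain ⟨p, hp, h1, h2⟩ := exists_tube1 (y := x) hk hF (by simp [h])
        refine ⟨0, p.1, same2.2 ?_⟩
        have : p = (p.1, 0) := Prod.ext rfl (h2 h)
        rw [← this]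
        change Rel k (tube1 k p) x
        rw [h1]; exact rel_refl k x
      · obtain ⟨p, hp, h1, h2⟩ := exists_tube2 (y := x) hk hF (by simp [h])
        refine ⟨1, p.1, same2.2 ?_⟩
        have : p = (p.1, 0) := Prod.ext rfl (h2 h)
        rw [← this]
        change Rel k (tube2 k p) x
        rw [h1]; exact rel_refl k x
    · rintro ⟨i, φ, h⟩
      have hr : Rel k _ x := same2.1 h
      have hn : ‖((φ, 0) : ℝ × ℂ).2‖ < 1 := by simp
      refine ⟨?_, ?_⟩
      · rw [F0_of_rel hk hr]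
        unfold tubes
        split_ifs
        · exact F0_tube1 k hn
        · exact F0_tube2 k hn
      · rw [mul_of_rel hk hr]
        unfold tubes
        split_ifs
        · rw [tube1_zero]; simp
        · rw [tube2_zero]; simp
  tube_nhds := fun x hx => by
    rcases nhds_aux hk hx with ⟨h, -⟩ | ⟨h, -⟩
    · filter_upwards [h] with y hy
      obtain ⟨p, hp, h1⟩ := hy
      exact ⟨0, p, hp, same2.2 h1⟩
    · filter_upwards [h] with y hy
      obtain ⟨p, hp, h1⟩ := hy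
      exact ⟨1, p, hp, same2.2 h1⟩
  π_tube := fun i φ v h0 hv => by
    have : qq (tubes k i (φ, v)) = v / ‖v‖ := by
      unfold tubes
      split_ifs
      · exact qq_tube1 hv
      · exact qq_tube2 hv
    rw [this]; simp

lemma rel_iota_tube {k : ℕ} {p q : ℝ × ℂ} (hp : ‖p.2‖ < 1) (hq : ‖q.2‖ < 1) :
    ¬ Rel 1 (iotaE (tube1 k p)) (tube1 k q) := by
  rintro ⟨u, hu, h⟩
  have hun : ‖u‖ = 1 := norm_of_pow (by omega) hu
  have h1 := congrArg (fun z => ‖z.1‖) h
  simp only [tube1, iotaE_apply, norm_mul u⁻¹, norm_mul Complex.I, Complex.norm_I, norm_inv, hun,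
    inv_one, one_mul] at h1
  rw [norm_tube_a, norm_tube_b _ hp] at h1
  have := Rt_gt_half hp
  linarith

/-- The rational open book of `Y1`. -/
def B1 : RationalOpenBook Y1 Unit where
  K := KK
  π := fun x => qq x ^ 2
  tube := fun _ => tube1 1
  mult := fun _ => 2
  twist := fun _ => 0
  norm_π := fun x hx => by rw [norm_pow, norm_qq (not_mem_KK.1 hx).2, one_pow]
  smooth_π := fun x hx => (contDiffAt_qq (not_mem_KK.1 hx).2).pow 2
  invariant_π := fun g hg x hx => by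
    rcases same1_iff_rel.1 ⟨g, hg, rfl⟩ with h | h
    · rw [qq_congr (mul_of_rel one_pos h)]
    · have := mul_of_rel one_pos h
      rw [iota_mul] at this
      rw [qq_neg_mul this, neg_sq]
  submersion := fun x hx => by
    have hx' := (not_mem_KK.1 hx).2
    refine ⟨fr 1 0 0 x, fr_tangent _ _ _ _, ?_⟩
    have hq : HasFDerivAt qq (fderiv ℝ qq x) x :=
      ((contDiffAt_qq hx').differentiableAt (by simp)).hasFDerivAt
    have h2 := hq.pow 2
    erw [h2.fderiv]
    have h3 := fderiv_qq_ne hx'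
    have h4 : qq x ≠ 0 := by
      intro h; have := norm_qq hx'; rw [h] at this; simp at this
    simp only [smul_apply]
    simp [h3, h4]
  page_connected := fun s hs => by
    obtain ⟨s0, hs0⟩ : ∃ s0 : ℂ, s = s0 ^ 2 := by
      obtain ⟨z, hz⟩ := IsAlgClosed.exists_pow_nat_eq s (n := 2) (by norm_num)
      exact ⟨z, hz.symm⟩
    have hn : ‖s0‖ = 1 := by
      rw [hs0, norm_pow] at hs
      exact (pow_eq_one_iff_of_nonneg (norm_nonneg _) (by norm_num)).1 hs
    refine ⟨pageSet s0, page_isConnected hn, fun x => ?_⟩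
    constructor
    · rintro ⟨hx, h⟩
      have hx1 := (not_mem_KK.1 hx).1
      have hx2 := (not_mem_KK.1 hx).2
      rw [hs0] at h
      rcases sq_eq_sq_iff_eq_or_eq_neg.1 h with h | h
      · exact ⟨x, ⟨hx1, hx2, h⟩, same1_iff_rel.2 (Or.inl (rel_refl 1 x))⟩
      · refine ⟨iotaE x, ⟨by rw [F0_iota, hx1], by rw [iota_mul]; exact neg_ne_zero.2 hx2, ?_⟩, ?_⟩
        · rw [qq_neg_mul (iota_mul x), h, neg_neg]
        · rw [same1, iotaE_sq]
          right; right; right
          rw [neg_neg]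
    · rintro ⟨a, ⟨h1, h2, h3⟩, h⟩
      rcases same1_iff_rel.1 h with hr | hr
      · refine ⟨not_mem_KK.2 ⟨by rw [F0_of_rel one_pos hr, h1], by
          rw [mul_of_rel one_pos hr]; exact h2⟩, ?_⟩
        rw [qq_congr (mul_of_rel one_pos hr), h3, hs0]
      · have hm := mul_of_rel one_pos hr
        rw [iota_mul] at hm
        refine ⟨not_mem_KK.2 ⟨by rw [F0_of_rel one_pos hr, F0_iota, h1], by
          rw [hm]; exact neg_ne_zero.2 h2⟩, ?_⟩
        rw [qq_neg_mul hm, h3, hs0, neg_sq]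
  mult_pos := fun _ => two_pos
  tube_smooth := fun i => tube1_smooth 1
  tube_mem := fun i p hp => F0_tube1 1 hp
  tube_immersion := fun i p hp => tube1_injective one_pos hp
  tube_same := fun i j p q hp hq => by
    rw [same1_iff_rel, rel_tube1 one_pos hp hq]
    constructor
    · rintro (h | h)
      · exact ⟨rfl, h⟩
      · exact absurd h (rel_iota_tube hp hq)
    · rintro ⟨-, h⟩
      exact Or.inl h
  mem_K := fun x => by
    constructor
    · rintro ⟨hF, hx⟩
      rcases mul_eq_zero.1 hx with h | h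
      · obtain ⟨p, hp, h1, h2⟩ := exists_tube1 (y := x) one_pos hF (by simp [h])
        refine ⟨(), p.1, same1_iff_rel.2 (Or.inl ?_)⟩
        have : p = (p.1, 0) := Prod.ext rfl (h2 h)
        rw [← this, h1]; exact rel_refl 1 x
      · have hF' : F0 (iotaE x) = 0 := by rw [F0_iota, hF]
        have h0 : (iotaE x).1 = 0 := by simp [h]
        obtain ⟨p, hp, h1, h2⟩ := exists_tube1 (y := iotaE x) one_pos hF' (by simp [h])
        refine ⟨(), p.1, ?_⟩
        have : p = (p.1, 0) := Prod.ext rfl (h2 h0)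
        rw [← this, h1, same1, iotaE_sq]
        right; right; right
        rw [neg_neg]
    · rintro ⟨i, φ, h⟩
      have hn : ‖((φ, 0) : ℝ × ℂ).2‖ < 1 := by simp
      rcases same1_iff_rel.1 h with hr | hr
      · refine ⟨?_, ?_⟩
        · rw [F0_of_rel one_pos hr]; exact F0_tube1 1 hn
        · rw [mul_of_rel one_pos hr, tube1_zero]; simp
      · refine ⟨?_, ?_⟩
        · rw [F0_of_rel one_pos hr, F0_iota]; exact F0_tube1 1 hn
        · rw [mul_of_rel one_pos hr, iota_mul, tube1_zero]; simp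
  tube_nhds := fun x hx => by
    rcases mul_eq_zero.1 hx.2 with h | h
    · have ho : IsOpen {y : ℂ × ℂ | ‖y.1‖ < 1 / 2} :=
        isOpen_lt (continuous_norm.comp continuous_fst) continuous_const
      have hm : x ∈ {y : ℂ × ℂ | ‖y.1‖ < 1 / 2} := by simp [h]
      filter_upwards [inter_mem_nhdsWithin {y : ℂ × ℂ | F0 y = 0} (ho.mem_nhds hm)] with y hy
      obtain ⟨p, hp, h1, -⟩ := exists_tube1 one_pos hy.1 hy.2
      exact ⟨(), p, hp, same1_iff_rel.2 (Or.inl (h1 ▸ rel_refl 1 _))⟩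
    · have ho : IsOpen {y : ℂ × ℂ | ‖y.2‖ < 1 / 2} :=
        isOpen_lt (continuous_norm.comp continuous_snd) continuous_const
      have hm : x ∈ {y : ℂ × ℂ | ‖y.2‖ < 1 / 2} := by simp [h]
      filter_upwards [inter_mem_nhdsWithin {y : ℂ × ℂ | F0 y = 0} (ho.mem_nhds hm)] with y hy
      have hF' : F0 (iotaE y) = 0 := by rw [F0_iota]; exact hy.1
      have hn : ‖(iotaE y).1‖ < 1 / 2 := by
        rw [iotaE_apply, norm_mul, Complex.norm_I, one_mul]; exact hy.2
      obtain ⟨p, hp, h1, -⟩ := exists_tube1 one_pos hF' hn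
      refine ⟨(), p, hp, ?_⟩
      rw [h1, same1, iotaE_sq]
      right; right; right
      rw [neg_neg]
  π_tube := fun i φ v h0 hv => by
    simp only [qq_tube1 (k := 1) (p := (φ, v)) hv]
    simp

end Run7.h141
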