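import Pool.Agent.Run7.h141.Supp

/-! # The branched covers and the overtwisted disc -/

open scoped ContDiff Topology
open Set

noncomputable section

namespace Run7.h141

/-! ### The overtwisted disc -/

/-- the overtwisted disc -/
def otDisc (z : ℂ) : ℂ × ℂ :=
  (((√3 / 2 : ℝ) : ℂ) * z, ((√(1 - 3 / 4 * (z.re ^ 2 + z.im ^ 2)) : ℝ) : ℂ))

lemma ot_arg_pos {z : ℂ} (hz : ‖z‖ ≤ 1) : 0 < 1 - 3 / 4 * (z.re ^ 2 + z.im ^ 2) := by
  rw [sq_add_sq]; nlinarith [norm_nonneg z]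

lemma contDiffAt_ot {z : ℂ} (hz : ‖z‖ ≤ 1) :
    ContDiffAt ℝ ∞ (fun z : ℂ => √(1 - 3 / 4 * (z.re ^ 2 + z.im ^ 2))) z := by
  have h : ContDiffAt ℝ ∞ (fun z : ℂ => 1 - 3 / 4 * (z.re ^ 2 + z.im ^ 2)) z := by
    have a : ContDiff ℝ ∞ (fun v : ℂ => v.re) := Complex.reCLM.contDiff
    have b : ContDiff ℝ ∞ (fun v : ℂ => v.im) := Complex.imCLM.contDiff
    exact (contDiff_const.sub (contDiff_const.mul ((a.pow 2).add (b.pow 2)))).contDiffAt
  exact h.sqrt (ot_arg_pos hz).ne'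

lemma hasFDerivAt_ot {z : ℂ} (hz : ‖z‖ ≤ 1) : ∃ L : ℂ →L[ℝ] ℝ, ∀ u,
    fderiv ℝ otDisc z u = (((√3 / 2 : ℝ) : ℂ) * u, ((L u : ℝ) : ℂ)) := by
  have h0 := ((contDiffAt_ot hz).differentiableAt (by simp)).hasFDerivAt
  have h1 := Complex.ofRealCLM.hasFDerivAt.comp z h0
  have h2 : HasFDerivAt (fun z : ℂ => ((√3 / 2 : ℝ) : ℂ) * z)
      (((√3 / 2 : ℝ) : ℂ) • ContinuousLinearMap.id ℝ ℂ) z :=
    (hasFDerivAt_id z).const_mul _
  refine ⟨fderiv ℝ (fun z : ℂ => √(1 - 3 / 4 * (z.re ^ 2 + z.im ^ 2))) z, fun u => ?_⟩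
  have h3 : HasFDerivAt otDisc _ z := h2.prodMk h1
  rw [h3.fderiv]
  rfl

lemma F0_ot {z : ℂ} (hz : ‖z‖ ≤ 1) : F0 (otDisc z) = 0 := by
  rw [F0_eq_NN, NN]
  have h := Real.sq_sqrt (ot_arg_pos hz).le
  have h3 : √3 ^ 2 = 3 := Real.sq_sqrt (by norm_num)
  simp only [otDisc, Complex.re_ofReal_mul, Complex.im_ofReal_mul, Complex.ofReal_re,
    Complex.ofReal_im]
  rw [h]
  linear_combination ((z.re ^ 2 + z.im ^ 2) / 4) * h3

lemma ot_boundary {z : ℂ} (hz : ‖z‖ = 1) (u : ℂ) :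
    α0 (otDisc z) (fderiv ℝ otDisc z u) = 0 := by
  obtain ⟨L, hL⟩ := hasFDerivAt_ot hz.le
  rw [hL, α0_apply]
  have h3 : √3 ^ 2 = 3 := Real.sq_sqrt (by norm_num)
  have h1 : z.re ^ 2 + z.im ^ 2 = 1 := by rw [sq_add_sq, hz]; norm_num
  have h := Real.sq_sqrt (ot_arg_pos hz.le).le
  simp only [otDisc, Complex.re_ofReal_mul, Complex.im_ofReal_mul, Complex.ofReal_re,
    Complex.ofReal_im]
  rw [h, h1]
  have e1 : (√3 / 2 * z.re) ^ 2 + (√3 / 2 * z.im) ^ 2 = 3 / 4 := by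
    linear_combination ((z.re ^ 2 + z.im ^ 2) / 4) * h3 + (3 / 4) * h1
  rw [e1]
  ring

theorem overtwisted2 (k : ℕ) (hk : 0 < k) : Overtwisted (C2 k hk) := by
  have hs3 : (0 : ℝ) < √3 / 2 := by positivity
  refine ⟨otDisc, ?_, fun z hz => F0_ot hz, ?_, ?_, fun z hz u => ot_boundary hz u⟩
  · intro z hz
    exact (contDiffAt_const.mul contDiffAt_id).prodMk
      (Complex.ofRealCLM.contDiff.contDiffAt.comp z (contDiffAt_ot hz))
  · intro z hz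
    obtain ⟨L, hL⟩ := hasFDerivAt_ot hz
    rw [injective_iff_map_eq_zero]
    intro u hu
    rw [hL] at hu
    have := congrArg Prod.fst hu
    simp only [Prod.fst_zero, mul_eq_zero] at this
    refine this.resolve_left ?_
    exact_mod_cast hs3.ne'
  · intro z z' hz hz' h
    obtain ⟨u, hu, h⟩ := same2.1 h
    have hun : ‖u‖ = 1 := norm_of_pow (by omega) hu
    have h2 := congrArg Prod.snd h
    have h1 := congrArg Prod.fst h
    simp only [otDisc] at h1 h2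
    set a := √(1 - 3 / 4 * (z.re ^ 2 + z.im ^ 2)) with ha
    set b := √(1 - 3 / 4 * (z'.re ^ 2 + z'.im ^ 2)) with hb
    have ha0 : 0 < a := Real.sqrt_pos.2 (ot_arg_pos hz)
    have hb0 : 0 < b := Real.sqrt_pos.2 (ot_arg_pos hz')
    have hab : b = a := by
      have := congrArg (fun z => ‖z‖) h2
      simp only [norm_mul, hun, one_mul, Complex.norm_real, Real.norm_of_nonneg ha0.le,
        Real.norm_of_nonneg hb0.le] at this
      exact this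
    have hu1 : u = 1 := by
      rw [hab] at h2
      have : (a : ℂ) ≠ 0 := by exact_mod_cast ha0.ne'
      exact (mul_eq_right₀ this).1 h2.symm
    rw [hu1, inv_one, one_mul] at h1
    have : (((√3 / 2 : ℝ)) : ℂ) ≠ 0 := by exact_mod_cast hs3.ne'
    exact (mul_left_cancel₀ this h1).symm

/-! ### The covering map -/

/-- `|x₁|^(2k) + |x₂|^(2k)` -/
def nP (k : ℕ) (x : ℂ × ℂ) : ℝ := (x.1.re ^ 2 + x.1.im ^ 2) ^ k + (x.2.re ^ 2 + x.2.im ^ 2) ^ k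

lemma nP_eq (k : ℕ) (x : ℂ × ℂ) : nP k x = (‖x.1‖ ^ k) ^ 2 + (‖x.2‖ ^ k) ^ 2 := by
  rw [nP, sq_add_sq, sq_add_sq]; ring

lemma ne_zero_of_F0 {x : ℂ × ℂ} (hx : F0 x = 0) : x ≠ 0 := by
  rintro rfl; simp [F0] at hx

lemma nP_pos (k : ℕ) {x : ℂ × ℂ} (hx : x ≠ 0) : 0 < nP k x := by
  rw [nP_eq]
  by_cases h : x.1 = 0
  · have h2 : x.2 ≠ 0 := fun h' => hx (Prod.ext h h')
    have := norm_pos_iff.2 h2
    positivity
  · have := norm_pos_iff.2 h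
    positivity

/-- the covering map -/
def PP (k : ℕ) (x : ℂ × ℂ) : ℂ × ℂ :=
  ((((√(nP k x))⁻¹ : ℝ) : ℂ) * x.1 ^ k, (((√(nP k x))⁻¹ : ℝ) : ℂ) * x.2 ^ k)

lemma contDiff_nP (k : ℕ) : ContDiff ℝ ∞ (nP k) := by
  have h : nP k = fun x => (re1 x ^ 2 + im1 x ^ 2) ^ k + (re2 x ^ 2 + im2 x ^ 2) ^ k := rfl
  rw [h]; fun_prop

lemma contDiffAt_nPi (k : ℕ) {x : ℂ × ℂ} (hx : x ≠ 0) :
    ContDiffAt ℝ ∞ (fun x => (√(nP k x))⁻¹) x := by
  have hp := nP_pos k hx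
  exact ((contDiff_nP k).contDiffAt.sqrt hp.ne').inv (Real.sqrt_pos.2 hp).ne'

lemma contDiffAt_PP (k : ℕ) {x : ℂ × ℂ} (hx : x ≠ 0) : ContDiffAt ℝ ∞ (PP k) x := by
  have h1 : ContDiffAt ℝ ∞ (fun x => (((√(nP k x))⁻¹ : ℝ) : ℂ)) x :=
    Complex.ofRealCLM.contDiff.contDiffAt.comp x (contDiffAt_nPi k hx)
  exact (h1.mul (contDiffAt_fst.pow k)).prodMk (h1.mul (contDiffAt_snd.pow k))

lemma fderiv_PP (k : ℕ) {x : ℂ × ℂ} (hx : x ≠ 0) : ∃ L : ℂ × ℂ →L[ℝ] ℝ, ∀ v,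
    fderiv ℝ (PP k) x v = ((((√(nP k x))⁻¹ : ℝ) : ℂ) * (k * x.1 ^ (k - 1) * v.1) +
      x.1 ^ k * ((L v : ℝ) : ℂ), (((√(nP k x))⁻¹ : ℝ) : ℂ) * (k * x.2 ^ (k - 1) * v.2) +
      x.2 ^ k * ((L v : ℝ) : ℂ)) := by
  have h0 := ((contDiffAt_nPi k hx).differentiableAt (by simp)).hasFDerivAt
  set L := fderiv ℝ (fun x => (√(nP k x))⁻¹) x with hL
  have h1 : HasFDerivAt (fun x => (((√(nP k x))⁻¹ : ℝ) : ℂ)) (Complex.ofRealCLM.comp L) x :=
    Complex.ofRealCLM.hasFDerivAt.comp x h0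
  have a1 : HasFDerivAt (fun x : ℂ × ℂ => x.1) (ContinuousLinearMap.fst ℝ ℂ ℂ) x :=
    hasFDerivAt_fst
  have a2 : HasFDerivAt (fun x : ℂ × ℂ => x.2) (ContinuousLinearMap.snd ℝ ℂ ℂ) x :=
    hasFDerivAt_snd
  have h3 : HasFDerivAt (PP k) _ x := (h1.mul (a1.pow k)).prodMk (h1.mul (a2.pow k))
  refine ⟨L, fun v => ?_⟩
  rw [h3.fderiv]
  simp

lemma norm_PP1 (k : ℕ) {x : ℂ × ℂ} (hx : x ≠ 0) : ‖(PP k x).1‖ = (√(nP k x))⁻¹ * ‖x.1‖ ^ k := by
  have hp := Real.sqrt_pos.2 (nP_pos k hx)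
  simp only [PP, norm_mul, norm_pow, Complex.norm_real]
  rw [Real.norm_of_nonneg (by positivity)]

lemma norm_PP2 (k : ℕ) {x : ℂ × ℂ} (hx : x ≠ 0) : ‖(PP k x).2‖ = (√(nP k x))⁻¹ * ‖x.2‖ ^ k := by
  have hp := Real.sqrt_pos.2 (nP_pos k hx)
  simp only [PP, norm_mul, norm_pow, Complex.norm_real]
  rw [Real.norm_of_nonneg (by positivity)]

lemma F0_PP (k : ℕ) {x : ℂ × ℂ} (hx : x ≠ 0) : F0 (PP k x) = 0 := by
  have hp := nP_pos k hx
  rw [F0_eq_NN, NN_eq_norm, norm_PP1 k hx, norm_PP2 k hx, mul_pow, mul_pow, inv_pow,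
    Real.sq_sqrt hp.le, ← mul_add, ← nP_eq, inv_mul_cancel₀ hp.ne', sub_self]

lemma PP_mul (k : ℕ) (x : ℂ × ℂ) : (PP k x).1 * (PP k x).2 =
    ((((√(nP k x))⁻¹) ^ 2 : ℝ) : ℂ) * (x.1 * x.2) ^ k := by
  simp only [PP]; push_cast; ring

lemma qq_PP (k : ℕ) {x : ℂ × ℂ} (hx : x ≠ 0) : qq (PP k x) = qq x ^ k := by
  have hp := Real.sqrt_pos.2 (nP_pos k hx)
  have hr : 0 < ((√(nP k x))⁻¹) ^ 2 := by positivity
  rw [qq_of_mul (v := (starRingEnd ℂ) ((x.1 * x.2) ^ k)) hr (by rw [PP_mul]; simp), qq,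
    RCLike.norm_conj, norm_pow, div_pow, map_pow]
  push_cast
  rfl

lemma PP_mul_ne (k : ℕ) (hk : 0 < k) {x : ℂ × ℂ} (hx : x ≠ 0) :
    (PP k x).1 * (PP k x).2 = 0 ↔ x.1 * x.2 = 0 := by
  have hp := Real.sqrt_pos.2 (nP_pos k hx)
  have hr : ((((√(nP k x))⁻¹) ^ 2 : ℝ) : ℂ) ≠ 0 := by
    have : 0 < ((√(nP k x))⁻¹) ^ 2 := by positivity
    exact_mod_cast this.ne'
  rw [PP_mul, mul_eq_zero]
  constructor
  · rintro (h | h)
    · exact absurd h hr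
    · exact (pow_eq_zero_iff (by omega)).1 h
  · intro h
    right; rw [h, zero_pow (by omega)]

/-! ### Logarithmic coordinates -/

/-- determinant of three vectors of `ℝ³` -/
def det3 (a b c a' b' c' a'' b'' c'' : ℝ) : ℝ :=
  a * (b' * c'' - c' * b'') - b * (a' * c'' - c' * a'') + c * (a' * b'' - b' * a'')

/-- logarithmic coordinates of a tangent vector -/
def lr (x v : ℂ × ℂ) : ℝ := (v.1 / x.1 - v.2 / x.2).re
def la (x v : ℂ × ℂ) : ℝ := (v.1 / x.1).im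
def lb (x v : ℂ × ℂ) : ℝ := (v.2 / x.2).im

lemma c_eq {x : ℂ × ℂ} (hx : x.1 * x.2 ≠ 0) (v : ℂ × ℂ) :
    c1 x v = (x.1.re ^ 2 + x.1.im ^ 2) * la x v + (x.2.re ^ 2 + x.2.im ^ 2) * lb x v ∧
    c2 x v = -(x.1 * x.2).re * lr x v - (x.1 * x.2).im * (lb x v - la x v) ∧
    c3 x v = -(x.1 * x.2).im * lr x v + (x.1 * x.2).re * (lb x v - la x v) := by
  have hx1 : x.1 ≠ 0 := left_ne_zero_of_mul hx
  have hx2 : x.2 ≠ 0 := right_ne_zero_of_mul hx
  obtain ⟨a, ha⟩ : ∃ a, v.1 = x.1 * a := ⟨v.1 / x.1, by field_simp⟩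
  obtain ⟨b, hb⟩ : ∃ b, v.2 = x.2 * b := ⟨v.2 / x.2, by field_simp⟩
  have ha' : v.1 / x.1 = a := by rw [ha]; field_simp
  have hb' : v.2 / x.2 = b := by rw [hb]; field_simp
  simp only [lr, la, lb, ha', hb']
  simp only [c1, c2, c3, ha, hb]
  simp only [Complex.mul_re, Complex.mul_im, Complex.sub_re]
  refine ⟨by ring, by ring, by ring⟩

lemma vol_log {x : ℂ × ℂ} (hF : F0 x = 0) (hx : x.1 * x.2 ≠ 0) {u v w : ℂ × ℂ}
    (hu : fderiv ℝ F0 x u = 0) (hv : fderiv ℝ F0 x v = 0) (hw : fderiv ℝ F0 x w = 0) :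
    wedge12 (α0 x) (extD α0 x) u v w =
      -((2 + 4 * kk x ^ 2) * ((x.1 * x.2).re ^ 2 + (x.1 * x.2).im ^ 2)) *
      det3 (lr x u) (la x u) (lb x u) (lr x v) (la x v) (lb x v) (lr x w) (la x w) (lb x w) := by
  have hN := NN_eq_one hF
  simp only [NN] at hN
  rw [fr_decomp hF hu, fr_decomp hF hv, fr_decomp hF hw, vol_α0_fr _ _ _ _ _ _ _ _ _ hF]
  rw [← fr_decomp hF hu, ← fr_decomp hF hv, ← fr_decomp hF hw]
  obtain ⟨u1, u2, u3⟩ := c_eq hx u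
  obtain ⟨v1, v2, v3⟩ := c_eq hx v
  obtain ⟨w1, w2, w3⟩ := c_eq hx w
  rw [u1, u2, u3, v1, v2, v3, w1, w2, w3, det3]
  generalize (x.1 * x.2).re = X
  generalize (x.1 * x.2).im = Y
  have hs : x.2.re ^ 2 + x.2.im ^ 2 = 1 - (x.1.re ^ 2 + x.1.im ^ 2) := by linarith
  rw [hs]
  ring

lemma log_PP {k : ℕ} (hk : 0 < k) {x : ℂ × ℂ} (hx : x.1 * x.2 ≠ 0) (v : ℂ × ℂ) :
    ∃ t : ℝ, (fderiv ℝ (PP k) x v).1 / (PP k x).1 = t + k * (v.1 / x.1) ∧
      (fderiv ℝ (PP k) x v).2 / (PP k x).2 = t + k * (v.2 / x.2) := by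
  have hx1 : x.1 ≠ 0 := left_ne_zero_of_mul hx
  have hx2 : x.2 ≠ 0 := right_ne_zero_of_mul hx
  have hx0 : x ≠ 0 := by rintro rfl; simp at hx1
  obtain ⟨L, hL⟩ := fderiv_PP k hx0
  have hp := Real.sqrt_pos.2 (nP_pos k hx0)
  have hr : ((((√(nP k x))⁻¹) : ℝ) : ℂ) ≠ 0 := by
    have : 0 < (√(nP k x))⁻¹ := by positivity
    exact_mod_cast this.ne'
  refine ⟨L v / (√(nP k x))⁻¹, ?_, ?_⟩
  · rw [hL]
    simp only [PP]
    rw [Complex.ofReal_div]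
    generalize ((((√(nP k x))⁻¹) : ℝ) : ℂ) = R at *
    have e : x.1 ^ k = x.1 ^ (k - 1) * x.1 := by
      rw [← pow_succ]; congr 1; omega
    rw [e]
    have : x.1 ^ (k - 1) ≠ 0 := pow_ne_zero _ hx1
    field_simp
    ring
  · rw [hL]
    simp only [PP]
    rw [Complex.ofReal_div]
    generalize ((((√(nP k x))⁻¹) : ℝ) : ℂ) = R at *
    have e : x.2 ^ k = x.2 ^ (k - 1) * x.2 := by
      rw [← pow_succ]; congr 1; omega
    rw [e]
    have : x.2 ^ (k - 1) ≠ 0 := pow_ne_zero _ hx2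
    field_simp
    ring

lemma log_PP' {k : ℕ} (hk : 0 < k) {x : ℂ × ℂ} (hx : x.1 * x.2 ≠ 0) (v : ℂ × ℂ) :
    lr (PP k x) (fderiv ℝ (PP k) x v) = k * lr x v ∧
    la (PP k x) (fderiv ℝ (PP k) x v) = k * la x v ∧
    lb (PP k x) (fderiv ℝ (PP k) x v) = k * lb x v := by
  obtain ⟨t, h1, h2⟩ := log_PP hk hx v
  have hk' : (k : ℂ) = ((k : ℝ) : ℂ) := by push_cast; rfl
  simp only [lr, la, lb, h1, h2]
  rw [hk']
  refine ⟨?_, ?_, ?_⟩
  · simp only [Complex.sub_re, Complex.add_re, Complex.re_ofReal_mul]; ring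
  · simp only [Complex.add_im, Complex.im_ofReal_mul, Complex.ofReal_im]; ring
  · simp only [Complex.add_im, Complex.im_ofReal_mul, Complex.ofReal_im]; ring

lemma fderiv_PP_tangent (k : ℕ) {x : ℂ × ℂ} (hx : x ≠ 0) (v : ℂ × ℂ) :
    fderiv ℝ F0 (PP k x) (fderiv ℝ (PP k) x v) = 0 := by
  have h1 : HasFDerivAt (PP k) (fderiv ℝ (PP k) x) x :=
    ((contDiffAt_PP k hx).differentiableAt (by simp)).hasFDerivAt
  have h2 : HasFDerivAt F0 (fderiv ℝ F0 (PP k x)) (PP k x) :=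
    ((F0_smooth.differentiable (by simp)) _).hasFDerivAt
  have h3 := h2.comp x h1
  have h4 : (F0 ∘ PP k) =ᶠ[𝓝 x] fun _ => (0 : ℝ) := by
    filter_upwards [isOpen_compl_singleton.mem_nhds hx] with y hy
    exact F0_PP k hy
  have h5 := (hasFDerivAt_const (𝕜 := ℝ) (0 : ℝ) x).congr_of_eventuallyEq h4
  have h6 := h3.unique h5
  have := congrArg (fun M => M v) h6
  simpa using this

lemma rel_PP {k : ℕ} {x y : ℂ × ℂ} (h : Rel k x y) : Rel 1 (PP k x) (PP k y) := by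
  obtain ⟨u, hu, rfl⟩ := h
  by_cases hk : k = 0
  · subst hk
    have : PP 0 (u⁻¹ * x.1, u * x.2) = PP 0 x := by simp [PP, nP]
    rw [this]; exact rel_refl 1 _
  have hun : ‖u‖ = 1 := norm_of_pow (by omega) hu
  refine ⟨u ^ k, by rw [← hu]; ring, ?_⟩
  have h1 : nP k (u⁻¹ * x.1, u * x.2) = nP k x := by
    rw [nP_eq, nP_eq]; simp [hun]
  simp only [PP]
  rw [h1]
  ext1
  · simp only [mul_pow, inv_pow]; ring
  · simp only [mul_pow]; ring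

lemma local_diffeo_PP {k : ℕ} (hk : 0 < k) {x : ℂ × ℂ} (hF : F0 x = 0) (hx : x.1 * x.2 ≠ 0)
    {v : ℂ × ℂ} (hv : fderiv ℝ F0 x v = 0) (h : fderiv ℝ (PP k) x v = 0) : v = 0 := by
  have hx1 : x.1 ≠ 0 := left_ne_zero_of_mul hx
  have hx2 : x.2 ≠ 0 := right_ne_zero_of_mul hx
  obtain ⟨t, h1, h2⟩ := log_PP hk hx v
  rw [h] at h1 h2
  simp only [Prod.fst_zero, Prod.snd_zero, zero_div] at h1 h2
  have hk' : (k : ℂ) ≠ 0 := by exact_mod_cast hk.ne'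
  have e1 : v.1 / x.1 = ((-t / k : ℝ) : ℂ) := by
    push_cast; field_simp; field_simp at h1; linear_combination (-1) * h1
  have e2 : v.2 / x.2 = ((-t / k : ℝ) : ℂ) := by
    push_cast; field_simp; field_simp at h2; linear_combination (-1) * h2
  have f1 : v.1 = ((-t / k : ℝ) : ℂ) * x.1 := (div_eq_iff hx1).1 e1
  have f2 : v.2 = ((-t / k : ℝ) : ℂ) * x.2 := (div_eq_iff hx2).1 e2
  have hN := NN_eq_one hF
  simp only [NN] at hN
  rw [fderiv_F0, f1, f2] at hv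
  simp only [Complex.re_ofReal_mul, Complex.im_ofReal_mul] at hv
  have ht : -t / k = 0 := by linear_combination (1 / 2) * hv - (-t / k) * hN
  rw [ht] at f1 f2
  ext1
  · rw [f1]; simp
  · rw [f2]; simp

lemma orientation_PP {k : ℕ} (hk : 0 < k) {x : ℂ × ℂ} (hF : F0 x = 0) (hx : x.1 * x.2 ≠ 0)
    {u v w : ℂ × ℂ} (hu : fderiv ℝ F0 x u = 0) (hv : fderiv ℝ F0 x v = 0)
    (hw : fderiv ℝ F0 x w = 0) (h : 0 < wedge12 (α0 x) (extD α0 x) u v w) :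
    0 < wedge12 (α0 (PP k x)) (extD α0 (PP k x)) (fderiv ℝ (PP k) x u) (fderiv ℝ (PP k) x v)
      (fderiv ℝ (PP k) x w) := by
  have hx0 : x ≠ 0 := ne_zero_of_F0 hF
  have hPx : (PP k x).1 * (PP k x).2 ≠ 0 := fun h => hx ((PP_mul_ne k hk hx0).1 h)
  rw [vol_log hF hx hu hv hw] at h
  rw [vol_log (F0_PP k hx0) hPx (fderiv_PP_tangent k hx0 u) (fderiv_PP_tangent k hx0 v)
    (fderiv_PP_tangent k hx0 w)]
  obtain ⟨u1, u2, u3⟩ := log_PP' hk hx u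
  obtain ⟨v1, v2, v3⟩ := log_PP' hk hx v
  obtain ⟨w1, w2, w3⟩ := log_PP' hk hx w
  rw [u1, u2, u3, v1, v2, v3, w1, w2, w3]
  have e1 : 0 < (x.1 * x.2).re ^ 2 + (x.1 * x.2).im ^ 2 := by
    rw [sq_add_sq]; have := norm_pos_iff.2 hx; positivity
  have e2 : 0 < ((PP k x).1 * (PP k x).2).re ^ 2 + ((PP k x).1 * (PP k x).2).im ^ 2 := by
    rw [sq_add_sq]; have := norm_pos_iff.2 hPx; positivity
  have hk3 : (0 : ℝ) < (k : ℝ) ^ 3 := by positivity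
  generalize lr x u = A1 at *
  generalize la x u = A2 at *
  generalize lb x u = A3 at *
  generalize lr x v = B1 at *
  generalize la x v = B2 at *
  generalize lb x v = B3 at *
  generalize lr x w = C1 at *
  generalize la x w = C2 at *
  generalize lb x w = C3 at *
  have hd : det3 (k * A1) (k * A2) (k * A3) (k * B1) (k * B2) (k * B3) (k * C1) (k * C2) (k * C3) =
      (k : ℝ) ^ 3 * det3 A1 A2 A3 B1 B2 B3 C1 C2 C3 := by
    simp only [det3]; ring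
  rw [hd]
  have p1 : 0 < (2 + 4 * kk x ^ 2) * ((x.1 * x.2).re ^ 2 + (x.1 * x.2).im ^ 2) := by positivity
  have p2 : 0 < (2 + 4 * kk (PP k x) ^ 2) *
    (((PP k x).1 * (PP k x).2).re ^ 2 + ((PP k x).1 * (PP k x).2).im ^ 2) := by positivity
  have hneg : det3 A1 A2 A3 B1 B2 B3 C1 C2 C3 < 0 := by
    by_contra hcon
    push Not at hcon
    have := mul_nonneg p1.le hcon
    linarith
  have h5 : 0 < (k : ℝ) ^ 3 * -det3 A1 A2 A3 B1 B2 B3 C1 C2 C3 := mul_pos hk3 (by linarith)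
  have h6 := mul_pos p2 h5
  linarith

lemma exists_root {k : ℕ} (hk : 0 < k) {z : ℂ} (hz : ‖z‖ = 1) : ∃ e : ℂ, e ^ k = z ∧ ‖e‖ = 1 := by
  obtain ⟨e, he⟩ := IsAlgClosed.exists_pow_nat_eq z hk
  refine ⟨e, he, ?_⟩
  rw [← he, norm_pow] at hz
  exact (pow_eq_one_iff_of_nonneg (norm_nonneg _) hk.ne').1 hz

/-- surjectivity onto the pull-back, up to the sign -/
lemma surj_aux {k : ℕ} (hk : 0 < k) {y : ℂ × ℂ} (hF : F0 y = 0) (hy : y.1 * y.2 ≠ 0) {s : ℂ}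
    (hs : s ^ k = qq y) : ∃ x : ℂ × ℂ, F0 x = 0 ∧ x.1 * x.2 ≠ 0 ∧ qq x = s ∧ PP k x = y := by
  have hy1 : y.1 ≠ 0 := left_ne_zero_of_mul hy
  have hy2 : y.2 ≠ 0 := right_ne_zero_of_mul hy
  have n1 := norm_pos_iff.2 hy1
  have n2 := norm_pos_iff.2 hy2
  have n1' : (‖y.1‖ : ℂ) ≠ 0 := by exact_mod_cast n1.ne'
  have n2' : (‖y.2‖ : ℂ) ≠ 0 := by exact_mod_cast n2.ne'
  have hs1 : ‖s‖ = 1 := by
    have := norm_qq hy
    rw [← hs, norm_pow] at this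
    exact (pow_eq_one_iff_of_nonneg (norm_nonneg _) hk.ne').1 this
  obtain ⟨e, he, hen⟩ := exists_root hk (z := y.1 / ‖y.1‖) (by
    rw [norm_div, Complex.norm_real, norm_norm, div_self n1.ne'])
  have hN := NN_eq_one hF
  rw [NN_eq_norm] at hN
  -- the k-th roots of the moduli
  set a : ℝ := ‖y.1‖ ^ ((1 : ℝ) / k) with ha
  set b : ℝ := ‖y.2‖ ^ ((1 : ℝ) / k) with hb
  have ha0 : 0 < a := Real.rpow_pos_of_pos n1 _
  have hb0 : 0 < b := Real.rpow_pos_of_pos n2 _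
  have hak : a ^ k = ‖y.1‖ := by
    rw [ha, ← Real.rpow_natCast, ← Real.rpow_mul n1.le, one_div, inv_mul_cancel₀
      (by exact_mod_cast hk.ne'), Real.rpow_one]
  have hbk : b ^ k = ‖y.2‖ := by
    rw [hb, ← Real.rpow_natCast, ← Real.rpow_mul n2.le, one_div, inv_mul_cancel₀
      (by exact_mod_cast hk.ne'), Real.rpow_one]
  set m : ℝ := √(a ^ 2 + b ^ 2) with hm
  have hm2 : m ^ 2 = a ^ 2 + b ^ 2 := Real.sq_sqrt (by positivity)
  have hm0 : 0 < m := Real.sqrt_pos.2 (by positivity)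
  have hm0' : (m : ℂ) ≠ 0 := by exact_mod_cast hm0.ne'
  set x : ℂ × ℂ := (((a / m : ℝ) : ℂ) * e, ((b / m : ℝ) : ℂ) * ((starRingEnd ℂ) s *
    (starRingEnd ℂ) e)) with hx
  have e1 : ‖x.1‖ = a / m := by
    rw [hx]; simp only [norm_mul, hen, Complex.norm_real, mul_one]
    exact Real.norm_of_nonneg (by positivity)
  have e2 : ‖x.2‖ = b / m := by
    rw [hx]; simp only [norm_mul, hen, hs1, RCLike.norm_conj, Complex.norm_real, mul_one]
    exact Real.norm_of_nonneg (by positivity)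
  have hFx : F0 x = 0 := by
    rw [F0_eq_NN, NN_eq_norm, e1, e2, div_pow, div_pow, ← add_div, ← hm2, div_self (by positivity),
      sub_self]
  have hmul : x.1 * x.2 = ((a * b / m ^ 2 : ℝ) : ℂ) * (starRingEnd ℂ) s := by
    have hee : e * (starRingEnd ℂ) e = 1 := by
      rw [Complex.mul_conj, Complex.normSq_eq_norm_sq, hen]; simp
    rw [hx]; simp only
    push_cast
    field_simp
    linear_combination (a : ℂ) * (b : ℂ) * (starRingEnd ℂ) s * hee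
  have hx12 : x.1 * x.2 ≠ 0 := by
    have h1 : x.1 ≠ 0 := norm_pos_iff.1 (by rw [e1]; positivity)
    have h2 : x.2 ≠ 0 := norm_pos_iff.1 (by rw [e2]; positivity)
    exact mul_ne_zero h1 h2
  refine ⟨x, hFx, hx12, ?_, ?_⟩
  · rw [qq_of_mul (by positivity) hmul, hs1]; simp
  · -- compute the image
    have hn : nP k x = ((m ^ k)⁻¹) ^ 2 := by
      rw [nP_eq, e1, e2]
      simp only [div_pow, hak, hbk]
      rw [← add_div, hN, one_div, inv_pow]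
    have hn' : √(nP k x) = (m ^ k)⁻¹ := by
      rw [hn]; exact Real.sqrt_sq (by positivity)
    have hqy : (starRingEnd ℂ) (qq y) * (‖y.1‖ * ‖y.2‖ : ℂ) = y.1 * y.2 := by
      have := congrArg (starRingEnd ℂ) (qq_mul hy)
      simpa using this
    have hmk : ((m : ℂ)) ^ k ≠ 0 := pow_ne_zero _ hm0'
    have hak' : (a : ℂ) ^ k = (‖y.1‖ : ℂ) := by exact_mod_cast hak
    have hbk' : (b : ℂ) ^ k = (‖y.2‖ : ℂ) := by exact_mod_cast hbk
    simp only [PP]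
    rw [hn', inv_inv, hx]
    ext1
    · simp only
      rw [mul_pow, he]
      push_cast
      rw [div_pow, hak']
      field_simp
    · simp only
      rw [mul_pow, mul_pow, ← map_pow, ← map_pow, he, hs]
      push_cast
      rw [div_pow, hbk']
      have h7 : (starRingEnd ℂ) y.1 * y.1 = (‖y.1‖ : ℂ) ^ 2 := by
        rw [mul_comm, Complex.mul_conj, Complex.normSq_eq_norm_sq]; push_cast; rfl
      rw [map_div₀, Complex.conj_ofReal]
      have h8 : (starRingEnd ℂ) (qq y) * (starRingEnd ℂ) y.1 * (‖y.2‖ : ℂ) = (‖y.1‖ : ℂ) * y.2 := by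
        apply mul_left_cancel₀ n1'
        linear_combination (starRingEnd ℂ) y.1 * hqy + y.2 * h7
      field_simp
      linear_combination h8

/-- injectivity into the pull-back, up to the sign -/
lemma inj_aux {k : ℕ} (hk : 0 < k) {x y : ℂ × ℂ} (hFx : F0 x = 0) (hx : x.1 * x.2 ≠ 0)
    (hFy : F0 y = 0) (hy : y.1 * y.2 ≠ 0) (hq : qq x = qq y) (h : Rel 1 (PP k x) (PP k y)) :
    Rel k x y := by
  have hx1 : x.1 ≠ 0 := left_ne_zero_of_mul hx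
  have hx2 : x.2 ≠ 0 := right_ne_zero_of_mul hx
  have hy1 : y.1 ≠ 0 := left_ne_zero_of_mul hy
  have hx0 := ne_zero_of_F0 hFx
  have hy0 := ne_zero_of_F0 hFy
  have n1 := norm_pos_iff.2 hx1
  have n2 := norm_pos_iff.2 hx2
  obtain ⟨ε, hε, h⟩ := h
  have hε1 : ‖ε‖ = 1 := norm_of_pow (by norm_num) hε
  have h1 := congrArg Prod.fst h
  have h2 := congrArg Prod.snd h
  simp only at h1 h2
  have m1 := congrArg (fun z => ‖z‖) h1
  have m2 := congrArg (fun z => ‖z‖) h2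
  simp only [norm_mul, norm_inv, hε1, inv_one, one_mul] at m1 m2
  rw [norm_PP1 k hy0, norm_PP1 k hx0] at m1
  rw [norm_PP2 k hy0, norm_PP2 k hx0] at m2
  have px := Real.sqrt_pos.2 (nP_pos k hx0)
  have py := Real.sqrt_pos.2 (nP_pos k hy0)
  have hNx := NN_eq_one hFx
  have hNy := NN_eq_one hFy
  rw [NN_eq_norm] at hNx hNy
  -- the norms agree
  have hcross : (‖y.1‖ * ‖x.2‖) ^ k = (‖x.1‖ * ‖y.2‖) ^ k := by
    have hne : (√(nP k y))⁻¹ * (√(nP k x))⁻¹ ≠ 0 := by positivity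
    apply mul_left_cancel₀ hne
    rw [mul_pow, mul_pow]
    linear_combination ((√(nP k x))⁻¹ * ‖x.2‖ ^ k) * m1 - ((√(nP k x))⁻¹ * ‖x.1‖ ^ k) * m2
  have hc := (pow_left_inj₀ (by positivity) (by positivity) hk.ne').1 hcross
  have hn1 : ‖y.1‖ = ‖x.1‖ := by
    have : ‖y.1‖ ^ 2 = ‖x.1‖ ^ 2 := by
      have h3 : (‖y.1‖ * ‖x.2‖) ^ 2 = (‖x.1‖ * ‖y.2‖) ^ 2 := by rw [hc]
      linear_combination h3 - ‖y.1‖ ^ 2 * hNx + ‖x.1‖ ^ 2 * hNy
    exact (sq_eq_sq₀ (norm_nonneg _) (norm_nonneg _)).1 this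
  have hn2 : ‖y.2‖ = ‖x.2‖ := by
    rw [hn1] at hc
    exact (mul_left_cancel₀ n1.ne' hc).symm
  have hnP : nP k y = nP k x := by rw [nP_eq, nP_eq, hn1, hn2]
  have hR : ((((√(nP k x))⁻¹) : ℝ) : ℂ) ≠ 0 := by
    have : 0 < (√(nP k x))⁻¹ := by positivity
    exact_mod_cast this.ne'
  have hmul : y.1 * y.2 = x.1 * x.2 := by
    have a1 := qq_mul hx
    have a2 := qq_mul hy
    have a3 : ‖y.1 * y.2‖ = ‖x.1 * x.2‖ := by rw [norm_mul, norm_mul, hn1, hn2]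
    rw [a3, ← hq, a1] at a2
    exact ((starRingEnd ℂ).injective a2).symm
  refine ⟨x.1 / y.1, ?_, ?_⟩
  · have h5 : y.1 ^ k = ε⁻¹ * x.1 ^ k := by
      simp only [PP] at h1
      rw [hnP] at h1
      apply mul_left_cancel₀ hR
      rw [h1]; ring
    have hε0 : ε ≠ 0 := by rintro rfl; simp at hε1
    have h6 : x.1 ^ k = ε * y.1 ^ k := by rw [h5, mul_inv_cancel_left₀ hε0]
    rw [div_pow, div_eq_one_iff_eq (pow_ne_zero _ hy1), mul_comm 2 k, pow_mul, h6, mul_pow,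
      show ε ^ 2 = 1 by simpa using hε, one_mul, ← pow_mul]
  · ext1
    · simp only [inv_div]; field_simp
    · simp only
      field_simp
      linear_combination hmul

/-- The map `PP k` is the `2k`-fold cyclic branched cover of `Y1` along the binding. -/
theorem isCyclicBranchedCover (k : ℕ) (hk : 0 < k) :
    IsCyclicBranchedCover (2 * k) C1 B1 (C2 k hk) (B2 k hk) (PP k) where
  smooth := fun x hx => contDiffAt_PP k (ne_zero_of_F0 hx)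
  maps := fun x hx => F0_PP k (ne_zero_of_F0 hx)
  same := fun x hx g hg => same1_iff_rel.2 (Or.inl (rel_PP (same2.1 ⟨g, hg, rfl⟩)))
  binding := fun x hx => by
    constructor
    · rintro ⟨-, h⟩
      exact ⟨hx, (PP_mul_ne k hk (ne_zero_of_F0 hx)).1 h⟩
    · rintro ⟨-, h⟩
      exact ⟨F0_PP k (ne_zero_of_F0 hx), (PP_mul_ne k hk (ne_zero_of_F0 hx)).2 h⟩
  local_diffeo := fun x hx v hv h =>
    local_diffeo_PP hk (not_mem_KK.1 hx).1 (not_mem_KK.1 hx).2 hv h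
  orientation := fun x hx u hu v hv w hw h =>
    orientation_PP hk (not_mem_KK.1 hx).1 (not_mem_KK.1 hx).2 hu hv hw h
  pow_π := fun x hx => by
    change qq x ^ (2 * k) = qq (PP k x) ^ 2
    rw [qq_PP k (ne_zero_of_F0 (not_mem_KK.1 hx).1), ← pow_mul, mul_comm]
  surjective := fun y hy s hs => by
    have hF := (not_mem_KK.1 hy).1
    have hy' := (not_mem_KK.1 hy).2
    change s ^ (2 * k) = qq y ^ 2 at hs
    rw [mul_comm, pow_mul] at hs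
    rcases sq_eq_sq_iff_eq_or_eq_neg.1 hs with h | h
    · obtain ⟨x, h1, h2, h3, h4⟩ := surj_aux hk hF hy' h
      exact ⟨x, not_mem_KK.2 ⟨h1, h2⟩, h3, same1_iff_rel.2 (Or.inl (h4 ▸ rel_refl 1 _))⟩
    · have hF' : F0 (iotaE y) = 0 := by rw [F0_iota, hF]
      have hy'' : (iotaE y).1 * (iotaE y).2 ≠ 0 := by rw [iota_mul]; exact neg_ne_zero.2 hy'
      obtain ⟨x, h1, h2, h3, h4⟩ := surj_aux hk hF' hy'' (s := s)
        (by rw [h, qq_neg_mul (iota_mul y)])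
      refine ⟨x, not_mem_KK.2 ⟨h1, h2⟩, h3, ?_⟩
      rw [h4, same1, iotaE_sq]
      right; right; right
      rw [neg_neg]
  injective := fun x hx y hy hq h => by
    have hx' := not_mem_KK.1 hx
    have hy' := not_mem_KK.1 hy
    change qq x = qq y at hq
    rcases same1_iff_rel.1 h with h | h
    · exact same2.2 (inj_aux hk hx'.1 hx'.2 hy'.1 hy'.2 hq h)
    · exfalso
      have h1 := mul_of_rel one_pos h
      rw [iota_mul] at h1
      have h2 := qq_neg_mul h1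
      rw [qq_PP k (ne_zero_of_F0 hx'.1), qq_PP k (ne_zero_of_F0 hy'.1), hq] at h2
      have h3 := norm_qq hy'.2
      have h4 : qq y ^ k = 0 := self_eq_neg.1 h2
      rw [(pow_eq_zero_iff hk.ne').1 h4] at h3
      simp at h3

end Run7.h141
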