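import Mathlib

/-!
# Contact 3-manifolds, rational open books, cyclic branched covers, fillings

All manifolds are presented concretely.  A closed 3-manifold `Y` is given as a quotient `Z / Γ`, where
`Z = {F = 0}` is a compact connected regular level set of a smooth map between finite dimensional
vector spaces and `Γ` is a finite group of linear automorphisms which preserves `Z` and acts freely on
`Z`.  Objects on `Y` (forms, maps, subsets) are given by the corresponding `Γ`-invariant objects on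
`Z`; smooth maps and forms on `Z` are restrictions of smooth maps and forms of the ambient space.
-/

open scoped ContDiff Topology
open Set

noncomputable section

namespace Run7.h141

section Forms

variable {E : Type*}

/-- The 3-form `a ∧ b` evaluated on `(u, v, w)`, where `a` is a 1-form and `b` is a 2-form. -/
def wedge12 (a : E → ℝ) (b : E → E → ℝ) (u v w : E) : ℝ :=
  a u * b v w - a v * b u w + a w * b u v

/-- The 4-form `(1/2) (b ∧ b)` evaluated on `(n, u, v, w)`, where `b` is a 2-form. -/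
def halfSquare (b : E → E → ℝ) (n u v w : E) : ℝ :=
  b n u * b v w - b n v * b u w + b n w * b u v

variable [NormedAddCommGroup E] [NormedSpace ℝ E]

/-- The exterior derivative `dα` of a 1-form `α` at the point `x`, evaluated on `(u, v)`. -/
def extD (α : E → E →L[ℝ] ℝ) (x u v : E) : ℝ :=
  fderiv ℝ α x u v - fderiv ℝ α x v u

/-- The exterior derivative `dΩ` of a 2-form `Ω` at the point `x`, evaluated on `(u, v, w)`. -/
def extD2 (Ω : E → E →L[ℝ] E →L[ℝ] ℝ) (x u v w : E) : ℝ :=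
  fderiv ℝ Ω x u v w - fderiv ℝ Ω x v u w + fderiv ℝ Ω x w u v

end Forms

variable {E G : Type} [NormedAddCommGroup E] [NormedSpace ℝ E]
  [NormedAddCommGroup G] [NormedSpace ℝ G]

/-- A closed connected smooth 3-manifold `Y = Z / Γ`: the set `Z = {F = 0}` is a compact connected
regular level set, of dimension `dim E - dim G = 3`, and `Γ` is a finite group of linear automorphisms
of `E` which maps `Z` to `Z` and acts freely on `Z`. -/
structure ClosedThreeManifold (E G : Type) [NormedAddCommGroup E] [NormedSpace ℝ E]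
    [NormedAddCommGroup G] [NormedSpace ℝ G] where
  /-- the map defining the level set -/
  F : E → G
  /-- the group -/
  Γ : Subgroup (E ≃L[ℝ] E)
  finiteDimensional : FiniteDimensional ℝ E
  smooth : ContDiff ℝ ∞ F
  regular : ∀ x, F x = 0 → Function.Surjective (fderiv ℝ F x)
  dim : Module.finrank ℝ E = Module.finrank ℝ G + 3
  compact : IsCompact {x | F x = 0}
  connected : IsConnected {x | F x = 0}
  finite : Finite Γ
  invariant : ∀ g ∈ Γ, ∀ x, F x = 0 → F (g x) = 0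
  free : ∀ g ∈ Γ, ∀ x, F x = 0 → g x = x → g = 1

namespace ClosedThreeManifold

variable (Y : ClosedThreeManifold E G)

/-- The covering space `Z` of `Y = Z / Γ`. -/
def Z : Set E := {x | Y.F x = 0}

/-- The tangent space of `Z` at `x` (which is also the tangent space of `Y` at the class of `x`). -/
def T (x : E) : Submodule ℝ E := LinearMap.ker (fderiv ℝ Y.F x : E →ₗ[ℝ] G)

/-- The points `x` and `y` of `Z` represent the same point of `Y`. -/
def Same (x y : E) : Prop := ∃ g ∈ Y.Γ, g x = y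

end ClosedThreeManifold

/-- A contact form on `Y = Z / Γ`: a `Γ`-invariant 1-form `α` on `Z` which vanishes nowhere and such
that `dα` is nondegenerate on the plane field `ξ = ker α`.  The manifold `Y` is always oriented by the
volume form `α ∧ dα`, so that `ξ` is a positive co-oriented contact structure. -/
structure ContactForm (Y : ClosedThreeManifold E G) where
  /-- the contact form -/
  α : E → E →L[ℝ] ℝ
  smooth : ContDiff ℝ ∞ α
  invariant : ∀ g ∈ Y.Γ, ∀ x ∈ Y.Z, ∀ v ∈ Y.T x, α (g x) (g v) = α x v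
  ne_zero : ∀ x ∈ Y.Z, ∃ v ∈ Y.T x, α x v ≠ 0
  nondegenerate : ∀ x ∈ Y.Z, ∀ u ∈ Y.T x, α x u = 0 →
    (∀ v ∈ Y.T x, α x v = 0 → extD α x u v = 0) → u = 0

/-- The volume form `α ∧ dα` at `x ∈ Z`, evaluated on `(u, v, w)`. -/
def ContactForm.vol {Y : ClosedThreeManifold E G} (C : ContactForm Y) (x u v w : E) : ℝ :=
  wedge12 (C.α x) (extD C.α x) u v w

/-- A rational open book of `Y = Z / Γ` whose binding `K` is a link with components indexed by `ι`.
The binding is given by its preimage `K ⊆ Z`, the fibration of `Y \ K` over the circle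
`{s : ℂ | ‖s‖ = 1}` by its `Γ`-invariant lift `π`.  For each component of the binding there is a
parametrised tubular neighbourhood `S¹ × D² → Y`, `(φ, v) ↦ [tube i (φ, v)]`, `φ ∈ ℝ / ℤ`, `‖v‖ < 1`,
in which `π` is `(φ, v) ↦ exp (2 π i (twist i) φ) (v / ‖v‖) ^ (mult i)`, where `mult i ≥ 1`: the closure
of a page is a surface whose boundary wraps `mult i` times in total around this component, and
`π` crosses each page `mult i` times along a meridian.  The pages are connected. -/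
structure RationalOpenBook (Y : ClosedThreeManifold E G) (ι : Type) where
  /-- the preimage in `Z` of the binding -/
  K : Set E
  /-- the fibration over the unit circle -/
  π : E → ℂ
  /-- parametrised tubular neighbourhoods of the components of the binding -/
  tube : ι → ℝ × ℂ → E
  /-- the multiplicities -/
  mult : ι → ℕ
  /-- the twisting of the pages along the binding in the tubular neighbourhoods -/
  twist : ι → ℤ
  norm_π : ∀ x ∈ Y.Z \ K, ‖π x‖ = 1
  smooth_π : ∀ x ∈ Y.Z \ K, ContDiffAt ℝ ∞ π x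
  invariant_π : ∀ g ∈ Y.Γ, ∀ x ∈ Y.Z \ K, π (g x) = π x
  submersion : ∀ x ∈ Y.Z \ K, ∃ v ∈ Y.T x, fderiv ℝ π x v ≠ 0
  page_connected : ∀ s : ℂ, ‖s‖ = 1 → ∃ A : Set E, IsConnected A ∧
    ∀ x, (x ∈ Y.Z \ K ∧ π x = s) ↔ ∃ a ∈ A, Y.Same a x
  mult_pos : ∀ i, 0 < mult i
  tube_smooth : ∀ i, ContDiffOn ℝ ∞ (tube i) {p | ‖p.2‖ < 1}
  tube_mem : ∀ i, ∀ p : ℝ × ℂ, ‖p.2‖ < 1 → tube i p ∈ Y.Z
  tube_immersion : ∀ i, ∀ p : ℝ × ℂ, ‖p.2‖ < 1 → Function.Injective (fderiv ℝ (tube i) p)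
  tube_same : ∀ i j, ∀ p q : ℝ × ℂ, ‖p.2‖ < 1 → ‖q.2‖ < 1 →
    (Y.Same (tube i p) (tube j q) ↔ i = j ∧ p.2 = q.2 ∧ ∃ m : ℤ, q.1 = p.1 + m)
  mem_K : ∀ x, x ∈ K ↔ ∃ i φ, Y.Same (tube i (φ, 0)) x
  tube_nhds : ∀ x ∈ K, {y | ∃ i p, ‖p.2‖ < 1 ∧ Y.Same (tube i p) y} ∈ 𝓝[Y.Z] x
  π_tube : ∀ i φ v, 0 < ‖v‖ → ‖v‖ < 1 → π (tube i (φ, v)) =
    Complex.exp (2 * Real.pi * Complex.I * twist i * φ) * (v / ‖v‖) ^ mult i

/-- The differential of the angle of `π` at `x ∈ Z \ K`, evaluated on the tangent vector `v`. -/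
def RationalOpenBook.dθ {Y : ClosedThreeManifold E G} {ι : Type} (B : RationalOpenBook Y ι)
    (x v : E) : ℝ :=
  ((starRingEnd ℂ) (B.π x) * fderiv ℝ B.π x v).im

/-- The contact structure `ker α` is supported by the rational open book `B`, and `α` is adapted to
it: `dα` is positive on the pages, and `α` is positive on the binding, oriented as the boundary of the
pages.  The pages are co-oriented by `π` and oriented accordingly (`Y` is oriented by `α ∧ dα`); in a
tubular neighbourhood `(φ, v)` this gives the orientation `∂/∂φ` of the binding if `(φ, v)` are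
positive coordinates on `Y`, and `-∂/∂φ` otherwise. -/
structure Supports {Y : ClosedThreeManifold E G} {ι : Type} (C : ContactForm Y)
    (B : RationalOpenBook Y ι) : Prop where
  pages : ∀ x ∈ Y.Z \ B.K, ∀ u ∈ Y.T x, ∀ v ∈ Y.T x, ∀ w ∈ Y.T x,
    B.dθ x u = 0 → B.dθ x v = 0 → 0 < B.dθ x w → 0 < C.vol x w u v → 0 < extD C.α x u v
  binding : ∀ i, ∀ φ : ℝ, 0 <
    C.α (B.tube i (φ, 0)) (fderiv ℝ (B.tube i) (φ, 0) (1, 0)) *
    C.vol (B.tube i (φ, 0)) (fderiv ℝ (B.tube i) (φ, 0) (1, 0))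
      (fderiv ℝ (B.tube i) (φ, 0) (0, 1)) (fderiv ℝ (B.tube i) (φ, 0) (0, Complex.I))

/-- The contact structure `ker α` on `Y` is overtwisted: there is a smoothly embedded closed disc in
`Y` which is tangent to `ker α` along its boundary. -/
def Overtwisted {Y : ClosedThreeManifold E G} (C : ContactForm Y) : Prop :=
  ∃ D : ℂ → E, (∀ z, ‖z‖ ≤ 1 → ContDiffAt ℝ ∞ D z) ∧ (∀ z, ‖z‖ ≤ 1 → D z ∈ Y.Z) ∧
    (∀ z, ‖z‖ ≤ 1 → Function.Injective (fderiv ℝ D z)) ∧
    (∀ z z', ‖z‖ ≤ 1 → ‖z'‖ ≤ 1 → Y.Same (D z) (D z') → z = z') ∧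
    ∀ z, ‖z‖ = 1 → ∀ u, C.α (D z) (fderiv ℝ D z u) = 0

/-- The map `P : Z' → Z` induces a map `p : Y' → Y` which is the `n`-fold cyclic branched cover of `Y`
along the binding `K` of the rational open book `B`, induced by the fibration `π` of `Y \ K`: off
`K' = p⁻¹(K)`, the map `p` is an orientation preserving local diffeomorphism and
`(p, π') : Y' \ K' → {(y, s) | s ^ n = π(y)}` is a bijection onto the pull-back of `Y \ K → S¹` under
`s ↦ s ^ n`.  The rational open book `B'` of `Y'` is the pull-back of `B`: its binding is `p⁻¹(K)` and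
its fibration is `π'`. -/
structure IsCyclicBranchedCover {E' G' : Type} [NormedAddCommGroup E'] [NormedSpace ℝ E']
    [NormedAddCommGroup G'] [NormedSpace ℝ G'] {Y : ClosedThreeManifold E G}
    {Y' : ClosedThreeManifold E' G'} {ι ι' : Type} (n : ℕ)
    (C : ContactForm Y) (B : RationalOpenBook Y ι)
    (C' : ContactForm Y') (B' : RationalOpenBook Y' ι') (P : E' → E) : Prop where
  smooth : ∀ x ∈ Y'.Z, ContDiffAt ℝ ∞ P x
  maps : ∀ x ∈ Y'.Z, P x ∈ Y.Z
  same : ∀ x ∈ Y'.Z, ∀ g ∈ Y'.Γ, Y.Same (P x) (P (g x))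
  binding : ∀ x ∈ Y'.Z, P x ∈ B.K ↔ x ∈ B'.K
  local_diffeo : ∀ x ∈ Y'.Z \ B'.K, ∀ v ∈ Y'.T x, fderiv ℝ P x v = 0 → v = 0
  orientation : ∀ x ∈ Y'.Z \ B'.K, ∀ u ∈ Y'.T x, ∀ v ∈ Y'.T x, ∀ w ∈ Y'.T x,
    0 < C'.vol x u v w → 0 < C.vol (P x) (fderiv ℝ P x u) (fderiv ℝ P x v) (fderiv ℝ P x w)
  pow_π : ∀ x ∈ Y'.Z \ B'.K, B'.π x ^ n = B.π (P x)
  surjective : ∀ y ∈ Y.Z \ B.K, ∀ s : ℂ, s ^ n = B.π y →
    ∃ x ∈ Y'.Z \ B'.K, B'.π x = s ∧ Y.Same (P x) y
  injective : ∀ x₁ ∈ Y'.Z \ B'.K, ∀ x₂ ∈ Y'.Z \ B'.K, B'.π x₁ = B'.π x₂ →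
    Y.Same (P x₁) (P x₂) → Y'.Same x₁ x₂

/-- A weak symplectic filling `(W, Ω)` of `(Y, ker α)`.  Here `W = {p ∈ X | ρ p ≤ 0}` is a compact
4-manifold with boundary `∂W = {p ∈ X | ρ p = 0}`, contained in the 4-manifold `X = {f = 0} ⊆ V`; `Ω` is
a closed 2-form on `W` which is nondegenerate; `Φ` induces a diffeomorphism `Y → ∂W`, which maps the
orientation of `Y` given by `α ∧ dα` to the boundary orientation of `∂W` (outward normal vector first,
`W` being oriented by `Ω ∧ Ω`); and `Ω` is positive on `ker α` (oriented by `dα`). -/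
structure WeakFilling {Y : ClosedThreeManifold E G} (C : ContactForm Y) (V U : Type)
    [NormedAddCommGroup V] [NormedSpace ℝ V] [NormedAddCommGroup U] [NormedSpace ℝ U] where
  /-- the map defining the 4-manifold `X` -/
  f : V → U
  /-- the function defining the domain `W` in `X` -/
  ρ : V → ℝ
  /-- the symplectic form -/
  Ω : V → V →L[ℝ] V →L[ℝ] ℝ
  /-- the identification of `Y` with the boundary of `W` -/
  Φ : E → V
  finiteDimensional : FiniteDimensional ℝ V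
  smooth_f : ContDiff ℝ ∞ f
  regular_f : ∀ p, f p = 0 → Function.Surjective (fderiv ℝ f p)
  dim : Module.finrank ℝ V = Module.finrank ℝ U + 4
  smooth_ρ : ContDiff ℝ ∞ ρ
  compact : IsCompact {p | f p = 0 ∧ ρ p ≤ 0}
  regular_ρ : ∀ p, f p = 0 → ρ p = 0 → ∃ v, fderiv ℝ f p v = 0 ∧ fderiv ℝ ρ p v ≠ 0
  smooth_Ω : ContDiff ℝ ∞ Ω
  alternating : ∀ p v, Ω p v v = 0
  closed : ∀ p, f p = 0 → ρ p ≤ 0 → ∀ u v w, fderiv ℝ f p u = 0 → fderiv ℝ f p v = 0 →
    fderiv ℝ f p w = 0 → extD2 Ω p u v w = 0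
  nondegenerate : ∀ p, f p = 0 → ρ p ≤ 0 → ∀ u, fderiv ℝ f p u = 0 →
    (∀ v, fderiv ℝ f p v = 0 → Ω p u v = 0) → u = 0
  smooth_Φ : ∀ x ∈ Y.Z, ContDiffAt ℝ ∞ Φ x
  boundary : ∀ p, (f p = 0 ∧ ρ p = 0) ↔ ∃ x ∈ Y.Z, Φ x = p
  same : ∀ x ∈ Y.Z, ∀ y ∈ Y.Z, Φ x = Φ y ↔ Y.Same x y
  immersion : ∀ x ∈ Y.Z, ∀ v ∈ Y.T x, fderiv ℝ Φ x v = 0 → v = 0
  orientation : ∀ x ∈ Y.Z, ∀ n, fderiv ℝ f (Φ x) n = 0 → 0 < fderiv ℝ ρ (Φ x) n →
    ∀ u ∈ Y.T x, ∀ v ∈ Y.T x, ∀ w ∈ Y.T x, 0 < C.vol x u v w →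
    0 < halfSquare (fun a b => Ω (Φ x) a b) n (fderiv ℝ Φ x u) (fderiv ℝ Φ x v) (fderiv ℝ Φ x w)
  taming : ∀ x ∈ Y.Z, ∀ u ∈ Y.T x, ∀ v ∈ Y.T x, C.α x u = 0 → C.α x v = 0 →
    0 < extD C.α x u v → 0 < Ω (Φ x) (fderiv ℝ Φ x u) (fderiv ℝ Φ x v)

end Run7.h141
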