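import Pool.Agent.Run7.h141.Groups

/-! # The fibration -/

open scoped ContDiff Topology
open Set

noncomputable section

namespace Run7.h141

/-- the fibration, on the double cover: `conj (x₁ x₂) / |x₁ x₂|` -/
def qq (x : ℂ × ℂ) : ℂ := (starRingEnd ℂ) (x.1 * x.2) / (‖x.1 * x.2‖ : ℂ)

/-- preimage of the binding -/
def KK : Set (ℂ × ℂ) := {x | F0 x = 0 ∧ x.1 * x.2 = 0}

lemma norm_qq {x : ℂ × ℂ} (hx : x.1 * x.2 ≠ 0) : ‖qq x‖ = 1 := by
  unfold qq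
  have : (0 : ℝ) < ‖x.1 * x.2‖ := norm_pos_iff.2 hx
  rw [norm_div, RCLike.norm_conj, Complex.norm_real, norm_norm, div_self this.ne']

lemma qq_mul {x : ℂ × ℂ} (hx : x.1 * x.2 ≠ 0) :
    qq x * (‖x.1 * x.2‖ : ℂ) = (starRingEnd ℂ) (x.1 * x.2) := by
  unfold qq
  have : (‖x.1 * x.2‖ : ℂ) ≠ 0 := by
    exact_mod_cast (norm_pos_iff.2 hx).ne'
  rw [div_mul_cancel₀ _ this]

lemma contDiff_mul12 : ContDiff ℝ ∞ (fun x : ℂ × ℂ => x.1 * x.2) := by fun_prop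

lemma contDiffAt_norm_mul {x : ℂ × ℂ} (hx : x.1 * x.2 ≠ 0) :
    ContDiffAt ℝ ∞ (fun x : ℂ × ℂ => (‖x.1 * x.2‖ : ℂ)) x := by
  have h1 : ContDiffAt ℝ ∞ (fun x : ℂ × ℂ => ‖x.1 * x.2‖) x :=
    contDiff_mul12.contDiffAt.norm ℝ hx
  exact Complex.ofRealCLM.contDiff.contDiffAt.comp x h1

lemma contDiff_conj_mul : ContDiff ℝ ∞ (fun x : ℂ × ℂ => (starRingEnd ℂ) (x.1 * x.2)) :=
  Complex.conjCLE.contDiff.comp contDiff_mul12

lemma contDiffAt_qq {x : ℂ × ℂ} (hx : x.1 * x.2 ≠ 0) : ContDiffAt ℝ ∞ qq x := by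
  have h : qq = fun x => (starRingEnd ℂ) (x.1 * x.2) * ((‖x.1 * x.2‖ : ℂ))⁻¹ := by
    funext x; rw [qq, div_eq_mul_inv]
  rw [h]
  refine ContDiffAt.mul contDiff_conj_mul.contDiffAt (ContDiffAt.inv (contDiffAt_norm_mul hx) ?_)
  exact_mod_cast (norm_pos_iff.2 hx).ne'

lemma isOpen_ne : IsOpen {x : ℂ × ℂ | x.1 * x.2 ≠ 0} := by
  have : Continuous (fun x : ℂ × ℂ => x.1 * x.2) := by fun_prop
  exact isOpen_ne_fun this continuous_const

/-- the differential of the angle of `qq` -/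
lemma im_conj_fderiv_qq {x : ℂ × ℂ} (hx : x.1 * x.2 ≠ 0) (v : ℂ × ℂ) :
    ((starRingEnd ℂ) (qq x) * fderiv ℝ qq x v).im =
      -((starRingEnd ℂ) (x.1 * x.2) * (v.1 * x.2 + x.1 * v.2)).im / ‖x.1 * x.2‖ ^ 2 := by
  have hpos : (0 : ℝ) < ‖x.1 * x.2‖ := norm_pos_iff.2 hx
  have hq : HasFDerivAt qq (fderiv ℝ qq x) x :=
    ((contDiffAt_qq hx).differentiableAt (by simp)).hasFDerivAt
  have h1 : ContDiffAt ℝ ∞ (fun x : ℂ × ℂ => ‖x.1 * x.2‖) x :=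
    contDiff_mul12.contDiffAt.norm ℝ hx
  have hn := (h1.differentiableAt (by simp)).hasFDerivAt
  set L := fderiv ℝ (fun x : ℂ × ℂ => ‖x.1 * x.2‖) x with hL
  have hn' : HasFDerivAt (fun x : ℂ × ℂ => (‖x.1 * x.2‖ : ℂ)) (Complex.ofRealCLM.comp L) x :=
    Complex.ofRealCLM.hasFDerivAt.comp x hn
  have hprod := hq.mul hn'
  have hm : HasFDerivAt (fun x : ℂ × ℂ => x.1 * x.2)
      (x.1 • ContinuousLinearMap.snd ℝ ℂ ℂ + x.2 • ContinuousLinearMap.fst ℝ ℂ ℂ) x := by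
    have a : HasFDerivAt (fun x : ℂ × ℂ => x.1) (ContinuousLinearMap.fst ℝ ℂ ℂ) x :=
      hasFDerivAt_fst
    have b : HasFDerivAt (fun x : ℂ × ℂ => x.2) (ContinuousLinearMap.snd ℝ ℂ ℂ) x :=
      hasFDerivAt_snd
    exact a.mul b
  have hc : HasFDerivAt (fun x : ℂ × ℂ => (starRingEnd ℂ) (x.1 * x.2))
      ((Complex.conjCLE : ℂ →L[ℝ] ℂ).comp
        (x.1 • ContinuousLinearMap.snd ℝ ℂ ℂ + x.2 • ContinuousLinearMap.fst ℝ ℂ ℂ)) x :=
    (Complex.conjCLE : ℂ →L[ℝ] ℂ).hasFDerivAt.comp x hm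
  have heq : (fun y : ℂ × ℂ => qq y * (‖y.1 * y.2‖ : ℂ)) =ᶠ[𝓝 x]
      fun y => (starRingEnd ℂ) (y.1 * y.2) := by
    filter_upwards [isOpen_ne.mem_nhds hx] with y hy
    exact qq_mul hy
  have h2 := hc.congr_of_eventuallyEq heq
  have h3 := congrArg (fun M => M v) (hprod.unique h2)
  have h3' : qq x * (L v : ℂ) + (‖x.1 * x.2‖ : ℂ) * fderiv ℝ qq x v =
      (starRingEnd ℂ) (x.1 * v.2 + x.2 * v.1) := h3
  have hqn : (starRingEnd ℂ) (qq x) * qq x = 1 := by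
    rw [mul_comm, Complex.mul_conj, Complex.normSq_eq_norm_sq, norm_qq hx]; simp
  have h4 : (‖x.1 * x.2‖ : ℂ) * ((starRingEnd ℂ) (qq x) * fderiv ℝ qq x v) =
      (starRingEnd ℂ) (qq x) * (starRingEnd ℂ) (x.1 * v.2 + x.2 * v.1) - (L v : ℂ) := by
    linear_combination (starRingEnd ℂ) (qq x) * h3' - (L v : ℂ) * hqn
  have h5 : (starRingEnd ℂ) (qq x) * (‖x.1 * x.2‖ : ℂ) = x.1 * x.2 := by
    have := congrArg (starRingEnd ℂ) (qq_mul hx)
    simpa using this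
  have h6 : (‖x.1 * x.2‖ : ℂ) * ((‖x.1 * x.2‖ : ℂ) * ((starRingEnd ℂ) (qq x) * fderiv ℝ qq x v)) =
      (x.1 * x.2) * (starRingEnd ℂ) (x.1 * v.2 + x.2 * v.1) - (‖x.1 * x.2‖ : ℂ) * (L v : ℂ) := by
    linear_combination (‖x.1 * x.2‖ : ℂ) * h4 +
      (starRingEnd ℂ) (x.1 * v.2 + x.2 * v.1) * h5
  have h7 := congrArg Complex.im h6
  rw [Complex.im_ofReal_mul, Complex.im_ofReal_mul, Complex.sub_im, Complex.im_ofReal_mul,
    Complex.ofReal_im, mul_zero, sub_zero] at h7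
  rw [eq_div_iff (by positivity)]
  have h8 : (x.1 * x.2 * (starRingEnd ℂ) (x.1 * v.2 + x.2 * v.1)).im =
      -((starRingEnd ℂ) (x.1 * x.2) * (v.1 * x.2 + x.1 * v.2)).im := by
    simp; ring
  rw [← h8, ← h7]; ring

/-- the differential of the angle of `qq`, in the frame -/
lemma dθ_qq_fr {x : ℂ × ℂ} (hx : x.1 * x.2 ≠ 0) (p q r : ℝ) :
    ((starRingEnd ℂ) (qq x) * fderiv ℝ qq x (fr p q r x)).im =
      (-(cr x ^ 2 + ci x ^ 2) * p + kk x * ci x * q - kk x * cr x * r) /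
        (2 * ‖x.1 * x.2‖ ^ 2) := by
  have hpos : (0 : ℝ) < ‖x.1 * x.2‖ := norm_pos_iff.2 hx
  rw [im_conj_fderiv_qq hx, div_eq_div_iff (by positivity) (by positivity)]
  have : -((starRingEnd ℂ) (x.1 * x.2) * ((fr p q r x).1 * x.2 + x.1 * (fr p q r x).2)).im * 2 =
      (-(cr x ^ 2 + ci x ^ 2) * p + kk x * ci x * q - kk x * cr x * r) := by
    simp [fr, cr, ci, kk]; ring
  rw [← this]; ring

lemma cr_ci_pos {x : ℂ × ℂ} (hx : x.1 * x.2 ≠ 0) : 0 < cr x ^ 2 + ci x ^ 2 := by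
  have h : cr x ^ 2 + ci x ^ 2 = 4 * Complex.normSq (x.1 * x.2) := by
    rw [Complex.normSq_apply]; simp [cr, ci]; ring
  rw [h]
  have := Complex.normSq_pos.2 hx
  positivity

/-- The key computation behind the support condition. -/
lemma pages_aux {x u v w : ℂ × ℂ} (hF : F0 x = 0) (hx : x.1 * x.2 ≠ 0)
    (hu : fderiv ℝ F0 x u = 0) (hv : fderiv ℝ F0 x v = 0) (hw : fderiv ℝ F0 x w = 0)
    (h1 : ((starRingEnd ℂ) (qq x) * fderiv ℝ qq x u).im = 0)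
    (h2 : ((starRingEnd ℂ) (qq x) * fderiv ℝ qq x v).im = 0)
    (h3 : 0 < ((starRingEnd ℂ) (qq x) * fderiv ℝ qq x w).im)
    (h4 : 0 < wedge12 (α0 x) (extD α0 x) w u v) : 0 < extD α0 x u v := by
  obtain ⟨p, q, r, rfl⟩ := exists_fr hF hu
  obtain ⟨p', q', r', rfl⟩ := exists_fr hF hv
  obtain ⟨p'', q'', r'', rfl⟩ := exists_fr hF hw
  have hpos : (0 : ℝ) < ‖x.1 * x.2‖ := norm_pos_iff.2 hx
  have hp2 : (0 : ℝ) < 2 * ‖x.1 * x.2‖ ^ 2 := by positivity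
  rw [dθ_qq_fr hx, div_eq_zero_iff] at h1 h2
  rw [dθ_qq_fr hx] at h3
  have h1' := h1.resolve_right hp2.ne'
  have h2' := h2.resolve_right hp2.ne'
  have h3' : 0 < (-(cr x ^ 2 + ci x ^ 2) * p'' + kk x * ci x * q'' - kk x * cr x * r'') := by
    by_contra hcon
    push Not at hcon
    have := div_nonpos_of_nonpos_of_nonneg hcon hp2.le
    linarith
  rw [vol_α0_fr _ _ _ _ _ _ _ _ _ hF] at h4
  have hc := cr_ci_pos hx
  have hN := NN_eq_one hF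
  rw [extD_α0_fr, hN]
  set k := kk x
  set a := cr x
  set b := ci x
  have hk : 0 < 2 + 4 * k ^ 2 := by positivity
  have hdet : (p'' * (q * r' - r * q') - q'' * (p * r' - r * p') + r'' * (p * q' - q * p')) < 0 := by
    by_contra hcon
    push Not at hcon
    nlinarith
  have key : (-(a ^ 2 + b ^ 2) * p'' + k * b * q'' - k * a * r'') *
      ((q * r' - r * q') * (2 * 1 ^ 2 - 8 * k ^ 2) + (p * q' - q * p') * (8 * k * a) +
        (p * r' - r * p') * (8 * k * b)) =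
      -2 * (a ^ 2 + b ^ 2) *
      (p'' * (q * r' - r * q') - q'' * (p * r' - r * p') + r'' * (p * q' - q * p')) := by
    linear_combination (
      (2 * 1 ^ 2 - 8 * k ^ 2) * (q'' * r' - r'' * q') + (-8 * k * b) * (r'' * p' - p'' * r') +
        (8 * k * a) * (p'' * q' - q'' * p')) * h1' +
      ((2 * 1 ^ 2 - 8 * k ^ 2) * (q * r'' - r * q'') + (-8 * k * b) * (r * p'' - p * r'') +
        (8 * k * a) * (p * q'' - q * p'')) * h2'
  by_contra hcon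
  push Not at hcon
  have h5 : (-(a ^ 2 + b ^ 2) * p'' + k * b * q'' - k * a * r'') *
      ((q * r' - r * q') * (2 * 1 ^ 2 - 8 * k ^ 2) + (p * q' - q * p') * (8 * k * a) +
        (p * r' - r * p') * (8 * k * b)) ≤ 0 := mul_nonpos_of_nonneg_of_nonpos h3'.le hcon
  rw [key] at h5
  nlinarith

end Run7.h141
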