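import Pool.Agent.Run7.h141.Cover

/-! # The filling: the domain `W` in the affine surface `x² y + z² = 1` -/

open scoped ContDiff Topology
open Set

noncomputable section

namespace Run7.h141

/-- the ambient space of the filling -/
abbrev VV : Type := ℂ × ℂ × ℂ

def xr : VV →L[ℝ] ℝ := Complex.reCLM.comp (ContinuousLinearMap.fst ℝ ℂ (ℂ × ℂ))
def xi : VV →L[ℝ] ℝ := Complex.imCLM.comp (ContinuousLinearMap.fst ℝ ℂ (ℂ × ℂ))
def yr : VV →L[ℝ] ℝ := Complex.reCLM.comp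
  ((ContinuousLinearMap.fst ℝ ℂ ℂ).comp (ContinuousLinearMap.snd ℝ ℂ (ℂ × ℂ)))
def yi : VV →L[ℝ] ℝ := Complex.imCLM.comp
  ((ContinuousLinearMap.fst ℝ ℂ ℂ).comp (ContinuousLinearMap.snd ℝ ℂ (ℂ × ℂ)))
def zr : VV →L[ℝ] ℝ := Complex.reCLM.comp
  ((ContinuousLinearMap.snd ℝ ℂ ℂ).comp (ContinuousLinearMap.snd ℝ ℂ (ℂ × ℂ)))
def zi : VV →L[ℝ] ℝ := Complex.imCLM.comp
  ((ContinuousLinearMap.snd ℝ ℂ ℂ).comp (ContinuousLinearMap.snd ℝ ℂ (ℂ × ℂ)))

@[simp] lemma xr_apply (p : VV) : xr p = p.1.re := rfl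
@[simp] lemma xi_apply (p : VV) : xi p = p.1.im := rfl
@[simp] lemma yr_apply (p : VV) : yr p = p.2.1.re := rfl
@[simp] lemma yi_apply (p : VV) : yi p = p.2.1.im := rfl
@[simp] lemma zr_apply (p : VV) : zr p = p.2.2.re := rfl
@[simp] lemma zi_apply (p : VV) : zi p = p.2.2.im := rfl

/-- the function defining the surface -/
def ff (p : VV) : ℂ := p.1 ^ 2 * p.2.1 + p.2.2 ^ 2 - 1

/-- the function defining the domain -/
def rho (p : VV) : ℝ := (p.1.re ^ 2 + p.1.im ^ 2) ^ 2 +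
  ((p.2.1.re - p.1.re ^ 2 + p.1.im ^ 2) ^ 2 + (p.2.1.im + 2 * p.1.re * p.1.im) ^ 2) - 1

/-- the symplectic form -/
def Om0 : VV →L[ℝ] VV →L[ℝ] ℝ :=
  (5 : ℝ) • (xr.smulRight xi - xi.smulRight xr) + (yr.smulRight yi - yi.smulRight yr) +
    (zr.smulRight zi - zi.smulRight zr)

lemma Om0_apply (u v : VV) : Om0 u v =
    5 * (u.1.re * v.1.im - u.1.im * v.1.re) + (u.2.1.re * v.2.1.im - u.2.1.im * v.2.1.re) +
      (u.2.2.re * v.2.2.im - u.2.2.im * v.2.2.re) := by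
  simp [Om0]

lemma ff_smooth : ContDiff ℝ ∞ ff := by
  unfold ff; fun_prop

lemma rho_smooth : ContDiff ℝ ∞ rho := by
  have : rho = fun p => (xr p ^ 2 + xi p ^ 2) ^ 2 +
    ((yr p - xr p ^ 2 + xi p ^ 2) ^ 2 + (yi p + 2 * xr p * xi p) ^ 2) - 1 := rfl
  rw [this]; fun_prop

lemma fderiv_ff (p v : VV) : fderiv ℝ ff p v =
    2 * p.1 * p.2.1 * v.1 + p.1 ^ 2 * v.2.1 + 2 * p.2.2 * v.2.2 := by
  have a1 : HasFDerivAt (fun p : VV => p.1) (ContinuousLinearMap.fst ℝ ℂ (ℂ × ℂ)) p :=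
    hasFDerivAt_fst
  have a2 : HasFDerivAt (fun p : VV => p.2.1) ((ContinuousLinearMap.fst ℝ ℂ ℂ).comp
      (ContinuousLinearMap.snd ℝ ℂ (ℂ × ℂ))) p :=
    ((ContinuousLinearMap.fst ℝ ℂ ℂ).comp (ContinuousLinearMap.snd ℝ ℂ (ℂ × ℂ))).hasFDerivAt
  have a3 : HasFDerivAt (fun p : VV => p.2.2) ((ContinuousLinearMap.snd ℝ ℂ ℂ).comp
      (ContinuousLinearMap.snd ℝ ℂ (ℂ × ℂ))) p :=
    ((ContinuousLinearMap.snd ℝ ℂ ℂ).comp (ContinuousLinearMap.snd ℝ ℂ (ℂ × ℂ))).hasFDerivAt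
  have h := (((a1.pow 2).mul a2).add (a3.pow 2)).sub_const 1
  have h' : HasFDerivAt ff _ p := h
  rw [h'.fderiv]
  simp
  ring

lemma fderiv_rho (p v : VV) : fderiv ℝ rho p v =
    4 * (p.1.re ^ 2 + p.1.im ^ 2) * (p.1.re * v.1.re + p.1.im * v.1.im) +
    2 * (p.2.1.re - p.1.re ^ 2 + p.1.im ^ 2) * (v.2.1.re - 2 * p.1.re * v.1.re + 2 * p.1.im * v.1.im) +
    2 * (p.2.1.im + 2 * p.1.re * p.1.im) *
      (v.2.1.im + 2 * p.1.re * v.1.im + 2 * p.1.im * v.1.re) := by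
  have h0 : rho = fun p => (xr p ^ 2 + xi p ^ 2) ^ 2 +
    ((yr p - xr p ^ 2 + xi p ^ 2) ^ 2 + (yi p + 2 * xr p * xi p) ^ 2) - 1 := rfl
  have a1 : HasFDerivAt xr xr p := xr.hasFDerivAt
  have a2 : HasFDerivAt xi xi p := xi.hasFDerivAt
  have a3 : HasFDerivAt yr yr p := yr.hasFDerivAt
  have a4 : HasFDerivAt yi yi p := yi.hasFDerivAt
  have h1 := (((((a1.pow 2).add (a2.pow 2)).pow 2).add
    ((((a3.sub (a1.pow 2)).add (a2.pow 2)).pow 2).add
      ((a4.add ((a1.const_mul 2).mul a2)).pow 2))).sub_const 1)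
  rw [h0]
  erw [h1.fderiv]
  simp
  ring

lemma ff_regular (p : VV) (hp : ff p = 0) : Function.Surjective (fderiv ℝ ff p) := by
  intro r
  by_cases h : p.1 = 0
  · have hz : p.2.2 ≠ 0 := by
      intro hz; simp [ff, h, hz] at hp
    refine ⟨(0, 0, r / (2 * p.2.2)), ?_⟩
    rw [fderiv_ff]; simp only; field_simp; ring
  · refine ⟨(0, r / p.1 ^ 2, 0), ?_⟩
    rw [fderiv_ff]; simp only; field_simp; ring

lemma finrank_VV : Module.finrank ℝ VV = Module.finrank ℝ ℂ + 4 := by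
  rw [Module.finrank_prod, finrank_C2, Complex.finrank_real_complex]

lemma rho_eq (p : VV) : rho p = (‖p.1‖ ^ 2) ^ 2 + ‖p.2.1 - (starRingEnd ℂ) p.1 ^ 2‖ ^ 2 - 1 := by
  rw [← sq_add_sq, ← sq_add_sq, rho]
  have e1 : (p.2.1 - (starRingEnd ℂ) p.1 ^ 2).re = p.2.1.re - p.1.re ^ 2 + p.1.im ^ 2 := by
    simp [pow_two]; ring
  have e2 : (p.2.1 - (starRingEnd ℂ) p.1 ^ 2).im = p.2.1.im + 2 * p.1.re * p.1.im := by
    simp [pow_two]; ring
  rw [e1, e2]

lemma W_compact : IsCompact {p : VV | ff p = 0 ∧ rho p ≤ 0} := by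
  have hc : IsClosed {p : VV | ff p = 0 ∧ rho p ≤ 0} :=
    (isClosed_eq ff_smooth.continuous continuous_const).inter
      (isClosed_le rho_smooth.continuous continuous_const)
  refine Metric.isCompact_of_isClosed_isBounded hc ?_
  rw [isBounded_iff_forall_norm_le]
  refine ⟨3, fun p hp => ?_⟩
  obtain ⟨h1, h2⟩ := hp
  rw [rho_eq] at h2
  have n1 := norm_nonneg p.1
  have n2 := norm_nonneg (p.2.1 - (starRingEnd ℂ) p.1 ^ 2)
  have b1 : ‖p.1‖ ≤ 1 := by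
    by_contra hcon
    push Not at hcon
    have : 1 < ‖p.1‖ ^ 2 := by nlinarith
    nlinarith
  have b2 : ‖p.2.1 - (starRingEnd ℂ) p.1 ^ 2‖ ≤ 1 := by
    by_contra hcon
    push Not at hcon
    have : 0 ≤ (‖p.1‖ ^ 2) ^ 2 := by positivity
    nlinarith
  have b3 : ‖p.2.1‖ ≤ 2 := by
    have e : p.2.1 = (p.2.1 - (starRingEnd ℂ) p.1 ^ 2) + (starRingEnd ℂ) p.1 ^ 2 := by ring
    rw [e]
    refine (norm_add_le _ _).trans ?_
    rw [norm_pow, RCLike.norm_conj]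
    nlinarith
  have b4 : ‖p.2.2‖ ≤ 3 := by
    have e : p.2.2 ^ 2 = 1 - p.1 ^ 2 * p.2.1 := by
      have := h1; simp only [ff] at this; linear_combination this
    have e2 : ‖p.2.2‖ ^ 2 ≤ 3 := by
      rw [← norm_pow, e]
      refine (norm_sub_le _ _).trans ?_
      rw [norm_one, norm_mul, norm_pow]
      nlinarith [norm_nonneg p.2.1, mul_le_mul (pow_le_one₀ n1 b1 : ‖p.1‖ ^ 2 ≤ 1) b3
        (norm_nonneg _) (by norm_num : (0 : ℝ) ≤ 1)]
    nlinarith [norm_nonneg p.2.2]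
  rw [Prod.norm_def, Prod.norm_def]
  refine max_le (by linarith) (max_le (by linarith) b4)

/-- On the kernel of `df`, the differential of `rho`. -/
lemma fderiv_rho' {p v : VV} (h : fderiv ℝ ff p v = 0) : fderiv ℝ rho p v =
    (8 * (‖p.1‖ ^ 2 : ℝ) * ((starRingEnd ℂ) p.1 * v.1) + 2 * ((starRingEnd ℂ) p.2.1 * v.2.1) +
      4 * (p.2.2 * v.2.2)).re := by
  rw [fderiv_ff] at h
  have h1 := congrArg Complex.re h
  rw [fderiv_rho, ← sq_add_sq]
  simp [pow_two] at h1 ⊢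
  linear_combination (-2) * h1

lemma rho_regular (p : VV) (h1 : ff p = 0) (h2 : rho p = 0) :
    ∃ v, fderiv ℝ ff p v = 0 ∧ fderiv ℝ rho p v ≠ 0 := by
  by_contra hcon
  push Not at hcon
  obtain ⟨x, y, z⟩ := p
  have h1' : x ^ 2 * y + z ^ 2 - 1 = 0 := h1
  -- three families of tangent vectors
  have t1 : ∀ α : ℂ, (α * (x * (4 * (‖x‖ ^ 2 : ℝ) ^ 2 - 2 * (‖y‖ ^ 2 : ℝ)))).re = 0 := by
    intro α
    have hv : fderiv ℝ ff (x, y, z) (x ^ 2 * α, -(2 * x * y * α), 0) = 0 := by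
      rw [fderiv_ff]; simp only; ring
    have := hcon _ hv
    rw [fderiv_rho' hv] at this
    simp only at this
    have e1 : (starRingEnd ℂ) x * x = (‖x‖ ^ 2 : ℝ) := by
      rw [mul_comm, Complex.mul_conj, Complex.normSq_eq_norm_sq]
    have e2 : (starRingEnd ℂ) y * y = (‖y‖ ^ 2 : ℝ) := by
      rw [mul_comm, Complex.mul_conj, Complex.normSq_eq_norm_sq]
    have e3 : (8 * (‖x‖ ^ 2 : ℝ) * ((starRingEnd ℂ) x * (x ^ 2 * α)) +
        2 * ((starRingEnd ℂ) y * (-(2 * x * y * α))) + 4 * (z * 0)) =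
        ((2 : ℝ) : ℂ) * (α * (x * (4 * (‖x‖ ^ 2 : ℝ) ^ 2 - 2 * (‖y‖ ^ 2 : ℝ)))) := by
      push_cast at e1 e2 ⊢
      linear_combination (8 * (‖x‖ : ℂ) ^ 2 * x * α) * e1 - 4 * x * α * e2
    rw [e3, Complex.re_ofReal_mul] at this
    linarith
  have t2 : ∀ α : ℂ, (α * (z * (x * (2 * (starRingEnd ℂ) x ^ 2 - y)))).re = 0 := by
    intro α
    have hv : fderiv ℝ ff (x, y, z) (2 * z * α, 0, -(2 * x * y * α)) = 0 := by
      rw [fderiv_ff]; simp only; ring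
    have := hcon _ hv
    rw [fderiv_rho' hv] at this
    simp only at this
    have e1 : (starRingEnd ℂ) x * x = (‖x‖ ^ 2 : ℝ) := by
      rw [mul_comm, Complex.mul_conj, Complex.normSq_eq_norm_sq]
    have e3 : (8 * (‖x‖ ^ 2 : ℝ) * ((starRingEnd ℂ) x * (2 * z * α)) +
        2 * ((starRingEnd ℂ) y * 0) + 4 * (z * (-(2 * x * y * α)))) =
        ((8 : ℝ) : ℂ) * (α * (z * (x * (2 * (starRingEnd ℂ) x ^ 2 - y)))) := by
      push_cast at e1 ⊢
      linear_combination (-16 * z * α * (starRingEnd ℂ) x) * e1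
    rw [e3, Complex.re_ofReal_mul] at this
    linarith
  have t3 : ∀ α : ℂ, (α * (z * ((starRingEnd ℂ) y - x ^ 2))).re = 0 := by
    intro α
    have hv : fderiv ℝ ff (x, y, z) (0, 2 * z * α, -(x ^ 2 * α)) = 0 := by
      rw [fderiv_ff]; simp only; ring
    have := hcon _ hv
    rw [fderiv_rho' hv] at this
    simp only at this
    have e3 : (8 * (‖x‖ ^ 2 : ℝ) * ((starRingEnd ℂ) x * 0) +
        2 * ((starRingEnd ℂ) y * (2 * z * α)) + 4 * (z * (-(x ^ 2 * α)))) =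
        ((4 : ℝ) : ℂ) * (α * (z * ((starRingEnd ℂ) y - x ^ 2))) := by
      push_cast
      ring
    rw [e3, Complex.re_ofReal_mul] at this
    linarith
  have key : ∀ c : ℂ, (∀ α : ℂ, (α * c).re = 0) → c = 0 := by
    intro c hc
    have := hc ((starRingEnd ℂ) c)
    rw [mul_comm, Complex.mul_conj, Complex.ofReal_re] at this
    exact Complex.normSq_eq_zero.1 this
  have s1 := key _ t1
  have s2 := key _ t2
  have s3 := key _ t3
  rw [rho_eq] at h2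
  simp only at h2
  by_cases hz : z = 0
  · subst hz
    have hxy : x ^ 2 * y = 1 := by linear_combination h1'
    have hx : x ≠ 0 := by rintro rfl; simp at hxy
    have s1' := (mul_eq_zero.1 s1).resolve_left hx
    have s1'' : 4 * (‖x‖ ^ 2) ^ 2 - 2 * ‖y‖ ^ 2 = 0 := by exact_mod_cast s1'
    have hn : ‖x‖ ^ 2 * ‖y‖ = 1 := by rw [← norm_pow, ← norm_mul, hxy, norm_one]
    have hre : (x ^ 2 * y).re = 1 := by rw [hxy]; simp
    have hexp : ‖y - (starRingEnd ℂ) x ^ 2‖ ^ 2 = ‖y‖ ^ 2 + (‖x‖ ^ 2) ^ 2 - 2 * (x ^ 2 * y).re := by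
      rw [← sq_add_sq, ← sq_add_sq, ← sq_add_sq]; simp [pow_two]; ring
    rw [hexp, hre] at h2
    set t := ‖x‖ ^ 2 with ht
    have h8 : (t ^ 2) * (4 * t ^ 2) = 2 := by
      linear_combination (t ^ 2) * s1'' + 2 * (t * ‖y‖ + 1) * hn
    have h9 : 4 * t ^ 2 = 3 := by linarith
    nlinarith
  · have hy : (starRingEnd ℂ) y - x ^ 2 = 0 := (mul_eq_zero.1 s3).resolve_left hz
    have hy' : y = (starRingEnd ℂ) x ^ 2 := by
      have := congrArg (starRingEnd ℂ) hy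
      simp only [map_sub, Complex.conj_conj, map_pow, map_zero] at this
      linear_combination this
    have h5 := (mul_eq_zero.1 s2).resolve_left hz
    rw [hy'] at h5
    have hx : x = 0 := by
      rcases mul_eq_zero.1 h5 with h | h
      · exact h
      · have : (starRingEnd ℂ) x ^ 2 = 0 := by linear_combination h
        have := (pow_eq_zero_iff (by norm_num)).1 this
        simpa using this
    rw [hy', hx] at h2
    simp at h2

end Run7.h141
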