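import Pool.Agent.Run7.h141.Fill1

/-! # The filling: the parametrisation of the boundary -/

open scoped ContDiff Topology
open Set

noncomputable section

namespace Run7.h141

def fa (x : ℂ × ℂ) : ℂ := x.2 ^ 2 - x.1 ^ 2
def fb (x : ℂ × ℂ) : ℂ := x.2 ^ 2 + x.1 ^ 2
def fc (x : ℂ × ℂ) : ℂ := 2 * x.1 * x.2

/-- `|a|⁴ + |c|⁴` -/
def LL (x : ℂ × ℂ) : ℝ := ((fa x).re ^ 2 + (fa x).im ^ 2) ^ 2 + ((fc x).re ^ 2 + (fc x).im ^ 2) ^ 2

/-- the scaling factor `(|a|⁴ + |c|⁴)^(-1/4)` -/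
def mm (x : ℂ × ℂ) : ℝ := (√(√(LL x)))⁻¹

/-- the parametrisation of the boundary of the filling -/
def Phi (x : ℂ × ℂ) : VV :=
  ((mm x : ℂ) * fa x, (mm x : ℂ) ^ 2 * (starRingEnd ℂ) (fa x ^ 2 - fc x ^ 2),
    (mm x : ℂ) ^ 2 * ((starRingEnd ℂ) (fc x) * fb x))

lemma abc (x : ℂ × ℂ) : fb x ^ 2 = fa x ^ 2 + fc x ^ 2 := by
  simp only [fa, fb, fc]; ring

lemma LL_eq (x : ℂ × ℂ) : LL x = (‖fa x‖ ^ 2) ^ 2 + (‖fc x‖ ^ 2) ^ 2 := by
  rw [LL, sq_add_sq, sq_add_sq]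

lemma LL_pos {x : ℂ × ℂ} (hx : x ≠ 0) : 0 < LL x := by
  rw [LL_eq]
  by_cases hc : fc x = 0
  · have ha : fa x ≠ 0 := by
      intro ha
      simp only [fc, fa] at hc ha
      have h2 : (2 : ℂ) ≠ 0 := two_ne_zero
      rcases mul_eq_zero.1 hc with h | h
      · have h1 := (mul_eq_zero.1 h).resolve_left h2
        rw [h1] at ha
        have : x.2 = 0 := by simpa using ha
        exact hx (Prod.ext h1 this)
      · rw [h] at ha
        have : x.1 = 0 := by simpa using ha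
        exact hx (Prod.ext this h)
    have := norm_pos_iff.2 ha
    positivity
  · have := norm_pos_iff.2 hc
    positivity

lemma mm_pos {x : ℂ × ℂ} (hx : x ≠ 0) : 0 < mm x := by
  have := LL_pos hx
  unfold mm
  exact inv_pos.2 (Real.sqrt_pos.2 (Real.sqrt_pos.2 this))

lemma mm_pow {x : ℂ × ℂ} (hx : x ≠ 0) : mm x ^ 4 * LL x = 1 := by
  have h := LL_pos hx
  have h1 : √(√(LL x)) ^ 4 = LL x := by
    have e : √(√(LL x)) ^ 4 = (√(√(LL x)) ^ 2) ^ 2 := by ring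
    rw [e, Real.sq_sqrt (Real.sqrt_nonneg _), Real.sq_sqrt h.le]
  rw [mm, inv_pow, h1, inv_mul_cancel₀ h.ne']

lemma contDiff_fa : ContDiff ℝ ∞ fa := by unfold fa; fun_prop
lemma contDiff_fb : ContDiff ℝ ∞ fb := by unfold fb; fun_prop
lemma contDiff_fc : ContDiff ℝ ∞ fc := by unfold fc; fun_prop

lemma contDiff_LL : ContDiff ℝ ∞ LL := by
  unfold LL
  have a : ContDiff ℝ ∞ (fun x => (fa x).re) := Complex.reCLM.contDiff.comp contDiff_fa
  have b : ContDiff ℝ ∞ (fun x => (fa x).im) := Complex.imCLM.contDiff.comp contDiff_fa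
  have c : ContDiff ℝ ∞ (fun x => (fc x).re) := Complex.reCLM.contDiff.comp contDiff_fc
  have d : ContDiff ℝ ∞ (fun x => (fc x).im) := Complex.imCLM.contDiff.comp contDiff_fc
  exact (((a.pow 2).add (b.pow 2)).pow 2).add (((c.pow 2).add (d.pow 2)).pow 2)

lemma contDiffAt_mm {x : ℂ × ℂ} (hx : x ≠ 0) : ContDiffAt ℝ ∞ mm x := by
  have h := LL_pos hx
  have h1 : ContDiffAt ℝ ∞ (fun x => √(LL x)) x := contDiff_LL.contDiffAt.sqrt h.ne'
  have h2 : ContDiffAt ℝ ∞ (fun x => √(√(LL x))) x := h1.sqrt (Real.sqrt_pos.2 h).ne'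
  exact h2.inv (Real.sqrt_pos.2 (Real.sqrt_pos.2 h)).ne'

lemma contDiffAt_mmC {x : ℂ × ℂ} (hx : x ≠ 0) : ContDiffAt ℝ ∞ (fun x => (mm x : ℂ)) x :=
  Complex.ofRealCLM.contDiff.contDiffAt.comp x (contDiffAt_mm hx)

lemma contDiffAt_Phi {x : ℂ × ℂ} (hx : x ≠ 0) : ContDiffAt ℝ ∞ Phi x := by
  have h0 := contDiffAt_mmC hx
  have h1 : ContDiffAt ℝ ∞ (fun x => (starRingEnd ℂ) (fa x ^ 2 - fc x ^ 2)) x :=
    Complex.conjCLE.contDiff.contDiffAt.comp x
      ((contDiff_fa.pow 2).sub (contDiff_fc.pow 2)).contDiffAt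
  have h2 : ContDiffAt ℝ ∞ (fun x => (starRingEnd ℂ) (fc x)) x :=
    Complex.conjCLE.contDiff.contDiffAt.comp x contDiff_fc.contDiffAt
  exact (h0.mul contDiff_fa.contDiffAt).prodMk
    (((h0.pow 2).mul h1).prodMk ((h0.pow 2).mul (h2.mul contDiff_fb.contDiffAt)))

/-- the general computation: a point with `b² = a² + c²` and `m⁴ (|a|⁴ + |c|⁴) = 1` -/
lemma ff_Phi_aux {a b c : ℂ} {m : ℝ} (habc : b ^ 2 = a ^ 2 + c ^ 2)
    (hm : m ^ 4 * ((‖a‖ ^ 2) ^ 2 + (‖c‖ ^ 2) ^ 2) = 1) :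
    ff ((m : ℂ) * a, (m : ℂ) ^ 2 * (starRingEnd ℂ) (a ^ 2 - c ^ 2),
      (m : ℂ) ^ 2 * ((starRingEnd ℂ) c * b)) = 0 := by
  have e1 : (starRingEnd ℂ) a * a = ((‖a‖ ^ 2 : ℝ) : ℂ) := by
    rw [mul_comm, Complex.mul_conj, Complex.normSq_eq_norm_sq]
  have e2 : (starRingEnd ℂ) c * c = ((‖c‖ ^ 2 : ℝ) : ℂ) := by
    rw [mul_comm, Complex.mul_conj, Complex.normSq_eq_norm_sq]
  have hm' : (m : ℂ) ^ 4 * ((((starRingEnd ℂ) a * a)) ^ 2 + ((starRingEnd ℂ) c * c) ^ 2) = 1 := by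
    rw [e1, e2]; exact_mod_cast hm
  simp only [ff, map_sub, map_pow]
  linear_combination hm' + (m : ℂ) ^ 4 * (starRingEnd ℂ) c ^ 2 * habc

lemma rho_Phi_aux {a b c : ℂ} {m : ℝ}
    (hm : m ^ 4 * ((‖a‖ ^ 2) ^ 2 + (‖c‖ ^ 2) ^ 2) = 1) :
    rho ((m : ℂ) * a, (m : ℂ) ^ 2 * (starRingEnd ℂ) (a ^ 2 - c ^ 2),
      (m : ℂ) ^ 2 * ((starRingEnd ℂ) c * b)) = 0 := by
  rw [rho_eq]
  simp only
  have h : (m : ℂ) ^ 2 * (starRingEnd ℂ) (a ^ 2 - c ^ 2) - (starRingEnd ℂ) ((m : ℂ) * a) ^ 2 =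
      -((m : ℂ) ^ 2 * (starRingEnd ℂ) c ^ 2) := by
    simp only [map_sub, map_pow, map_mul, Complex.conj_ofReal]; ring
  rw [h, norm_neg, norm_mul, norm_mul, norm_pow, norm_pow, RCLike.norm_conj, Complex.norm_real,
    Real.norm_eq_abs]
  have h2 : |m| ^ 2 = m ^ 2 := sq_abs m
  rw [mul_pow, h2]
  linear_combination hm

lemma ff_Phi {x : ℂ × ℂ} (hx : x ≠ 0) : ff (Phi x) = 0 :=
  ff_Phi_aux (abc x) (by rw [← LL_eq]; exact mm_pow hx)

lemma rho_Phi {x : ℂ × ℂ} (hx : x ≠ 0) : rho (Phi x) = 0 :=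
  rho_Phi_aux (by rw [← LL_eq]; exact mm_pow hx)

lemma exists_sq (z : ℂ) : ∃ w : ℂ, w ^ 2 = z := IsAlgClosed.exists_pow_nat_eq z (by norm_num)

/-- the square roots -/
lemma exists_abc {a b c : ℂ} (h : b ^ 2 = a ^ 2 + c ^ 2) :
    ∃ x : ℂ × ℂ, fa x = a ∧ fb x = b ∧ fc x = c := by
  obtain ⟨w, hw⟩ := exists_sq ((a + b) / 2)
  obtain ⟨ζ, hζ⟩ := exists_sq ((b - a) / 2)
  have h1 : (2 * ζ * w) ^ 2 = c ^ 2 := by
    rw [mul_pow, mul_pow, hw, hζ]; linear_combination h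
  rcases sq_eq_sq_iff_eq_or_eq_neg.1 h1 with h2 | h2
  · refine ⟨(ζ, w), ?_, ?_, ?_⟩
    · simp only [fa]; rw [hw, hζ]; ring
    · simp only [fb]; rw [hw, hζ]; ring
    · exact h2
  · refine ⟨(-ζ, w), ?_, ?_, ?_⟩
    · simp only [fa, neg_sq]; rw [hw, hζ]; ring
    · simp only [fb, neg_sq]; rw [hw, hζ]; ring
    · simp only [fc]; linear_combination (-1) * h2

lemma fa_smul (r : ℝ) (x : ℂ × ℂ) : fa (r • x) = (r : ℂ) ^ 2 * fa x := by
  simp [fa]; ring
lemma fb_smul (r : ℝ) (x : ℂ × ℂ) : fb (r • x) = (r : ℂ) ^ 2 * fb x := by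
  simp [fb]; ring
lemma fc_smul (r : ℝ) (x : ℂ × ℂ) : fc (r • x) = (r : ℂ) ^ 2 * fc x := by
  simp [fc]; ring

lemma mm_unique {x : ℂ × ℂ} (hx : x ≠ 0) {m : ℝ} (h0 : 0 < m) (h : m ^ 4 * LL x = 1) :
    mm x = m := by
  have h1 := mm_pow hx
  have h2 := LL_pos hx
  have h3 : mm x ^ 4 = m ^ 4 := mul_right_cancel₀ h2.ne' (h1.trans h.symm)
  exact (pow_left_inj₀ (mm_pos hx).le h0.le (by norm_num)).1 h3

lemma boundary_iff (p : VV) : (ff p = 0 ∧ rho p = 0) ↔ ∃ x : ℂ × ℂ, F0 x = 0 ∧ Phi x = p := by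
  constructor
  · rintro ⟨h1, h2⟩
    obtain ⟨X, Y, Z⟩ := p
    have h1' : X ^ 2 * Y + Z ^ 2 - 1 = 0 := h1
    rw [rho_eq] at h2
    simp only at h2
    obtain ⟨d, hd⟩ := exists_sq ((starRingEnd ℂ) X ^ 2 - Y)
    -- c = conj d
    have hdn : ‖Y - (starRingEnd ℂ) X ^ 2‖ = ‖d‖ ^ 2 := by
      rw [← norm_pow, hd, norm_sub_rev]
    rw [hdn] at h2
    have hdn' : (starRingEnd ℂ) d * d = ((‖d‖ ^ 2 : ℝ) : ℂ) := by
      rw [mul_comm, Complex.mul_conj, Complex.normSq_eq_norm_sq]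
    have hXn' : (starRingEnd ℂ) X * X = ((‖X‖ ^ 2 : ℝ) : ℂ) := by
      rw [mul_comm, Complex.mul_conj, Complex.normSq_eq_norm_sq]
    have h2' : (((‖X‖ ^ 2 : ℝ) : ℂ)) ^ 2 + (((‖d‖ ^ 2 : ℝ) : ℂ)) ^ 2 - 1 = 0 := by
      exact_mod_cast h2
    rw [← hdn', ← hXn'] at h2'
    obtain ⟨b, hb, hZ⟩ : ∃ b : ℂ, b ^ 2 = X ^ 2 + (starRingEnd ℂ) d ^ 2 ∧ Z = d * b := by
      by_cases hd0 : d = 0
      · refine ⟨X, by simp [hd0], ?_⟩
        have hY : Y = (starRingEnd ℂ) X ^ 2 := by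
          rw [hd0] at hd; linear_combination hd
        rw [hd0] at h2'
        simp only [map_zero, mul_zero] at h2'
        have : Z ^ 2 = 0 := by
          rw [hY] at h1'
          linear_combination h1' - h2'
        rw [hd0, zero_mul]
        exact (pow_eq_zero_iff (by norm_num)).1 this
      · refine ⟨Z / d, ?_, by field_simp⟩
        have hd2 : d ^ 2 ≠ 0 := pow_ne_zero _ hd0
        rw [div_pow, div_eq_iff hd2]
        linear_combination h1' - h2' - X ^ 2 * hd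
    obtain ⟨x, ha, hb', hc⟩ := exists_abc hb
    have hx0 : x ≠ 0 := by
      rintro rfl
      simp only [fa, fc, Prod.fst_zero, Prod.snd_zero] at ha hc
      have e1 : X = 0 := by rw [← ha]; simp
      have e2 : d = 0 := by
        have : (starRingEnd ℂ) d = 0 := by rw [← hc]; simp
        simpa using this
      rw [e1, e2] at h2'
      simp at h2'
    have hL : LL x = 1 := by
      rw [LL_eq, ha, hc, RCLike.norm_conj]; linarith
    have hN := NN_pos hx0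
    set r : ℝ := (√(NN x))⁻¹ with hr
    have hr0 : 0 < r := inv_pos.2 (Real.sqrt_pos.2 hN)
    have hr2 : r ^ 2 * NN x = 1 := by
      rw [hr, inv_pow, Real.sq_sqrt hN.le, inv_mul_cancel₀ hN.ne']
    have hx0' : r • x ≠ 0 := smul_ne_zero hr0.ne' hx0
    have hm : mm (r • x) = NN x := by
      apply mm_unique hx0' hN
      rw [LL_eq, fa_smul, fc_smul, norm_mul, norm_mul, norm_pow, Complex.norm_real,
        Real.norm_of_nonneg hr0.le]
      rw [LL_eq] at hL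
      have : NN x ^ 4 * (((r ^ 2 * ‖fa x‖) ^ 2) ^ 2 + ((r ^ 2 * ‖fc x‖) ^ 2) ^ 2) =
        (r ^ 2 * NN x) ^ 4 * ((‖fa x‖ ^ 2) ^ 2 + (‖fc x‖ ^ 2) ^ 2) := by ring
      rw [this, hr2, hL]; norm_num
    refine ⟨r • x, ?_, ?_⟩
    · rw [F0_eq_NN, NN_smul, hr2, sub_self]
    · have hr2' : (NN x : ℂ) * (r : ℂ) ^ 2 = 1 := by
        have : NN x * r ^ 2 = 1 := by rw [mul_comm]; exact hr2
        exact_mod_cast this
      simp only [Phi]
      rw [hm, fa_smul, fb_smul, fc_smul, ha, hb', hc]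
      have q1 : (NN x : ℂ) * ((r : ℂ) ^ 2 * X) = X := by
        rw [← mul_assoc, hr2', one_mul]
      refine Prod.ext q1 (Prod.ext ?_ ?_)
      · simp only [map_sub, map_mul, map_pow, Complex.conj_ofReal, Complex.conj_conj]
        have q2 : (starRingEnd ℂ) X ^ 2 - d ^ 2 = Y := by rw [hd]; ring
        rw [← q2]
        linear_combination ((starRingEnd ℂ) X ^ 2 - d ^ 2) * ((NN x : ℂ) * (r : ℂ) ^ 2 + 1) * hr2'
      · simp only [map_mul, map_pow, Complex.conj_ofReal, Complex.conj_conj]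
        rw [hZ]
        linear_combination (d * b) * ((NN x : ℂ) * (r : ℂ) ^ 2 + 1) * hr2'
  · rintro ⟨x, hx, rfl⟩
    exact ⟨ff_Phi (ne_zero_of_F0 hx), rho_Phi (ne_zero_of_F0 hx)⟩

lemma abc_neg (x : ℂ × ℂ) : fa (-x) = fa x ∧ fb (-x) = fb x ∧ fc (-x) = fc x := by
  simp [fa, fb, fc]

lemma abc_iota (x : ℂ × ℂ) : fa (iotaE x) = fa x ∧ fb (iotaE x) = -fb x ∧ fc (iotaE x) = -fc x := by
  simp only [fa, fb, fc, iotaE_apply]
  have h := Complex.I_sq
  refine ⟨?_, ?_, ?_⟩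
  · linear_combination (x.1 ^ 2 - x.2 ^ 2) * h
  · linear_combination (x.1 ^ 2 + x.2 ^ 2) * h
  · linear_combination (2 * x.1 * x.2) * h

lemma Phi_congr {x y : ℂ × ℂ} (ha : fa y = fa x)
    (h : (fb y = fb x ∧ fc y = fc x) ∨ (fb y = -fb x ∧ fc y = -fc x)) : Phi y = Phi x := by
  have hm : mm y = mm x := by
    have : LL y = LL x := by
      rw [LL_eq, LL_eq, ha]
      rcases h with ⟨-, h⟩ | ⟨-, h⟩
      · rw [h]
      · rw [h, norm_neg]
    rw [mm, mm, this]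
  simp only [Phi]
  rcases h with ⟨hb, hc⟩ | ⟨hb, hc⟩
  · rw [hm, ha, hb, hc]
  · rw [hm, ha, hb, hc, neg_sq, map_neg, neg_mul_neg]

lemma abc_inj {x y : ℂ × ℂ} (ha : fa x = fa y) (hb : fb x = fb y) (hc : fc x = fc y) :
    y = x ∨ y = -x := by
  simp only [fa, fb, fc] at ha hb hc
  have h2 : x.2 ^ 2 = y.2 ^ 2 := by linear_combination (ha + hb) / 2
  have h1 : x.1 ^ 2 = y.1 ^ 2 := by linear_combination (hb - ha) / 2
  have h12 : x.1 * x.2 = y.1 * y.2 := by linear_combination hc / 2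
  rcases sq_eq_sq_iff_eq_or_eq_neg.1 h1 with e1 | e1 <;>
  rcases sq_eq_sq_iff_eq_or_eq_neg.1 h2 with e2 | e2
  · left; exact Prod.ext e1.symm e2.symm
  · rw [e1, e2] at h12
    have : y.1 * y.2 = 0 := by linear_combination (-1 / 2) * h12
    rcases mul_eq_zero.1 this with h | h
    · right; refine Prod.ext ?_ ?_
      · rw [Prod.fst_neg, e1, h, neg_zero]
      · rw [Prod.snd_neg, e2, neg_neg]
    · left; refine Prod.ext e1.symm ?_
      rw [e2, h, neg_zero]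
  · rw [e1, e2] at h12
    have : y.1 * y.2 = 0 := by linear_combination (-1 / 2) * h12
    rcases mul_eq_zero.1 this with h | h
    · left; refine Prod.ext ?_ e2.symm
      rw [e1, h, neg_zero]
    · right; refine Prod.ext ?_ ?_
      · rw [Prod.fst_neg, e1, neg_neg]
      · rw [Prod.snd_neg, e2, h, neg_zero]
  · right; refine Prod.ext ?_ ?_
    · rw [Prod.fst_neg, e1, neg_neg]
    · rw [Prod.snd_neg, e2, neg_neg]

/-- the sum of the squares of the moduli -/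
lemma abc_norm (x : ℂ × ℂ) : ‖fa x‖ ^ 2 + ‖fb x‖ ^ 2 + ‖fc x‖ ^ 2 = 2 * NN x ^ 2 := by
  rw [← sq_add_sq, ← sq_add_sq, ← sq_add_sq]
  simp [fa, fb, fc, NN, pow_two]
  ring

lemma Phi_same {x y : ℂ × ℂ} (hx : F0 x = 0) (hy : F0 y = 0) : Phi x = Phi y ↔ Y1.Same x y := by
  constructor
  · intro h
    have hx0 := ne_zero_of_F0 hx
    have hy0 := ne_zero_of_F0 hy
    have hNx := NN_eq_one hx
    have hNy := NN_eq_one hy
    have m0 := mm_pos hx0
    have n0 := mm_pos hy0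
    have h1 := congrArg Prod.fst h
    have h2 := congrArg (fun p => p.2.1) h
    have h3 := congrArg (fun p => p.2.2) h
    simp only [Phi] at h1 h2 h3
    set m := mm x with hm
    set n := mm y with hn
    have m0' : (m : ℂ) ≠ 0 := by exact_mod_cast m0.ne'
    have n0' : (n : ℂ) ≠ 0 := by exact_mod_cast n0.ne'
    have hc : ((m : ℂ) * fc x) ^ 2 = ((n : ℂ) * fc y) ^ 2 := by
      have h4 := congrArg (starRingEnd ℂ) h2
      simp only [map_mul, map_pow, Complex.conj_ofReal, Complex.conj_conj] at h4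
      linear_combination ((m : ℂ) * fa x + (n : ℂ) * fa y) * h1 - h4
    have hb : ((m : ℂ) * fb x) ^ 2 = ((n : ℂ) * fb y) ^ 2 := by
      linear_combination hc + ((m : ℂ) * fa x + (n : ℂ) * fa y) * h1 + (m : ℂ) ^ 2 * abc x -
        (n : ℂ) ^ 2 * abc y
    have h3' : (starRingEnd ℂ) ((m : ℂ) * fc x) * ((m : ℂ) * fb x) =
        (starRingEnd ℂ) ((n : ℂ) * fc y) * ((n : ℂ) * fb y) := by
      simp only [map_mul, Complex.conj_ofReal]
      linear_combination h3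
    -- the signs agree
    have hsign : ((m : ℂ) * fb x = (n : ℂ) * fb y ∧ (m : ℂ) * fc x = (n : ℂ) * fc y) ∨
        ((m : ℂ) * fb x = -((n : ℂ) * fb y) ∧ (m : ℂ) * fc x = -((n : ℂ) * fc y)) := by
      rcases sq_eq_sq_iff_eq_or_eq_neg.1 hc with ec | ec
      · by_cases hc0 : (n : ℂ) * fc y = 0
        · rw [hc0] at ec ⊢
          rw [neg_zero]
          rcases sq_eq_sq_iff_eq_or_eq_neg.1 hb with eb | eb
          · left; exact ⟨eb, ec⟩
          · right; exact ⟨eb, ec⟩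
        · left
          refine ⟨?_, ec⟩
          rw [ec] at h3'
          exact mul_left_cancel₀ ((map_ne_zero _).2 hc0) h3'
      · by_cases hc0 : (n : ℂ) * fc y = 0
        · rw [hc0, neg_zero] at ec
          rw [hc0, neg_zero]
          rcases sq_eq_sq_iff_eq_or_eq_neg.1 hb with eb | eb
          · left; exact ⟨eb, ec⟩
          · right; exact ⟨eb, ec⟩
        · right
          refine ⟨?_, ec⟩
          rw [ec, map_neg, neg_mul] at h3'
          have h5 : (starRingEnd ℂ) ((n : ℂ) * fc y) * -((m : ℂ) * fb x) =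
              (starRingEnd ℂ) ((n : ℂ) * fc y) * ((n : ℂ) * fb y) := by
            rw [mul_neg]; exact h3'
          have h6 := mul_left_cancel₀ ((map_ne_zero _).2 hc0) h5
          rw [← h6, neg_neg]
    -- the scaling factors agree
    have hmn : m = n := by
      have na : m * ‖fa x‖ = n * ‖fa y‖ := by
        have := congrArg (fun z => ‖z‖) h1
        simpa [norm_mul, abs_of_pos m0, abs_of_pos n0] using this
      have nb : m * ‖fb x‖ = n * ‖fb y‖ := by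
        have : ‖(m : ℂ) * fb x‖ = ‖(n : ℂ) * fb y‖ := by
          rcases hsign with ⟨e, -⟩ | ⟨e, -⟩
          · rw [e]
          · rw [e, norm_neg]
        simpa [norm_mul, abs_of_pos m0, abs_of_pos n0] using this
      have nc : m * ‖fc x‖ = n * ‖fc y‖ := by
        have : ‖(m : ℂ) * fc x‖ = ‖(n : ℂ) * fc y‖ := by
          rcases hsign with ⟨-, e⟩ | ⟨-, e⟩
          · rw [e]
          · rw [e, norm_neg]
        simpa [norm_mul, abs_of_pos m0, abs_of_pos n0] using this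
      have sx := abc_norm x
      have sy := abc_norm y
      rw [hNx] at sx
      rw [hNy] at sy
      have : m ^ 2 = n ^ 2 := by
        have e1 : (m * ‖fa x‖) ^ 2 + (m * ‖fb x‖) ^ 2 + (m * ‖fc x‖) ^ 2 =
          (n * ‖fa y‖) ^ 2 + (n * ‖fb y‖) ^ 2 + (n * ‖fc y‖) ^ 2 := by rw [na, nb, nc]
        linear_combination (1 / 2) * e1 - (m ^ 2 / 2) * sx + (n ^ 2 / 2) * sy
      exact (sq_eq_sq₀ m0.le n0.le).1 this
    rw [← hmn] at h1 hsign
    have ea := mul_left_cancel₀ m0' h1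
    rcases hsign with ⟨eb, ec⟩ | ⟨eb, ec⟩
    · have eb' := mul_left_cancel₀ m0' eb
      have ec' := mul_left_cancel₀ m0' ec
      rw [same1]
      rcases abc_inj ea eb' ec' with h | h
      · left; exact h
      · right; right; left; exact h
    · rw [← mul_neg] at eb ec
      have eb' := mul_left_cancel₀ m0' eb
      have ec' := mul_left_cancel₀ m0' ec
      obtain ⟨i1, i2, i3⟩ := abc_iota x
      rw [same1]
      rcases abc_inj (x := iotaE x) (y := y) (by rw [i1, ea]) (by rw [i2, eb', neg_neg])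
        (by rw [i3, ec', neg_neg]) with h | h
      · right; left; exact h
      · right; right; right; exact h
  · intro h
    obtain ⟨i1, i2, i3⟩ := abc_iota x
    obtain ⟨n1, n2, n3⟩ := abc_neg x
    obtain ⟨k1, k2, k3⟩ := abc_neg (iotaE x)
    rcases same1.1 h with rfl | rfl | rfl | rfl
    · rfl
    · exact (Phi_congr i1 (Or.inr ⟨i2, i3⟩)).symm
    · exact (Phi_congr n1 (Or.inl ⟨n2, n3⟩)).symm
    · exact (Phi_congr (k1.trans i1) (Or.inr ⟨k2.trans i2, k3.trans i3⟩)).symm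

end Run7.h141
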