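import Pool.Agent.Run7.h141.Fill2

/-! # The filling: the differential of the parametrisation -/

open scoped ContDiff Topology
open Set

noncomputable section

namespace Run7.h141

def dfa (x v : ℂ × ℂ) : ℂ := 2 * x.2 * v.2 - 2 * x.1 * v.1
def dfb (x v : ℂ × ℂ) : ℂ := 2 * x.2 * v.2 + 2 * x.1 * v.1
def dfc (x v : ℂ × ℂ) : ℂ := 2 * (v.1 * x.2 + x.1 * v.2)

/-- derivative of `LL` -/
def dLL (x v : ℂ × ℂ) : ℝ :=
  4 * ((fa x).re ^ 2 + (fa x).im ^ 2) * ((fa x).re * (dfa x v).re + (fa x).im * (dfa x v).im) +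
  4 * ((fc x).re ^ 2 + (fc x).im ^ 2) * ((fc x).re * (dfc x v).re + (fc x).im * (dfc x v).im)

lemma hasFDerivAt_abc (x : ℂ × ℂ) :
    (∃ A : ℂ × ℂ →L[ℝ] ℂ, HasFDerivAt fa A x ∧ ∀ v, A v = dfa x v) ∧
    (∃ A : ℂ × ℂ →L[ℝ] ℂ, HasFDerivAt fb A x ∧ ∀ v, A v = dfb x v) ∧
    (∃ A : ℂ × ℂ →L[ℝ] ℂ, HasFDerivAt fc A x ∧ ∀ v, A v = dfc x v) := by
  have a1 : HasFDerivAt (fun x : ℂ × ℂ => x.1) (ContinuousLinearMap.fst ℝ ℂ ℂ) x :=
    hasFDerivAt_fst
  have a2 : HasFDerivAt (fun x : ℂ × ℂ => x.2) (ContinuousLinearMap.snd ℝ ℂ ℂ) x :=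
    hasFDerivAt_snd
  refine ⟨⟨_, (a2.pow 2).sub (a1.pow 2), fun v => ?_⟩, ⟨_, (a2.pow 2).add (a1.pow 2), fun v => ?_⟩,
    ⟨_, (a1.const_mul 2).mul a2, fun v => ?_⟩⟩
  · simp [dfa]
  · simp [dfb]
  · simp [dfc]; ring

lemma hasFDerivAt_LL (x : ℂ × ℂ) :
    ∃ A : ℂ × ℂ →L[ℝ] ℝ, HasFDerivAt LL A x ∧ ∀ v, A v = dLL x v := by
  obtain ⟨⟨A, hA, eA⟩, -, ⟨C, hC, eC⟩⟩ := hasFDerivAt_abc x
  have r1 : HasFDerivAt (fun x => (fa x).re) (Complex.reCLM.comp A) x :=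
    Complex.reCLM.hasFDerivAt.comp x hA
  have r2 : HasFDerivAt (fun x => (fa x).im) (Complex.imCLM.comp A) x :=
    Complex.imCLM.hasFDerivAt.comp x hA
  have r3 : HasFDerivAt (fun x => (fc x).re) (Complex.reCLM.comp C) x :=
    Complex.reCLM.hasFDerivAt.comp x hC
  have r4 : HasFDerivAt (fun x => (fc x).im) (Complex.imCLM.comp C) x :=
    Complex.imCLM.hasFDerivAt.comp x hC
  refine ⟨_, (((r1.pow 2).add (r2.pow 2)).pow 2).add (((r3.pow 2).add (r4.pow 2)).pow 2),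
    fun v => ?_⟩
  simp [eA, eC, dLL]
  ring

lemma hasFDerivAt_mm {x : ℂ × ℂ} (hx : x ≠ 0) :
    ∃ A : ℂ × ℂ →L[ℝ] ℝ, HasFDerivAt mm A x ∧ ∀ v, 4 * LL x * A v = -(mm x * dLL x v) := by
  have h1 : HasFDerivAt mm (fderiv ℝ mm x) x :=
    ((contDiffAt_mm hx).differentiableAt (by simp)).hasFDerivAt
  refine ⟨_, h1, fun v => ?_⟩
  obtain ⟨B, hB, eB⟩ := hasFDerivAt_LL x
  have h2 := (h1.pow 4).mul hB
  have h3 : (fun y => mm y ^ 4 * LL y) =ᶠ[𝓝 x] fun _ => (1 : ℝ) := by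
    filter_upwards [isOpen_compl_singleton.mem_nhds hx] with y hy
    exact mm_pow hy
  have h4 := (hasFDerivAt_const (𝕜 := ℝ) (1 : ℝ) x).congr_of_eventuallyEq h3
  have h5 := congrArg (fun M => M v) (h2.unique h4)
  simp at h5
  rw [eB] at h5
  have hm := mm_pos hx
  have h6 : mm x ^ 3 * (4 * LL x * fderiv ℝ mm x v + mm x * dLL x v) = 0 := by
    linear_combination h5
  rcases mul_eq_zero.1 h6 with h | h
  · exact absurd h (pow_pos hm 3).ne'
  · linarith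

/-- the differential of `Phi`, in terms of the logarithmic derivative of `mm` -/
lemma fderiv_Phi {x : ℂ × ℂ} (hx : x ≠ 0) : ∃ μ : ℂ × ℂ →L[ℝ] ℝ,
    (∀ v, 4 * LL x * μ v = -(mm x * dLL x v)) ∧
    ∀ v, fderiv ℝ Phi x v = ((mm x : ℂ) * dfa x v + (μ v : ℂ) * fa x,
      (mm x : ℂ) ^ 2 * (starRingEnd ℂ) (2 * fa x * dfa x v - 2 * fc x * dfc x v) +
        2 * (mm x : ℂ) * (μ v : ℂ) * (starRingEnd ℂ) (fa x ^ 2 - fc x ^ 2),
      (mm x : ℂ) ^ 2 * ((starRingEnd ℂ) (dfc x v) * fb x + (starRingEnd ℂ) (fc x) * dfb x v) +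
        2 * (mm x : ℂ) * (μ v : ℂ) * ((starRingEnd ℂ) (fc x) * fb x)) := by
  obtain ⟨μ, hμ, eμ⟩ := hasFDerivAt_mm hx
  refine ⟨μ, eμ, fun v => ?_⟩
  obtain ⟨⟨A, hA, eA⟩, ⟨B, hB, eB⟩, ⟨C, hC, eC⟩⟩ := hasFDerivAt_abc x
  have hm : HasFDerivAt (fun x => (mm x : ℂ)) (Complex.ofRealCLM.comp μ) x :=
    Complex.ofRealCLM.hasFDerivAt.comp x hμ
  have hC' : HasFDerivAt (fun x => (starRingEnd ℂ) (fc x))
      ((Complex.conjCLE : ℂ →L[ℝ] ℂ).comp C) x :=
    (Complex.conjCLE : ℂ →L[ℝ] ℂ).hasFDerivAt.comp x hC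
  have hq := (Complex.conjCLE : ℂ →L[ℝ] ℂ).hasFDerivAt.comp x ((hA.pow 2).sub (hC.pow 2))
  have h3 : HasFDerivAt Phi _ x :=
    (hm.mul hA).prodMk (((hm.pow 2).mul hq).prodMk ((hm.pow 2).mul (hC'.mul hB)))
  rw [h3.fderiv]
  refine Prod.ext ?_ (Prod.ext ?_ ?_)
  · simp [eA]; ring
  · simp [eA, eC]; ring
  · simp [eB, eC]; ring

lemma dabc (x v : ℂ × ℂ) : fb x * dfb x v = fa x * dfa x v + fc x * dfc x v := by
  simp only [fa, fb, fc, dfa, dfb, dfc]; ring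

lemma Phi_immersion {x v : ℂ × ℂ} (hF : F0 x = 0) (hv : fderiv ℝ F0 x v = 0)
    (h : fderiv ℝ Phi x v = 0) : v = 0 := by
  have hx := ne_zero_of_F0 hF
  obtain ⟨μ, -, e⟩ := fderiv_Phi hx
  rw [e] at h
  have h1 := congrArg Prod.fst h
  have h2 := congrArg (fun p => p.2.1) h
  have h3 := congrArg (fun p => p.2.2) h
  simp only [Prod.fst_zero, Prod.snd_zero] at h1 h2 h3
  have m0 := mm_pos hx
  have m0' : (mm x : ℂ) ≠ 0 := by exact_mod_cast m0.ne'
  obtain ⟨l, hl⟩ : ∃ l : ℝ, μ v = -(mm x * l) := ⟨-(μ v) / mm x, by field_simp⟩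
  rw [hl] at h1 h2 h3
  push_cast at h1 h2 h3
  set a := fa x with ha
  set b := fb x with hb
  set c := fc x with hc
  set da := dfa x v with hda
  set db := dfb x v with hdb
  set dc := dfc x v with hdc
  have ea : da = l * a := by
    apply mul_left_cancel₀ m0'; linear_combination h1
  have ec : c * (dc - l * c) = 0 := by
    have h4 := congrArg (starRingEnd ℂ) h2
    simp only [map_add, map_mul, map_neg, map_pow, map_sub, Complex.conj_ofReal, Complex.conj_conj,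
      map_zero, map_ofNat] at h4
    have h5 : (mm x : ℂ) ^ 2 * (c * (dc - l * c)) = 0 := by
      linear_combination (-1 / 2) * h4 + (mm x : ℂ) ^ 2 * a * ea
    exact (mul_eq_zero.1 h5).resolve_left (pow_ne_zero _ m0')
  have eb : b * (db - l * b) = 0 := by
    linear_combination dabc x v + a * ea + ec - (l : ℂ) * abc x
  have e3 : (starRingEnd ℂ) dc * b + (starRingEnd ℂ) c * db = 2 * l * ((starRingEnd ℂ) c * b) := by
    apply mul_left_cancel₀ (pow_ne_zero 2 m0')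
    linear_combination h3
  have hboth : dc = l * c ∧ db = l * b := by
    by_cases hc0 : c = 0
    · have hb0 : b ≠ 0 := by
        intro hb0
        have hLp := LL_pos hx
        have e1 := abc x
        rw [← ha, ← hb, ← hc, hb0, hc0] at e1
        have ha0 : a = 0 := by
          have : a ^ 2 = 0 := by linear_combination (-1) * e1
          exact (pow_eq_zero_iff (by norm_num)).1 this
        rw [LL_eq, ← ha, ← hc, ha0, hc0] at hLp
        simp at hLp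
      rw [hc0] at e3
      simp only [map_zero, zero_mul, mul_zero, add_zero] at e3
      have h7 := (mul_eq_zero.1 e3).resolve_right hb0
      have h8 : dc = 0 := by simpa using h7
      refine ⟨by rw [h8, hc0, mul_zero], ?_⟩
      have := (mul_eq_zero.1 eb).resolve_left hb0
      linear_combination this
    · have h7 := (mul_eq_zero.1 ec).resolve_left hc0
      have h8 : dc = l * c := by linear_combination h7
      refine ⟨h8, ?_⟩
      have hc1 : (starRingEnd ℂ) c ≠ 0 := (map_ne_zero _).2 hc0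
      apply mul_left_cancel₀ hc1
      rw [h8, map_mul, Complex.conj_ofReal] at e3
      linear_combination e3
  obtain ⟨ec', eb'⟩ := hboth
  -- subtract the radial part
  set v1 := v.1 - (l / 2 : ℂ) * x.1 with hv1
  set v2 := v.2 - (l / 2 : ℂ) * x.2 with hv2
  have q2 : x.2 * v2 = 0 := by
    simp only [hda, hdb, dfa, dfb, ha, hb, fa, fb] at ea eb'
    rw [hv2]; linear_combination (1 / 4) * ea + (1 / 4) * eb'
  have q1 : x.1 * v1 = 0 := by
    simp only [hda, hdb, dfa, dfb, ha, hb, fa, fb] at ea eb'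
    rw [hv1]; linear_combination (-1 / 4) * ea + (1 / 4) * eb'
  have q3 : v1 * x.2 + x.1 * v2 = 0 := by
    simp only [hdc, dfc, hc, fc] at ec'
    rw [hv1, hv2]; linear_combination (1 / 2) * ec'
  have hz : v1 = 0 ∧ v2 = 0 := by
    by_cases h : x.1 = 0
    · have h2 : x.2 ≠ 0 := fun h' => hx (Prod.ext h h')
      have k2 := (mul_eq_zero.1 q2).resolve_left h2
      rw [k2, mul_zero, add_zero] at q3
      exact ⟨(mul_eq_zero.1 q3).resolve_right h2, k2⟩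
    · have k1 := (mul_eq_zero.1 q1).resolve_left h
      rw [k1, zero_mul, zero_add] at q3
      exact ⟨k1, (mul_eq_zero.1 q3).resolve_left h⟩
  obtain ⟨z1, z2⟩ := hz
  have w1 : v.1 = ((l / 2 : ℝ) : ℂ) * x.1 := by push_cast; linear_combination z1
  have w2 : v.2 = ((l / 2 : ℝ) : ℂ) * x.2 := by push_cast; linear_combination z2
  have hN := NN_eq_one hF
  simp only [NN] at hN
  rw [fderiv_F0, w1, w2] at hv
  simp only [Complex.re_ofReal_mul, Complex.im_ofReal_mul] at hv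
  have ht : l / 2 = 0 := by linear_combination (1 / 2) * hv - (l / 2) * hN
  rw [ht] at w1 w2
  ext1
  · rw [w1]; simp
  · rw [w2]; simp

end Run7.h141
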