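import Pool.Agent.Run7.h141.Fill3
import Pool.Agent.Run7.h141.Alg

/-! # The filling: the frame of the boundary -/

open scoped ContDiff Topology
open Set

noncomputable section

namespace Run7.h141

/-- twice the real part of `conj x₁ x₂` -/
def ka (x : ℂ × ℂ) : ℝ := 2 * (x.1.re * x.2.re + x.1.im * x.2.im)
/-- twice the imaginary part of `conj x₁ x₂` -/
def kb (x : ℂ × ℂ) : ℝ := 2 * (x.1.re * x.2.im - x.1.im * x.2.re)

lemma kabk (x : ℂ × ℂ) : ka x ^ 2 + kb x ^ 2 + kk x ^ 2 = NN x ^ 2 := by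
  simp only [ka, kb, kk, NN]; ring

lemma fa_kk (x : ℂ × ℂ) : (fa x).re ^ 2 + (fa x).im ^ 2 + ka x ^ 2 = NN x ^ 2 := by
  simp [fa, ka, NN, pow_two]; ring
lemma fb_kk (x : ℂ × ℂ) : (fb x).re ^ 2 + (fb x).im ^ 2 + kb x ^ 2 = NN x ^ 2 := by
  simp [fb, kb, NN, pow_two]; ring
lemma fc_kk (x : ℂ × ℂ) : (fc x).re ^ 2 + (fc x).im ^ 2 + kk x ^ 2 = NN x ^ 2 := by
  simp [fc, kk, NN, pow_two]; ring
lemma fac_re (x : ℂ × ℂ) : (fa x).re * (fc x).re + (fa x).im * (fc x).im = -(ka x * kk x) := by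
  simp [fa, fc, ka, kk, pow_two]; ring
lemma fac_im (x : ℂ × ℂ) : (fa x).re * (fc x).im - (fa x).im * (fc x).re = -(kb x * NN x) := by
  simp [fa, fc, kb, NN, pow_two]; ring
lemma fb_re (x : ℂ × ℂ) : (fb x).re * NN x = ka x * (fc x).re - kk x * (fa x).re := by
  simp [fa, fb, fc, ka, kk, NN, pow_two]; ring
lemma fb_im (x : ℂ × ℂ) : (fb x).im * NN x = ka x * (fc x).im - kk x * (fa x).im := by
  simp [fa, fb, fc, ka, kk, NN, pow_two]; ring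

lemma dfa_fr (p q r : ℝ) (x : ℂ × ℂ) : dfa x (fr p q r x) =
    2 * (Complex.I * p * fa x + ka x * (q + r * Complex.I)) := by
  apply Complex.ext <;> simp [dfa, fr, fa, ka, pow_two] <;> ring
lemma dfb_fr (p q r : ℝ) (x : ℂ × ℂ) : dfb x (fr p q r x) =
    2 * (Complex.I * p * fb x + Complex.I * kb x * (q + r * Complex.I)) := by
  apply Complex.ext <;> simp [dfb, fr, fb, kb, pow_two] <;> ring
lemma dfc_fr (p q r : ℝ) (x : ℂ × ℂ) : dfc x (fr p q r x) =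
    2 * (Complex.I * p * fc x + kk x * (q + r * Complex.I)) := by
  apply Complex.ext <;> simp [dfc, fr, fc, kk, pow_two] <;> ring

def S1 (x : ℂ × ℂ) : ℝ := (1 - ka x ^ 2) * ka x * (fa x).re + (1 - kk x ^ 2) * kk x * (fc x).re
def S2 (x : ℂ × ℂ) : ℝ := (1 - ka x ^ 2) * ka x * (fa x).im + (1 - kk x ^ 2) * kk x * (fc x).im
def Q1 (x : ℂ × ℂ) : ℝ := (fa x).re ^ 2 - (fa x).im ^ 2 - ((fc x).re ^ 2 - (fc x).im ^ 2)
def Q2 (x : ℂ × ℂ) : ℝ := 2 * ((fa x).re * (fa x).im - (fc x).re * (fc x).im)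
def g1 (x : ℂ × ℂ) : ℝ := ka x * (fa x).re - kk x * (fc x).re
def g2 (x : ℂ × ℂ) : ℝ := ka x * (fa x).im - kk x * (fc x).im
def r1 (x : ℂ × ℂ) : ℝ := (fc x).re * (fb x).re + (fc x).im * (fb x).im
def r2 (x : ℂ × ℂ) : ℝ := (fc x).re * (fb x).im - (fc x).im * (fb x).re
def h1 (x : ℂ × ℂ) : ℝ := kk x * (fb x).re + kb x * (fc x).im
def h2 (x : ℂ × ℂ) : ℝ := kk x * (fb x).im + kb x * (fc x).re
def l1 (x : ℂ × ℂ) : ℝ := kk x * (fb x).re - kb x * (fc x).im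
def l2 (x : ℂ × ℂ) : ℝ := kk x * (fb x).im - kb x * (fc x).re

/-- the images of the frame under the differential of `Phi` -/
def E1 (x : ℂ × ℂ) : VV :=
  (⟨2 * mm x * (-(fa x).im), 2 * mm x * (fa x).re⟩,
    ⟨4 * mm x ^ 2 * (-Q2 x), 4 * mm x ^ 2 * (-Q1 x)⟩, ⟨0, 0⟩)
def E2 (x : ℂ × ℂ) : VV :=
  (⟨2 * mm x * (ka x - mm x ^ 4 * S1 x * (fa x).re), 2 * mm x * (-(mm x ^ 4 * S1 x * (fa x).im))⟩,
    ⟨4 * mm x ^ 2 * (g1 x - mm x ^ 4 * S1 x * Q1 x),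
      4 * mm x ^ 2 * (-(g2 x - mm x ^ 4 * S1 x * Q2 x))⟩,
    ⟨2 * mm x ^ 2 * (h1 x - 2 * mm x ^ 4 * S1 x * r1 x),
      2 * mm x ^ 2 * (h2 x - 2 * mm x ^ 4 * S1 x * r2 x)⟩)
def E3 (x : ℂ × ℂ) : VV :=
  (⟨2 * mm x * (-(mm x ^ 4 * S2 x * (fa x).re)), 2 * mm x * (ka x - mm x ^ 4 * S2 x * (fa x).im)⟩,
    ⟨4 * mm x ^ 2 * (-g2 x - mm x ^ 4 * S2 x * Q1 x),
      4 * mm x ^ 2 * (-(g1 x - mm x ^ 4 * S2 x * Q2 x))⟩,
    ⟨2 * mm x ^ 2 * (l2 x - 2 * mm x ^ 4 * S2 x * r1 x),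
      2 * mm x ^ 2 * (-l1 x - 2 * mm x ^ 4 * S2 x * r2 x)⟩)

lemma dLL_fr {x : ℂ × ℂ} (hN : NN x = 1) (p q r : ℝ) :
    dLL x (fr p q r x) = 8 * (S1 x * q + S2 x * r) := by
  have e1 := fa_kk x
  have e2 := fc_kk x
  rw [hN] at e1 e2
  have e1' : (fa x).re ^ 2 + (fa x).im ^ 2 = 1 - ka x ^ 2 := by linarith
  have e2' : (fc x).re ^ 2 + (fc x).im ^ 2 = 1 - kk x ^ 2 := by linarith
  rw [dLL, e1', e2', dfa_fr, dfc_fr, S1, S2]
  simp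
  ring

lemma fderiv_Phi_fr {x : ℂ × ℂ} (hF : F0 x = 0) (p q r : ℝ) :
    fderiv ℝ Phi x (fr p q r x) = p • E1 x + q • E2 x + r • E3 x := by
  have hx := ne_zero_of_F0 hF
  have hN := NN_eq_one hF
  obtain ⟨μ, hμ, e⟩ := fderiv_Phi hx
  have hm := mm_pow hx
  have hμ' : μ (fr p q r x) = -2 * mm x ^ 5 * (S1 x * q + S2 x * r) := by
    have h1 := hμ (fr p q r x)
    rw [dLL_fr hN] at h1
    linear_combination (mm x ^ 4 / 4) * h1 - μ (fr p q r x) * hm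
  rw [e, hμ', dfa_fr, dfb_fr, dfc_fr]
  refine Prod.ext ?_ (Prod.ext ?_ ?_)
  · apply Complex.ext
    · simp [E1, E2, E3, pow_succ]; ring
    · simp [E1, E2, E3, pow_succ]; ring
  · apply Complex.ext
    · simp [E1, E2, E3, pow_succ, Q1, Q2, g1, g2]; ring
    · simp [E1, E2, E3, pow_succ, Q1, Q2, g1, g2]; ring
  · apply Complex.ext
    · simp [E1, E2, E3, pow_succ, h1, h2, l1, l2, r1, r2]; ring
    · simp [E1, E2, E3, pow_succ, h1, h2, l1, l2, r1, r2]; ring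

end Run7.h141
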