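import Pool.Agent.Run7.h141.Fill4

/-! # The filling: the two key inequalities -/

open scoped ContDiff Topology
open Set

noncomputable section

namespace Run7.h141

section
variable {x : ℂ × ℂ}

lemma rA (hN : NN x = 1) : (fa x).re ^ 2 + (fa x).im ^ 2 = 1 - ka x ^ 2 := by
  have := fa_kk x; rw [hN] at this; linarith
lemma rB (hN : NN x = 1) : (fb x).re ^ 2 + (fb x).im ^ 2 = 1 - kb x ^ 2 := by
  have := fb_kk x; rw [hN] at this; linarith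
lemma rC (hN : NN x = 1) : (fc x).re ^ 2 + (fc x).im ^ 2 = 1 - kk x ^ 2 := by
  have := fc_kk x; rw [hN] at this; linarith
lemma rP2 (hN : NN x = 1) : (fa x).re * (fc x).im - (fa x).im * (fc x).re = -kb x := by
  have := fac_im x; rw [hN] at this; linarith
lemma rb1 (hN : NN x = 1) : (fb x).re = ka x * (fc x).re - kk x * (fa x).re := by
  have := fb_re x; rw [hN] at this; linarith
lemma rb2 (hN : NN x = 1) : (fb x).im = ka x * (fc x).im - kk x * (fa x).im := by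
  have := fb_im x; rw [hN] at this; linarith
lemma rK (hN : NN x = 1) : ka x ^ 2 + kb x ^ 2 + kk x ^ 2 = 1 := by
  have := kabk x; rw [hN] at this; linarith
lemma rn (hF : F0 x = 0) : mm x ^ 4 * ((1 - ka x ^ 2) ^ 2 + (1 - kk x ^ 2) ^ 2) = 1 := by
  have hN := NN_eq_one hF
  have := mm_pow (ne_zero_of_F0 hF)
  rw [LL, rA hN, rC hN] at this
  exact this

lemma Om0_cx (u v : VV) : Om0 u v = 5 * cx u.1.re u.1.im v.1.re v.1.im +
    cx u.2.1.re u.2.1.im v.2.1.re v.2.1.im + cx u.2.2.re u.2.2.im v.2.2.re v.2.2.im := by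
  rw [Om0_apply]; simp only [cx]

/-- the homogeneous quartic form in the taming inequality -/
lemma quartic_pos {u v t : ℝ} (hu : 0 ≤ u) (hv : 0 ≤ v) (ht : 0 ≤ t) (h : u + v + t = 1) :
    0 < 14*u^4 + 32*u^3*v + 30*u^3*t + 2*u^2*v^2 + 76*u^2*v*t + 46*u^2*t^2 + 4*u*v^3 + 70*u*v^2*t +
      116*u*v*t^2 + 38*u*t^3 + 4*v^4 + 48*v^3*t + 64*v^2*t^2 + 28*v*t^3 + 8*t^4 := by
  have h1 : 0 < 4 * (u ^ 4 + v ^ 4 + t ^ 4) := by
    by_contra hcon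
    push Not at hcon
    have a : u ^ 4 = 0 := by nlinarith [pow_nonneg hu 4, pow_nonneg hv 4, pow_nonneg ht 4]
    have b : v ^ 4 = 0 := by nlinarith [pow_nonneg hu 4, pow_nonneg hv 4, pow_nonneg ht 4]
    have c : t ^ 4 = 0 := by nlinarith [pow_nonneg hu 4, pow_nonneg hv 4, pow_nonneg ht 4]
    have a' := (pow_eq_zero_iff (by norm_num)).1 a
    have b' := (pow_eq_zero_iff (by norm_num)).1 b
    have c' := (pow_eq_zero_iff (by norm_num)).1 c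
    rw [a', b', c'] at h
    norm_num at h
  have h2 : 0 ≤ 10*u^4 + 32*u^3*v + 30*u^3*t + 2*u^2*v^2 + 76*u^2*v*t + 46*u^2*t^2 + 4*u*v^3 +
      70*u*v^2*t + 116*u*v*t^2 + 38*u*t^3 + 48*v^3*t + 64*v^2*t^2 + 28*v*t^3 + 4*t^4 := by
    positivity
  linarith

lemma mm_sq_le (hF : F0 x = 0) : mm x ^ 2 ≤ 10 / 7 := by
  have hN := NN_eq_one hF
  have h1 := rn hF
  have h2 := rK hN
  have h3 := mm_pos (ne_zero_of_F0 hF)
  have hL : 1 / 2 ≤ (1 - ka x ^ 2) ^ 2 + (1 - kk x ^ 2) ^ 2 := by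
    have : 1 ≤ (1 - ka x ^ 2) + (1 - kk x ^ 2) := by nlinarith [sq_nonneg (kb x)]
    nlinarith [sq_nonneg ((1 - ka x ^ 2) - (1 - kk x ^ 2))]
  have h4 : mm x ^ 4 ≤ 2 := by
    have : 0 < mm x ^ 4 := by positivity
    nlinarith
  by_contra hcon
  push Not at hcon
  nlinarith [sq_nonneg (mm x)]

/-- the taming inequality -/
lemma alphaW_neg (hF : F0 x = 0) :
    (2 * kk x ^ 2 - 1) * Om0 (E2 x) (E3 x) + 2 * kk x * (fc x).im * Om0 (E3 x) (E1 x) -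
      2 * kk x * (fc x).re * Om0 (E1 x) (E2 x) < 0 := by
  have hN := NN_eq_one hF
  have hn := rn hF
  have hK := rK hN
  have ax := alg_x (m := mm x) (rA hN) (rC hN) (fac_re x) hK hn (S1 := S1 x) (S2 := S2 x) rfl rfl
  have ay := alg_y (m := mm x) (rA hN) (rC hN) (fac_re x) hn (S1 := S1 x) (S2 := S2 x) rfl rfl
    (Q1 := Q1 x) (Q2 := Q2 x) rfl rfl (g1 := g1 x) (g2 := g2 x) rfl rfl
  have az := alg_z (m := mm x) (rC hN) (rB hN) (fac_re x) (rP2 hN) hK hn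
    (S1 := S1 x) (S2 := S2 x) rfl rfl (rb1 hN) (rb2 hN) (r1 := r1 x) (r2 := r2 x) rfl rfl
    (h1 := h1 x) (h2 := h2 x) rfl rfl (k1 := l1 x) (k2 := l2 x) rfl rfl
  have key : (2 * kk x ^ 2 - 1) * Om0 (E2 x) (E3 x) + 2 * kk x * (fc x).im * Om0 (E3 x) (E1 x) -
      2 * kk x * (fc x).re * Om0 (E1 x) (E2 x) =
      5 * (-4 * mm x ^ 2 * mm x ^ 4 * (1 - kk x ^ 2) * (ka x ^ 2 + 2 * kk x ^ 2 * kb x ^ 2)) +
      (-16 * mm x ^ 4 * mm x ^ 4 * (2 * (ka x ^ 2) ^ 3 * kk x ^ 2 + (ka x ^ 2) ^ 3 +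
        4 * (ka x ^ 2) ^ 2 * (kk x ^ 2) ^ 2
      - 3 * (ka x ^ 2) ^ 2 * kk x ^ 2 - (ka x ^ 2) ^ 2 + 2 * ka x ^ 2 * (kk x ^ 2) ^ 3
      - 7 * ka x ^ 2 * (kk x ^ 2) ^ 2 + 2 * ka x ^ 2 * kk x ^ 2 - 3 * (kk x ^ 2) ^ 3 +
        3 * (kk x ^ 2) ^ 2)) +
      4 * mm x ^ 4 * mm x ^ 4 * (2 * (ka x ^ 2) ^ 3 * kk x ^ 2 - (ka x ^ 2) ^ 3 +
        4 * (ka x ^ 2) ^ 2 * (kk x ^ 2) ^ 2
      - 4 * (ka x ^ 2) ^ 2 * kk x ^ 2 + (ka x ^ 2) ^ 2 - 2 * ka x ^ 2 * (kk x ^ 2) ^ 3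
      + 5 * ka x ^ 2 * (kk x ^ 2) ^ 2 - 6 * ka x ^ 2 * kk x ^ 2 + 2 * ka x ^ 2 + 2 * (kk x ^ 2) ^ 3
      - 9 * (kk x ^ 2) ^ 2 + 8 * kk x ^ 2 - 2) := by
    rw [← ax, ← ay, ← az, Om0_cx, Om0_cx, Om0_cx]
    simp only [E1, E2, E3, cx]
    ring
  rw [key]
  have hM := mm_sq_le hF
  have hm := mm_pos (ne_zero_of_F0 hF)
  have hu : 0 ≤ ka x ^ 2 := sq_nonneg _
  have hv : 0 ≤ kk x ^ 2 := sq_nonneg _
  have ht : 0 ≤ kb x ^ 2 := sq_nonneg _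
  have h4 : mm x ^ 4 = (mm x ^ 2) ^ 2 := by ring
  rw [h4]
  have hM0 : 0 < mm x ^ 2 := by positivity
  clear key ax ay az hn hm h4
  generalize ka x ^ 2 = u at *
  generalize kk x ^ 2 = v at *
  generalize kb x ^ 2 = t at *
  generalize mm x ^ 2 = M at *
  have hq := quartic_pos hu hv ht (by linarith)
  have ht1 : t = 1 - u - v := by linarith
  have hX : 0 ≤ (1 - v) * (u + 2 * v * t) := by
    have : 0 ≤ 1 - v := by linarith
    positivity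
  have h5 : 0 < M ^ 3 * ((20 - 14 * M) * ((1 - v) * (u + 2 * v * t)) + M *
      (14*u^4 + 32*u^3*v + 30*u^3*t + 2*u^2*v^2 + 76*u^2*v*t + 46*u^2*t^2 + 4*u*v^3 + 70*u*v^2*t +
      116*u*v*t^2 + 38*u*t^3 + 4*v^4 + 48*v^3*t + 64*v^2*t^2 + 28*v*t^3 + 8*t^4)) := by
    have h6 : 0 ≤ (20 - 14 * M) * ((1 - v) * (u + 2 * v * t)) := mul_nonneg (by linarith) hX
    have h7 := mul_pos hM0 hq
    exact mul_pos (by positivity) (by linarith)
  subst ht1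
  have h8 : 5 * (-4 * M * M ^ 2 * (1 - v) * (u + 2 * v * (1 - u - v))) +
      -16 * M ^ 2 * M ^ 2 * (2 * u ^ 3 * v + u ^ 3 + 4 * u ^ 2 * v ^ 2 - 3 * u ^ 2 * v - u ^ 2 +
        2 * u * v ^ 3 - 7 * u * v ^ 2 + 2 * u * v - 3 * v ^ 3 + 3 * v ^ 2) +
      4 * M ^ 2 * M ^ 2 * (2 * u ^ 3 * v - u ^ 3 + 4 * u ^ 2 * v ^ 2 - 4 * u ^ 2 * v + u ^ 2 -
        2 * u * v ^ 3 + 5 * u * v ^ 2 - 6 * u * v + 2 * u + 2 * v ^ 3 - 9 * v ^ 2 + 8 * v - 2) =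
      -(M ^ 3 * ((20 - 14 * M) * ((1 - v) * (u + 2 * v * (1 - u - v))) + M *
      (14*u^4 + 32*u^3*v + 30*u^3*(1 - u - v) + 2*u^2*v^2 + 76*u^2*v*(1 - u - v) +
        46*u^2*(1 - u - v)^2 + 4*u*v^3 + 70*u*v^2*(1 - u - v) +
      116*u*v*(1 - u - v)^2 + 38*u*(1 - u - v)^3 + 4*v^4 + 48*v^3*(1 - u - v) +
        64*v^2*(1 - u - v)^2 + 28*v*(1 - u - v)^3 + 8*(1 - u - v)^4))) := by
    ring
  linarith

/-- the components of the pulled back Liouville form `-d rho ∘ i` -/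
def be1 (x : ℂ × ℂ) : ℝ := -(2 * (1 - kk x ^ 2) ^ 2 - (ka x ^ 2 + kk x ^ 2) ^ 2)
def be2 (x : ℂ × ℂ) : ℝ := -(1 - ka x ^ 2) * ka x * (fa x).im +
  (2 * (1 - kk x ^ 2) + ka x ^ 2 - kb x ^ 2) * kk x * (fc x).im +
      2 * ka x * kb x * ((fc x).re + 2 * mm x ^ 4 * kk x * S1 x)
def be3 (x : ℂ × ℂ) : ℝ := -(1 - ka x ^ 2) * ka x * (fa x).re +
  (2 * (1 - kk x ^ 2) + ka x ^ 2 - kb x ^ 2) * kk x * (fc x).re -
      2 * ka x * kb x * ((fc x).im + 2 * mm x ^ 4 * kk x * S2 x)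

/-- the pseudoconvexity inequality -/
lemma betaW_neg (hF : F0 x = 0) :
    be1 x * Om0 (E2 x) (E3 x) + be2 x * Om0 (E3 x) (E1 x) + (-be3 x) * Om0 (E1 x) (E2 x) < 0 := by
  have hN := NN_eq_one hF
  have hn := rn hF
  have hK := rK hN
  have ax := betaR_x (m := mm x) (rA hN) (rC hN) (fac_re x) (rP2 hN) hK hn
    (S1 := S1 x) (S2 := S2 x) rfl rfl (B1 := be3 x) (B2 := be2 x) rfl rfl
  have ay := betaR_y (m := mm x) (rA hN) (rC hN) (fac_re x) (rP2 hN) hK hn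
    (S1 := S1 x) (S2 := S2 x) rfl rfl
    (Q1 := Q1 x) (Q2 := Q2 x) rfl rfl (g1 := g1 x) (g2 := g2 x) rfl rfl
    (B1 := be3 x) (B2 := be2 x) rfl rfl
  have az := alg_z23 (m := mm x) (rC hN) (rB hN) (fac_re x) (rP2 hN) hK hn
    (S1 := S1 x) (S2 := S2 x) rfl rfl (rb1 hN) (rb2 hN) (r1 := r1 x) (r2 := r2 x) rfl rfl
    (h1 := h1 x) (h2 := h2 x) rfl rfl (k1 := l1 x) (k2 := l2 x) rfl rfl
  have key : be1 x * Om0 (E2 x) (E3 x) + be2 x * Om0 (E3 x) (E1 x) +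
      (-be3 x) * Om0 (E1 x) (E2 x) =
      5 * (-4 * mm x ^ 2 * mm x ^ 4 * (ka x ^ 2 + kk x ^ 2) * (1 - kk x ^ 2) ^ 3) +
      (-16 * mm x ^ 4 * mm x ^ 4 * ((1 - ka x ^ 2) * (ka x ^ 2 + kk x ^ 2) ^ 3 * (1 - kk x ^ 2))) +
      be1 x * (4 * mm x ^ 4 * mm x ^ 4 *
        ((1 - ka x ^ 2) * (2 * (1 - kk x ^ 2) ^ 2 - (ka x ^ 2 + kk x ^ 2) ^ 2))) := by
    rw [← ax, ← ay, ← az, Om0_cx, Om0_cx, Om0_cx]
    simp only [E1, E2, E3, cx, be1]
    ring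
  rw [key, be1]
  have hm := mm_pos (ne_zero_of_F0 hF)
  have hu : 0 ≤ ka x ^ 2 := sq_nonneg _
  have hv : 0 ≤ kk x ^ 2 := sq_nonneg _
  have ht : 0 ≤ kb x ^ 2 := sq_nonneg _
  have hm4 : 0 < mm x ^ 4 := by positivity
  have hm2 : 0 < mm x ^ 2 := by positivity
  clear key ax ay az hn
  generalize mm x ^ 4 = n at *
  generalize mm x ^ 2 = M at *
  generalize ka x ^ 2 = u at *
  generalize kk x ^ 2 = v at *
  generalize kb x ^ 2 = t at *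
  have hA : 0 ≤ 1 - u := by linarith
  have hC : 0 ≤ 1 - v := by linarith
  have hB : 0 ≤ u + v := by linarith
  have p1 : 0 ≤ M * n * (u + v) * (1 - v) ^ 3 := by positivity
  have p2 : 0 ≤ n * n * ((1 - u) * (u + v) ^ 3 * (1 - v)) := by positivity
  have p3 : 0 ≤ n * n * ((1 - u) * (2 * (1 - v) ^ 2 - (u + v) ^ 2) ^ 2) := by positivity
  have hsum : 0 < M * n * (u + v) * (1 - v) ^ 3 + n * n * ((1 - u) * (u + v) ^ 3 * (1 - v)) +
      n * n * ((1 - u) * (2 * (1 - v) ^ 2 - (u + v) ^ 2) ^ 2) := by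
    by_contra hcon
    push Not at hcon
    have z1 : M * n * (u + v) * (1 - v) ^ 3 = 0 := by linarith
    have z2 : n * n * ((1 - u) * (u + v) ^ 3 * (1 - v)) = 0 := by linarith
    have z3 : n * n * ((1 - u) * (2 * (1 - v) ^ 2 - (u + v) ^ 2) ^ 2) = 0 := by linarith
    by_cases hu1 : u = 1
    · have hv0 : v = 0 := by linarith
      rw [hu1, hv0] at z1
      have : M * n = 0 := by linarith
      exact (mul_pos hm2 hm4).ne' this
    · have hu2 : 1 - u ≠ 0 := fun h => hu1 (by linarith)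
      have z3' : (2 * (1 - v) ^ 2 - (u + v) ^ 2) ^ 2 = 0 := by
        rcases mul_eq_zero.1 z3 with h | h
        · exact absurd h (mul_pos hm4 hm4).ne'
        · exact (mul_eq_zero.1 h).resolve_left hu2
      have z4 := (pow_eq_zero_iff (by norm_num)).1 z3'
      have z2' : (u + v) ^ 3 * (1 - v) = 0 := by
        rcases mul_eq_zero.1 z2 with h | h
        · exact absurd h (mul_pos hm4 hm4).ne'
        · rw [mul_assoc] at h
          exact (mul_eq_zero.1 h).resolve_left hu2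
      rcases mul_eq_zero.1 z2' with h | h
      · have h5 := (pow_eq_zero_iff (by norm_num)).1 h
        have hv1 : v = 0 := by linarith
        rw [h5, hv1] at z4
        norm_num at z4
      · rw [h] at z4
        have h6 : (u + v) ^ 2 = 0 := by linarith
        have h7 := (pow_eq_zero_iff (by norm_num)).1 h6
        linarith
  have e : 5 * (-4 * M * n * (u + v) * (1 - v) ^ 3) +
      -16 * n * n * ((1 - u) * (u + v) ^ 3 * (1 - v)) +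
      -(2 * (1 - v) ^ 2 - (u + v) ^ 2) *
        (4 * n * n * ((1 - u) * (2 * (1 - v) ^ 2 - (u + v) ^ 2))) =
      -(20 * (M * n * (u + v) * (1 - v) ^ 3) + 16 * (n * n * ((1 - u) * (u + v) ^ 3 * (1 - v))) +
      4 * (n * n * ((1 - u) * (2 * (1 - v) ^ 2 - (u + v) ^ 2) ^ 2))) := by ring
  linarith

end

end Run7.h141
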