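import Pool.Agent.Run7.h141.Fill5

/-! # The filling -/

open scoped ContDiff Topology
open Set

noncomputable section

namespace Run7.h141

section
variable {x : ℂ × ℂ}

lemma ff_comp (hx : x ≠ 0) (v : ℂ × ℂ) : fderiv ℝ ff (Phi x) (fderiv ℝ Phi x v) = 0 := by
  have h1 : HasFDerivAt Phi (fderiv ℝ Phi x) x :=
    ((contDiffAt_Phi hx).differentiableAt (by simp)).hasFDerivAt
  have h2 : HasFDerivAt ff (fderiv ℝ ff (Phi x)) (Phi x) :=
    ((ff_smooth.differentiable (by simp)) _).hasFDerivAt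
  have h3 := h2.comp x h1
  have h4 : (ff ∘ Phi) =ᶠ[𝓝 x] fun _ => (0 : ℂ) := by
    filter_upwards [isOpen_compl_singleton.mem_nhds hx] with y hy
    exact ff_Phi hy
  have h5 := (hasFDerivAt_const (𝕜 := ℝ) (0 : ℂ) x).congr_of_eventuallyEq h4
  have h6 := h3.unique h5
  have := congrArg (fun M => M v) h6
  simpa using this

lemma rho_comp (hx : x ≠ 0) (v : ℂ × ℂ) : fderiv ℝ rho (Phi x) (fderiv ℝ Phi x v) = 0 := by
  have h1 : HasFDerivAt Phi (fderiv ℝ Phi x) x :=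
    ((contDiffAt_Phi hx).differentiableAt (by simp)).hasFDerivAt
  have h2 : HasFDerivAt rho (fderiv ℝ rho (Phi x)) (Phi x) :=
    ((rho_smooth.differentiable (by simp)) _).hasFDerivAt
  have h3 := h2.comp x h1
  have h4 : (rho ∘ Phi) =ᶠ[𝓝 x] fun _ => (0 : ℝ) := by
    filter_upwards [isOpen_compl_singleton.mem_nhds hx] with y hy
    exact rho_Phi hy
  have h5 := (hasFDerivAt_const (𝕜 := ℝ) (0 : ℝ) x).congr_of_eventuallyEq h4
  have h6 := h3.unique h5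
  have := congrArg (fun M => M v) h6
  simpa using this

lemma E1_eq (hF : F0 x = 0) : fderiv ℝ Phi x (fr 1 0 0 x) = E1 x := by
  rw [fderiv_Phi_fr hF]; simp
lemma E2_eq (hF : F0 x = 0) : fderiv ℝ Phi x (fr 0 1 0 x) = E2 x := by
  rw [fderiv_Phi_fr hF]; simp
lemma E3_eq (hF : F0 x = 0) : fderiv ℝ Phi x (fr 0 0 1 x) = E3 x := by
  rw [fderiv_Phi_fr hF]; simp

lemma ff_E (hF : F0 x = 0) : fderiv ℝ ff (Phi x) (E1 x) = 0 ∧ fderiv ℝ ff (Phi x) (E2 x) = 0 ∧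
    fderiv ℝ ff (Phi x) (E3 x) = 0 := by
  have hx := ne_zero_of_F0 hF
  rw [← E1_eq hF, ← E2_eq hF, ← E3_eq hF]
  exact ⟨ff_comp hx _, ff_comp hx _, ff_comp hx _⟩

lemma rho_E (hF : F0 x = 0) : fderiv ℝ rho (Phi x) (E1 x) = 0 ∧ fderiv ℝ rho (Phi x) (E2 x) = 0 ∧
    fderiv ℝ rho (Phi x) (E3 x) = 0 := by
  have hx := ne_zero_of_F0 hF
  rw [← E1_eq hF, ← E2_eq hF, ← E3_eq hF]
  exact ⟨rho_comp hx _, rho_comp hx _, rho_comp hx _⟩

lemma ff_I {p v : VV} (h : fderiv ℝ ff p v = 0) : fderiv ℝ ff p (Complex.I • v) = 0 := by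
  rw [fderiv_ff] at h ⊢
  simp only [Prod.smul_fst, Prod.smul_snd, smul_eq_mul]
  linear_combination Complex.I * h

lemma Om0_self (v : VV) : Om0 v v = 0 := by
  rw [Om0_apply]; ring

lemma Om0_symm (u v : VV) : Om0 u v = -Om0 v u := by
  rw [Om0_apply, Om0_apply]; ring

lemma Om0_I (v : VV) : Om0 v (Complex.I • v) = 5 * ‖v.1‖ ^ 2 + ‖v.2.1‖ ^ 2 + ‖v.2.2‖ ^ 2 := by
  rw [Om0_apply, ← sq_add_sq, ← sq_add_sq, ← sq_add_sq]
  simp
  ring

lemma Om0_I_pos {v : VV} (hv : v ≠ 0) : 0 < Om0 v (Complex.I • v) := by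
  rw [Om0_I]
  by_contra hcon
  push Not at hcon
  have a : ‖v.1‖ ^ 2 = 0 := by nlinarith [sq_nonneg ‖v.1‖, sq_nonneg ‖v.2.1‖, sq_nonneg ‖v.2.2‖]
  have b : ‖v.2.1‖ ^ 2 = 0 := by nlinarith [sq_nonneg ‖v.1‖, sq_nonneg ‖v.2.1‖, sq_nonneg ‖v.2.2‖]
  have c : ‖v.2.2‖ ^ 2 = 0 := by nlinarith [sq_nonneg ‖v.1‖, sq_nonneg ‖v.2.1‖, sq_nonneg ‖v.2.2‖]
  have a' := norm_eq_zero.1 ((pow_eq_zero_iff (by norm_num)).1 a)
  have b' := norm_eq_zero.1 ((pow_eq_zero_iff (by norm_num)).1 b)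
  have c' := norm_eq_zero.1 ((pow_eq_zero_iff (by norm_num)).1 c)
  exact hv (Prod.ext a' (Prod.ext b' c'))

/-- `- d rho (i E)` in terms of the components of `E` -/
lemma rho_I {E : VV} (h : fderiv ℝ ff (Phi x) E = 0) :
    -(fderiv ℝ rho (Phi x) (Complex.I • E)) =
    8 * (mm x ^ 2 * ((fa x).re ^ 2 + (fa x).im ^ 2)) *
        cx (mm x * (fa x).re) (mm x * (fa x).im) E.1.re E.1.im +
      2 * cx (mm x ^ 2 * Q1 x) (mm x ^ 2 * (-Q2 x)) E.2.1.re E.2.1.im +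
      4 * ((mm x ^ 2 * r1 x) * E.2.2.im + (mm x ^ 2 * r2 x) * E.2.2.re) := by
  rw [fderiv_rho' (ff_I h), ← sq_add_sq]
  simp only [Phi, cx, Q1, Q2, r1, r2]
  simp [pow_two]
  ring

/-- the kernel vector of the pulled back form -/
def VK (x : ℂ × ℂ) : VV :=
  Om0 (E2 x) (E3 x) • E1 x + Om0 (E3 x) (E1 x) • E2 x + Om0 (E1 x) (E2 x) • E3 x

lemma rho_I_VK (hF : F0 x = 0) : -(fderiv ℝ rho (Phi x) (Complex.I • VK x)) =
    8 * mm x ^ 4 * (be1 x * Om0 (E2 x) (E3 x) + be2 x * Om0 (E3 x) (E1 x) +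
      (-be3 x) * Om0 (E1 x) (E2 x)) := by
  have hN := NN_eq_one hF
  obtain ⟨w1, w2, w3⟩ := ff_E hF
  have e1 := rho_I w1
  have e2 := rho_I w2
  have e3 := rho_I w3
  have b1 := beta_1 (m := mm x) (rA hN) (rC hN) (fac_re x) (Q1 := Q1 x) (Q2 := Q2 x) rfl rfl
  have b2 := beta_2 (m := mm x) (n := mm x ^ 4) (rA hN) (rC hN) (fac_re x) (rP2 hN)
    (Q1 := Q1 x) (Q2 := Q2 x) rfl rfl (g1 := g1 x) (g2 := g2 x) rfl rfl
    (rb1 hN) (rb2 hN) (r1 := r1 x) (r2 := r2 x) rfl rfl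
    (h1 := h1 x) (h2 := h2 x) rfl rfl (S1 := S1 x) (B2 := be2 x) rfl
  have b3 := beta_3 (m := mm x) (n := mm x ^ 4) (rA hN) (rC hN) (fac_re x) (rP2 hN)
    (Q1 := Q1 x) (Q2 := Q2 x) rfl rfl (g1 := g1 x) (g2 := g2 x) rfl rfl
    (rb1 hN) (rb2 hN) (r1 := r1 x) (r2 := r2 x) rfl rfl
    (k1 := l1 x) (k2 := l2 x) rfl rfl (S2 := S2 x) (B1 := be3 x) rfl
  have f1 : fderiv ℝ rho (Phi x) (Complex.I • E1 x) = -(8 * mm x ^ 4 * be1 x) := by
    have : -(fderiv ℝ rho (Phi x) (Complex.I • E1 x)) = 8 * mm x ^ 4 * be1 x := by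
      rw [e1, be1]
      simp only [E1, mul_zero, add_zero]
      rw [b1]; ring
    linarith
  have f2 : fderiv ℝ rho (Phi x) (Complex.I • E2 x) = -(8 * mm x ^ 4 * be2 x) := by
    have : -(fderiv ℝ rho (Phi x) (Complex.I • E2 x)) = 8 * mm x ^ 4 * be2 x := by
      rw [e2]
      simp only [E2]
      rw [b2]
    linarith
  have f3 : fderiv ℝ rho (Phi x) (Complex.I • E3 x) = -(8 * mm x ^ 4 * (-be3 x)) := by
    have : -(fderiv ℝ rho (Phi x) (Complex.I • E3 x)) = -8 * mm x ^ 4 * be3 x := by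
      rw [e3]
      simp only [E3]
      rw [b3]
    linarith
  have e : Complex.I • VK x = Om0 (E2 x) (E3 x) • (Complex.I • E1 x) +
      Om0 (E3 x) (E1 x) • (Complex.I • E2 x) + Om0 (E1 x) (E2 x) • (Complex.I • E3 x) := by
    simp only [VK, smul_add]
    rw [smul_comm Complex.I, smul_comm Complex.I, smul_comm Complex.I]
  rw [e, map_add, map_add, map_smul (fderiv ℝ rho (Phi x)) (Om0 (E2 x) (E3 x)),
    map_smul (fderiv ℝ rho (Phi x)) (Om0 (E3 x) (E1 x)),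
    map_smul (fderiv ℝ rho (Phi x)) (Om0 (E1 x) (E2 x)), f1, f2, f3]
  simp only [smul_eq_mul]
  ring

lemma ff_VK (hF : F0 x = 0) : fderiv ℝ ff (Phi x) (VK x) = 0 := by
  obtain ⟨w1, w2, w3⟩ := ff_E hF
  rw [VK, map_add, map_add, map_smul, map_smul, map_smul, w1, w2, w3]
  simp

lemma rho_I_VK_pos (hF : F0 x = 0) : 0 < fderiv ℝ rho (Phi x) (Complex.I • VK x) := by
  have h1 := rho_I_VK hF
  have h2 := betaW_neg hF
  have hm := mm_pos (ne_zero_of_F0 hF)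
  have h3 : 0 < 8 * mm x ^ 4 := by positivity
  have h4 := mul_neg_of_pos_of_neg h3 h2
  linarith

lemma VK_ne_zero (hF : F0 x = 0) : VK x ≠ 0 := by
  intro h
  have := rho_I_VK_pos hF
  rw [h, smul_zero, map_zero] at this
  exact lt_irrefl _ this

lemma Om0_VK_E : Om0 (E1 x) (VK x) = 0 ∧ Om0 (E2 x) (VK x) = 0 ∧ Om0 (E3 x) (VK x) = 0 := by
  have s1 := Om0_self (E1 x)
  have s2 := Om0_self (E2 x)
  have s3 := Om0_self (E3 x)
  have a := Om0_symm (E2 x) (E1 x)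
  have b := Om0_symm (E3 x) (E2 x)
  have c := Om0_symm (E1 x) (E3 x)
  refine ⟨?_, ?_, ?_⟩
  · simp only [VK, map_add, map_smul, smul_eq_mul]
    rw [s1, c]; ring
  · simp only [VK, map_add, map_smul, smul_eq_mul]
    rw [s2, a]; ring
  · simp only [VK, map_add, map_smul, smul_eq_mul]
    rw [s3, b]; ring

lemma c_fr (p q r : ℝ) (x : ℂ × ℂ) : c1 x (fr p q r x) = p * NN x ∧
    c2 x (fr p q r x) = q * NN x ∧ c3 x (fr p q r x) = r * NN x := by
  refine ⟨?_, ?_, ?_⟩ <;> simp only [c1, c2, c3, fr, NN] <;> ring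

/-- the span of the frame is the tangent space of the boundary -/
lemma span_E (hF : F0 x = 0) {s : VV} (h1 : fderiv ℝ ff (Phi x) s = 0)
    (h2 : fderiv ℝ rho (Phi x) s = 0) : ∃ p q r : ℝ, s = p • E1 x + q • E2 x + r • E3 x := by
  have hN := NN_eq_one hF
  -- the linear map of the frame
  let φ : (ℝ × ℝ × ℝ) →ₗ[ℝ] VV :=
    (LinearMap.toSpanSingleton ℝ VV (E1 x)).comp (LinearMap.fst ℝ ℝ (ℝ × ℝ)) +
    (LinearMap.toSpanSingleton ℝ VV (E2 x)).comp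
      ((LinearMap.fst ℝ ℝ ℝ).comp (LinearMap.snd ℝ ℝ (ℝ × ℝ))) +
    (LinearMap.toSpanSingleton ℝ VV (E3 x)).comp
      ((LinearMap.snd ℝ ℝ ℝ).comp (LinearMap.snd ℝ ℝ (ℝ × ℝ)))
  have hφ : ∀ p q r : ℝ, φ (p, q, r) = p • E1 x + q • E2 x + r • E3 x := fun p q r => rfl
  have hinj : Function.Injective φ := by
    rw [injective_iff_map_eq_zero]
    rintro ⟨p, q, r⟩ h
    rw [hφ, ← fderiv_Phi_fr hF] at h
    have h3 := Phi_immersion hF (fr_tangent p q r x) h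
    obtain ⟨a, b, c⟩ := c_fr p q r x
    rw [h3, hN, mul_one] at a b c
    have a' : p = 0 := by rw [← a]; simp [c1]
    have b' : q = 0 := by rw [← b]; simp [c2]
    have c' : r = 0 := by rw [← c]; simp [c3]
    rw [a', b', c']; rfl
  -- the two differentials
  let ψ : VV →ₗ[ℝ] ℂ × ℝ :=
    LinearMap.prod (fderiv ℝ ff (Phi x) : VV →ₗ[ℝ] ℂ) (fderiv ℝ rho (Phi x) : VV →ₗ[ℝ] ℝ)
  have hψ : ∀ v, ψ v = (fderiv ℝ ff (Phi x) v, fderiv ℝ rho (Phi x) v) := fun v => rfl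
  have hsurj : Function.Surjective ψ := by
    rintro ⟨c, r⟩
    obtain ⟨v0, hv0⟩ := ff_regular (Phi x) (ff_Phi (ne_zero_of_F0 hF)) c
    have hpos := rho_I_VK_pos hF
    set t : ℝ := (r - fderiv ℝ rho (Phi x) v0) / fderiv ℝ rho (Phi x) (Complex.I • VK x) with ht
    refine ⟨v0 + t • (Complex.I • VK x), ?_⟩
    rw [hψ, map_add, map_add, map_smul (fderiv ℝ ff (Phi x)) t,
      map_smul (fderiv ℝ rho (Phi x)) t, ff_I (ff_VK hF), hv0]
    refine Prod.ext ?_ ?_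
    · simp
    · simp only [smul_eq_mul]
      rw [ht, div_mul_cancel₀ _ hpos.ne']; ring
  have hle : LinearMap.range φ ≤ LinearMap.ker ψ := by
    rintro _ ⟨⟨p, q, r⟩, rfl⟩
    obtain ⟨w1, w2, w3⟩ := ff_E hF
    obtain ⟨z1, z2, z3⟩ := rho_E hF
    rw [LinearMap.mem_ker, hφ, hψ]
    simp [w1, w2, w3, z1, z2, z3]
  have hr1 : Module.finrank ℝ (LinearMap.range φ) = 3 := by
    rw [LinearMap.finrank_range_of_inj hinj]
    simp
  have hr2 : Module.finrank ℝ (LinearMap.ker ψ) = 3 := by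
    have h3 := LinearMap.finrank_range_add_finrank_ker ψ
    rw [LinearMap.range_eq_top.2 hsurj, finrank_top, finrank_VV, Module.finrank_prod,
      Complex.finrank_real_complex, Module.finrank_self] at h3
    omega
  have heq := Submodule.eq_of_le_of_finrank_eq hle (hr1.trans hr2.symm)
  have hs : s ∈ LinearMap.ker ψ := by
    rw [LinearMap.mem_ker, hψ, h1, h2]; rfl
  rw [← heq] at hs
  obtain ⟨⟨p, q, r⟩, h⟩ := hs
  exact ⟨p, q, r, by rw [← h, hφ]⟩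

/-- the orientation inequality -/
lemma orient_aux (hF : F0 x = 0) {n : VV} (h1 : fderiv ℝ ff (Phi x) n = 0)
    (h2 : 0 < fderiv ℝ rho (Phi x) n) : Om0 n (VK x) < 0 := by
  have hpos := rho_I_VK_pos hF
  set d := fderiv ℝ rho (Phi x) (Complex.I • VK x) with hd
  set t := fderiv ℝ rho (Phi x) n / d with ht
  have ht0 : 0 < t := div_pos h2 hpos
  have hs1 : fderiv ℝ ff (Phi x) (n - t • (Complex.I • VK x)) = 0 := by
    rw [map_sub, map_smul, ff_I (ff_VK hF), h1]; simp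
  have hs2 : fderiv ℝ rho (Phi x) (n - t • (Complex.I • VK x)) = 0 := by
    rw [map_sub, map_smul, ← hd, ht, smul_eq_mul, div_mul_cancel₀ _ hpos.ne', sub_self]
  obtain ⟨p, q, r, h⟩ := span_E hF hs1 hs2
  have hn : n = t • (Complex.I • VK x) + (p • E1 x + q • E2 x + r • E3 x) := by
    rw [← h]; abel
  obtain ⟨o1, o2, o3⟩ := Om0_VK_E (x := x)
  have h3 : Om0 n (VK x) = -(t * Om0 (VK x) (Complex.I • VK x)) := by
    rw [hn]
    simp only [map_add, map_smul, add_apply, smul_apply, smul_eq_mul]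
    rw [o1, o2, o3, Om0_symm (Complex.I • VK x) (VK x)]; ring
  rw [h3]
  have := mul_pos ht0 (Om0_I_pos (VK_ne_zero hF))
  linarith

/-- the pull-back of the 4-form -/
lemma halfSquare_E (n : VV) (p q r p' q' r' p'' q'' r'' : ℝ) :
    halfSquare (fun a b => Om0 a b) n (p • E1 x + q • E2 x + r • E3 x)
      (p' • E1 x + q' • E2 x + r' • E3 x) (p'' • E1 x + q'' • E2 x + r'' • E3 x) =
    (p * (q' * r'' - r' * q'') - q * (p' * r'' - r' * p'') + r * (p' * q'' - q' * p'')) *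
      Om0 n (VK x) := by
  have s1 := Om0_self (E1 x)
  have s2 := Om0_self (E2 x)
  have s3 := Om0_self (E3 x)
  have a := Om0_symm (E2 x) (E1 x)
  have b := Om0_symm (E3 x) (E2 x)
  have c := Om0_symm (E1 x) (E3 x)
  simp only [halfSquare, VK, map_add, map_smul, add_apply, smul_apply, smul_eq_mul]
  rw [s1, s2, s3, a, b, c]
  ring

lemma Om0_E (p q r p' q' r' : ℝ) :
    Om0 (p • E1 x + q • E2 x + r • E3 x) (p' • E1 x + q' • E2 x + r' • E3 x) =
    (q * r' - r * q') * Om0 (E2 x) (E3 x) + (r * p' - p * r') * Om0 (E3 x) (E1 x) +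
      (p * q' - q * p') * Om0 (E1 x) (E2 x) := by
  have s1 := Om0_self (E1 x)
  have s2 := Om0_self (E2 x)
  have s3 := Om0_self (E3 x)
  have a := Om0_symm (E2 x) (E1 x)
  have b := Om0_symm (E3 x) (E2 x)
  have c := Om0_symm (E1 x) (E3 x)
  simp only [map_add, map_smul, add_apply, smul_apply, smul_eq_mul]
  rw [s1, s2, s3, a, b, c]
  ring

lemma cr_eq (x : ℂ × ℂ) : cr x = (fc x).re := by simp [cr, fc]; ring
lemma ci_eq (x : ℂ × ℂ) : ci x = (fc x).im := by simp [ci, fc]; ring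

/-- the taming condition -/
lemma taming_aux (hF : F0 x = 0) {u v : ℂ × ℂ} (hu : fderiv ℝ F0 x u = 0)
    (hv : fderiv ℝ F0 x v = 0) (h1 : α0 x u = 0) (h2 : α0 x v = 0) (h3 : 0 < extD α0 x u v) :
    0 < Om0 (fderiv ℝ Phi x u) (fderiv ℝ Phi x v) := by
  obtain ⟨p, q, r, rfl⟩ := exists_fr hF hu
  obtain ⟨p', q', r', rfl⟩ := exists_fr hF hv
  have hN := NN_eq_one hF
  have hW := alphaW_neg hF
  rw [fderiv_Phi_fr hF, fderiv_Phi_fr hF, Om0_E]
  rw [α0_fr, hN] at h1 h2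
  rw [extD_α0_fr, hN] at h3
  rw [← cr_eq, ← ci_eq] at hW
  have hc := cr_ci_kk x
  rw [hN] at hc
  generalize Om0 (E2 x) (E3 x) = W1 at *
  generalize Om0 (E3 x) (E1 x) = W2 at *
  generalize Om0 (E1 x) (E2 x) = W3 at *
  set k := kk x
  set a := cr x
  set b := ci x
  have hS : 0 < (2 * k ^ 2 - 1) ^ 2 + (2 * k * b) ^ 2 + (2 * k * a) ^ 2 := by
    by_contra hcon
    push Not at hcon
    have y1 : (2 * k ^ 2 - 1) ^ 2 = 0 := by
      nlinarith [sq_nonneg (2 * k ^ 2 - 1), sq_nonneg (2 * k * b), sq_nonneg (2 * k * a)]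
    have y2 : (2 * k * b) ^ 2 + (2 * k * a) ^ 2 = 0 := by
      nlinarith [sq_nonneg (2 * k ^ 2 - 1), sq_nonneg (2 * k * b), sq_nonneg (2 * k * a)]
    have y3 := (pow_eq_zero_iff (by norm_num)).1 y1
    nlinarith
  -- the cross product is parallel to `α`
  set n1 := q * r' - r * q' with hn1
  set n2 := r * p' - p * r' with hn2
  set n3 := p * q' - q * p' with hn3
  set s := n1 * (2 * k ^ 2 - 1) + n2 * (2 * k * b) + n3 * (-(2 * k * a)) with hs
  set S := (2 * k ^ 2 - 1) ^ 2 + (2 * k * b) ^ 2 + (2 * k * a) ^ 2 with hSdef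
  have m1 : S * n1 = s * (2 * k ^ 2 - 1) := by
    simp only [hSdef, hs, hn1, hn2, hn3]
    linear_combination (2 * k * b * r' + 2 * k * a * q') * h1 -
      (2 * k * b * r + 2 * k * a * q) * h2
  have m2 : S * n2 = s * (2 * k * b) := by
    simp only [hSdef, hs, hn1, hn2, hn3]
    linear_combination (-(2 * k * a) * p' - (2 * k ^ 2 - 1) * r') * h1 -
      (-(2 * k * a) * p - (2 * k ^ 2 - 1) * r) * h2
  have m3 : S * n3 = s * (-(2 * k * a)) := by
    simp only [hSdef, hs, hn1, hn2, hn3]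
    linear_combination ((2 * k ^ 2 - 1) * q' - 2 * k * b * p') * h1 -
      ((2 * k ^ 2 - 1) * q - 2 * k * b * p) * h2
  have hD : S * ((q * r' - r * q') * (2 * 1 ^ 2 - 8 * k ^ 2) + (p * q' - q * p') * (8 * k * a) +
      (p * r' - r * p') * (8 * k * b)) = s * (-(2 + 4 * k ^ 2)) := by
    have : S * ((q * r' - r * q') * (2 * 1 ^ 2 - 8 * k ^ 2) + (p * q' - q * p') * (8 * k * a) +
      (p * r' - r * p') * (8 * k * b)) = (S * n1) * (2 - 8 * k ^ 2) + (S * n3) * (8 * k * a) -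
        (S * n2) * (8 * k * b) := by rw [hn1, hn2, hn3]; ring
    rw [this, m1, m2, m3]
    linear_combination (-16 * k ^ 2 * s) * hc
  have hs0 : s < 0 := by
    by_contra hcon
    push Not at hcon
    have h5 := mul_pos hS h3
    rw [hD] at h5
    nlinarith [sq_nonneg k]
  have hfin : S * (n1 * W1 + n2 * W2 + n3 * W3) =
      s * ((2 * k ^ 2 - 1) * W1 + 2 * k * b * W2 - 2 * k * a * W3) := by
    have : S * (n1 * W1 + n2 * W2 + n3 * W3) = (S * n1) * W1 + (S * n2) * W2 + (S * n3) * W3 := by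
      ring
    rw [this, m1, m2, m3]; ring
  have h6 : 0 < S * (n1 * W1 + n2 * W2 + n3 * W3) := by
    rw [hfin]; exact mul_pos_of_neg_of_neg hs0 hW
  exact (mul_pos_iff_of_pos_left hS).1 h6

end

end Run7.h141
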