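import Pool.Agent.Run7.h141.Quot

/-! # The two groups, the manifolds `Y` and `Y'`, and their contact forms -/

open scoped ContDiff Topology
open Set

noncomputable section

namespace Run7.h141

/-- the automorphism `(ζ, w) ↦ (i w, i ζ)` of `ℂ²` -/
def iotaE : (ℂ × ℂ) ≃L[ℝ] (ℂ × ℂ) :=
  LinearEquiv.toContinuousLinearEquiv
    { toFun := fun x => (Complex.I * x.2, Complex.I * x.1)
      invFun := fun x => (-(Complex.I * x.2), -(Complex.I * x.1))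
      map_add' := fun x y => by ext1 <;> simp [mul_add]
      map_smul' := fun r x => by ext1 <;> simp [mul_left_comm]
      left_inv := fun x => by
        ext1 <;> simp [← mul_assoc]
      right_inv := fun x => by
        ext1 <;> simp [← mul_assoc] }

@[simp] lemma iotaE_apply (x : ℂ × ℂ) : iotaE x = (Complex.I * x.2, Complex.I * x.1) := rfl

/-- the automorphism `(ζ, w) ↦ (u⁻¹ ζ, u w)` of `ℂ²` -/
def rotE : ℂˣ →* ((ℂ × ℂ) ≃L[ℝ] (ℂ × ℂ)) where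
  toFun u := LinearEquiv.toContinuousLinearEquiv
    { toFun := fun x => ((u : ℂ)⁻¹ * x.1, (u : ℂ) * x.2)
      invFun := fun x => ((u : ℂ) * x.1, (u : ℂ)⁻¹ * x.2)
      map_add' := fun x y => by ext1 <;> simp [mul_add]
      map_smul' := fun r x => by ext1 <;> simp [mul_left_comm]
      left_inv := fun x => by
        ext1 <;> simp
      right_inv := fun x => by
        ext1 <;> simp }
  map_one' := ContinuousLinearEquiv.ext (funext fun x => by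
    change (((1 : ℂˣ) : ℂ)⁻¹ * x.1, ((1 : ℂˣ) : ℂ) * x.2) = x
    simp)
  map_mul' u v := ContinuousLinearEquiv.ext (funext fun x => by
    change (((u * v : ℂˣ) : ℂ)⁻¹ * x.1, ((u * v : ℂˣ) : ℂ) * x.2) =
      ((u : ℂ)⁻¹ * ((v : ℂ)⁻¹ * x.1), (u : ℂ) * ((v : ℂ) * x.2))
    ext1 <;> simp [mul_assoc, mul_left_comm])

@[simp] lemma rotE_apply (u : ℂˣ) (x : ℂ × ℂ) : rotE u x = ((u : ℂ)⁻¹ * x.1, (u : ℂ) * x.2) := rfl

lemma iotaE_sq (x : ℂ × ℂ) : iotaE (iotaE x) = -x := by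
  ext1 <;> simp [← mul_assoc]

lemma iotaE_pow_two (x : ℂ × ℂ) : (iotaE ^ 2) x = -x := by
  rw [pow_two]; exact iotaE_sq x

lemma iotaE_pow_three (x : ℂ × ℂ) : (iotaE ^ 3) x = -(iotaE x) := by
  rw [pow_succ, pow_two]
  change iotaE (iotaE (iotaE x)) = _
  rw [iotaE_sq]

lemma iotaE_pow_four : iotaE ^ 4 = 1 := by
  have : iotaE ^ 4 = iotaE ^ 2 * iotaE ^ 2 := by rw [← pow_add]
  rw [this]
  refine ContinuousLinearEquiv.ext (funext fun x => ?_)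
  change (iotaE ^ 2) ((iotaE ^ 2) x) = x
  rw [iotaE_pow_two, iotaE_pow_two, neg_neg]

/-- the group of order four generated by `(ζ, w) ↦ (i w, i ζ)` -/
def Γ1 : Subgroup ((ℂ × ℂ) ≃L[ℝ] (ℂ × ℂ)) := Subgroup.zpowers iotaE

lemma mem_Γ1 {g : (ℂ × ℂ) ≃L[ℝ] (ℂ × ℂ)} : g ∈ Γ1 ↔ ∃ n : ℕ, n < 4 ∧ g = iotaE ^ n := by
  constructor
  · intro h
    obtain ⟨k, rfl⟩ := Subgroup.mem_zpowers_iff.1 h
    refine ⟨(k % 4).toNat, by omega, ?_⟩
    have h1 : iotaE ^ (4 : ℤ) = 1 := by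
      have := iotaE_pow_four
      exact_mod_cast this
    conv_lhs => rw [← Int.mul_ediv_add_emod k 4]
    rw [zpow_add, zpow_mul, h1, one_zpow, one_mul, ← zpow_natCast, Int.toNat_of_nonneg (by omega)]
  · rintro ⟨n, -, rfl⟩
    exact Subgroup.pow_mem _ (Subgroup.mem_zpowers _) n

lemma mem_Γ1_cases {g : (ℂ × ℂ) ≃L[ℝ] (ℂ × ℂ)} (hg : g ∈ Γ1) :
    g = 1 ∨ g = iotaE ∨ g = iotaE ^ 2 ∨ g = iotaE ^ 3 := by
  obtain ⟨n, hn, rfl⟩ := mem_Γ1.1 hg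
  interval_cases n
  · left; simp
  · right; left; simp
  · right; right; left; rfl
  · right; right; right; rfl

lemma Γ1_apply_cases {g : (ℂ × ℂ) ≃L[ℝ] (ℂ × ℂ)} (hg : g ∈ Γ1) :
    (∀ x, g x = x) ∨ (∀ x, g x = iotaE x) ∨ (∀ x, g x = -x) ∨ (∀ x, g x = -(iotaE x)) := by
  rcases mem_Γ1_cases hg with rfl | rfl | rfl | rfl
  · left; intro x; rfl
  · right; left; intro x; rfl
  · right; right; left; exact iotaE_pow_two
  · right; right; right; exact iotaE_pow_three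

lemma Γ1_finite : Finite Γ1 := by
  have h : (Γ1 : Set ((ℂ × ℂ) ≃L[ℝ] (ℂ × ℂ))) ⊆ (fun n : ℕ => iotaE ^ n) '' (Set.Iio 4) := by
    intro g hg
    obtain ⟨n, hn, rfl⟩ := mem_Γ1.1 hg
    exact ⟨n, hn, rfl⟩
  exact ((Set.finite_Iio 4).image _).subset h

lemma NN_iotaE (x : ℂ × ℂ) : NN (iotaE x) = NN x := by
  simp [NN]; ring

lemma NN_neg (x : ℂ × ℂ) : NN (-x) = NN x := by
  simp [NN]

lemma iotaE_free {x : ℂ × ℂ} (h : iotaE x = x) : x = 0 := by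
  have h1 : x = -x := by
    conv_rhs => rw [← iotaE_sq, h, h]
  exact self_eq_neg.1 h1

/-- the group of order `2k` of all `(ζ, w) ↦ (u⁻¹ ζ, u w)`, `u ^ (2k) = 1` -/
def Γ2 (k : ℕ) : Subgroup ((ℂ × ℂ) ≃L[ℝ] (ℂ × ℂ)) := (rootsOfUnity (2 * k) ℂ).map rotE

lemma mem_Γ2 {k : ℕ} (hk : 0 < k) {g : (ℂ × ℂ) ≃L[ℝ] (ℂ × ℂ)} :
    g ∈ Γ2 k ↔ ∃ u : ℂ, u ^ (2 * k) = 1 ∧ ∀ x : ℂ × ℂ, g x = (u⁻¹ * x.1, u * x.2) := by
  constructor
  · rintro ⟨u, hu, rfl⟩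
    refine ⟨u, ?_, fun x => rfl⟩
    have : u ^ (2 * k) = 1 := hu
    have h2 := congrArg Units.val this
    simpa using h2
  · rintro ⟨u, hu, h⟩
    have hu0 : u ≠ 0 := by
      rintro rfl
      rw [zero_pow (by omega)] at hu
      exact zero_ne_one hu
    refine ⟨Units.mk0 u hu0, ?_, ?_⟩
    · change (Units.mk0 u hu0) ^ (2 * k) = 1
      ext; simpa using hu
    · refine ContinuousLinearEquiv.ext (funext fun x => ?_)
      rw [h]; rfl

lemma Γ2_finite {k : ℕ} (hk : 0 < k) : Finite (Γ2 k) := by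
  have : NeZero (2 * k) := ⟨by omega⟩
  have : Finite (rootsOfUnity (2 * k) ℂ) := inferInstance
  have : (rootsOfUnity (2 * k) ℂ : Set ℂˣ).Finite := Set.toFinite _
  exact this.image rotE

lemma norm_of_pow {n : ℕ} (hn : n ≠ 0) {u : ℂ} (hu : u ^ n = 1) : ‖u‖ = 1 :=
  Complex.norm_eq_one_of_pow_eq_one hu hn

lemma NN_rot {u : ℂ} (hu : ‖u‖ = 1) (x : ℂ × ℂ) : NN (u⁻¹ * x.1, u * x.2) = NN x := by
  rw [NN_eq_norm, NN_eq_norm]; simp [hu]

/-- the lens space `L(4,1)` -/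
def Y1 : ClosedThreeManifold (ℂ × ℂ) ℝ := sphereQuot Γ1 Γ1_finite
  (fun g hg x => by
    rcases Γ1_apply_cases hg with h | h | h | h <;> rw [h]
    · exact NN_iotaE x
    · exact NN_neg x
    · rw [NN_neg]; exact NN_iotaE x)
  (fun g hg x hx h => by
    rcases mem_Γ1_cases hg with rfl | rfl | rfl | rfl
    · rfl
    · exact absurd (iotaE_free h) hx
    · rw [iotaE_pow_two] at h
      exact absurd (self_eq_neg.1 h.symm) hx
    · rw [iotaE_pow_three] at h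
      exact absurd (iotaE_free (x := x) (by
        have h2 := congrArg iotaE h
        rw [map_neg, iotaE_sq, neg_neg] at h2
        exact h2.symm)) hx)

lemma rot_free {k : ℕ} (hk : 0 < k) {g : (ℂ × ℂ) ≃L[ℝ] (ℂ × ℂ)} (hg : g ∈ Γ2 k) {x : ℂ × ℂ}
    (hx : x ≠ 0) (h : g x = x) : g = 1 := by
  obtain ⟨u, hu, hg'⟩ := (mem_Γ2 hk).1 hg
  have hu1 : u = 1 := by
    rw [hg'] at h
    by_cases h1 : x.1 = 0
    · have h2 : x.2 ≠ 0 := fun h' => hx (Prod.ext h1 h')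
      have := congrArg Prod.snd h
      simp only at this
      exact (mul_eq_right₀ h2).1 this
    · have := congrArg Prod.fst h
      simp only at this
      exact inv_eq_one.1 ((mul_eq_right₀ h1).1 this)
  refine ContinuousLinearEquiv.ext (funext fun y => ?_)
  rw [hg', hu1]; simp; rfl

/-- the lens space `S³ / {(u⁻¹ ζ, u w)}` -/
def Y2 (k : ℕ) (hk : 0 < k) : ClosedThreeManifold (ℂ × ℂ) ℝ := sphereQuot (Γ2 k) (Γ2_finite hk)
  (fun g hg x => by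
    obtain ⟨u, hu, h⟩ := (mem_Γ2 hk).1 hg
    rw [h]
    exact NN_rot (norm_of_pow (by omega) hu) x)
  (fun g hg x hx h => rot_free hk hg hx h)

lemma mem_Z1 {x : ℂ × ℂ} : x ∈ Y1.Z ↔ F0 x = 0 := Iff.rfl
lemma mem_Z2 {k : ℕ} {hk : 0 < k} {x : ℂ × ℂ} : x ∈ (Y2 k hk).Z ↔ F0 x = 0 := Iff.rfl
lemma mem_T1 {x v : ℂ × ℂ} : v ∈ Y1.T x ↔ fderiv ℝ F0 x v = 0 := Iff.rfl
lemma mem_T2 {k : ℕ} {hk : 0 < k} {x v : ℂ × ℂ} : v ∈ (Y2 k hk).T x ↔ fderiv ℝ F0 x v = 0 := Iff.rfl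

lemma same1 {x y : ℂ × ℂ} : Y1.Same x y ↔ y = x ∨ y = iotaE x ∨ y = -x ∨ y = -(iotaE x) := by
  constructor
  · rintro ⟨g, hg, rfl⟩
    rcases Γ1_apply_cases hg with h | h | h | h <;> rw [h] <;> simp
  · rintro (rfl | rfl | rfl | rfl)
    · exact ⟨1, one_mem _, rfl⟩
    · exact ⟨iotaE, Subgroup.mem_zpowers _, rfl⟩
    · exact ⟨iotaE ^ 2, Subgroup.pow_mem _ (Subgroup.mem_zpowers _) 2, iotaE_pow_two x⟩
    · exact ⟨iotaE ^ 3, Subgroup.pow_mem _ (Subgroup.mem_zpowers _) 3, iotaE_pow_three x⟩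

lemma same2 {k : ℕ} {hk : 0 < k} {x y : ℂ × ℂ} : (Y2 k hk).Same x y ↔
    ∃ u : ℂ, u ^ (2 * k) = 1 ∧ y = (u⁻¹ * x.1, u * x.2) := by
  constructor
  · rintro ⟨g, hg, rfl⟩
    obtain ⟨u, hu, h⟩ := (mem_Γ2 hk).1 hg
    exact ⟨u, hu, h x⟩
  · rintro ⟨u, hu, rfl⟩
    have hu0 : u ≠ 0 := by
      rintro rfl
      rw [zero_pow (by omega)] at hu
      exact zero_ne_one hu
    exact ⟨rotE (Units.mk0 u hu0), (mem_Γ2 hk).2 ⟨u, hu, fun x => rfl⟩, rfl⟩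

lemma α0_iota (x v : ℂ × ℂ) : α0 (iotaE x) (iotaE v) = α0 x v := by
  rw [α0_apply, α0_apply]; simp; ring

lemma α0_neg (x v : ℂ × ℂ) : α0 (-x) (-v) = α0 x v := by
  rw [α0_apply, α0_apply]; simp

lemma α0_neg' (x v : ℂ × ℂ) : α0 (-x) v = -(α0 x v) := by
  rw [α0_apply, α0_apply]; simp; ring

lemma α0_rot {u : ℂ} (hu : ‖u‖ = 1) (x v : ℂ × ℂ) :
    α0 (u⁻¹ * x.1, u * x.2) (u⁻¹ * v.1, u * v.2) = α0 x v := by
  have hu' : u⁻¹ = (starRingEnd ℂ) u := by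
    rw [Complex.inv_def, Complex.normSq_eq_norm_sq, hu]; simp
  have h1 : u.re ^ 2 + u.im ^ 2 = 1 := by
    have := Complex.normSq_apply u
    rw [Complex.normSq_eq_norm_sq, hu] at this
    linarith
  rw [hu', α0_apply, α0_apply]
  simp
  have e1 : (u.re * x.2.re - u.im * x.2.im) ^ 2 + (u.re * x.2.im + u.im * x.2.re) ^ 2 =
      x.2.re ^ 2 + x.2.im ^ 2 := by linear_combination (x.2.re ^ 2 + x.2.im ^ 2) * h1
  have e2 : (u.re * x.1.re + u.im * x.1.im) ^ 2 + (u.re * x.1.im + -(u.im * x.1.re)) ^ 2 =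
      x.1.re ^ 2 + x.1.im ^ 2 := by linear_combination (x.1.re ^ 2 + x.1.im ^ 2) * h1
  rw [e1, e2]
  linear_combination (((x.2.re ^ 2 + x.2.im ^ 2) - 3 * (x.1.re ^ 2 + x.1.im ^ 2)) *
    (x.2.re * v.2.im - x.2.im * v.2.re) +
  ((x.1.re ^ 2 + x.1.im ^ 2) - 3 * (x.2.re ^ 2 + x.2.im ^ 2)) *
    (x.1.re * v.1.im - x.1.im * v.1.re)) * h1

lemma α0_ne_zero {x : ℂ × ℂ} (hx : F0 x = 0) : ∃ v, fderiv ℝ F0 x v = 0 ∧ α0 x v ≠ 0 := by
  by_contra hcon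
  push Not at hcon
  have hN := NN_eq_one hx
  have h1 := cr_ci_kk x
  rw [hN] at h1
  have a1 := hcon _ (fr_tangent 1 0 0 x)
  have a2 := hcon _ (fr_tangent 0 1 0 x)
  have a3 := hcon _ (fr_tangent 0 0 1 x)
  rw [α0_fr, hN] at a1 a2 a3
  have b1 : 2 * kk x ^ 2 = 1 := by linarith
  have b2 : kk x * ci x = 0 := by linarith
  have b3 : kk x * cr x = 0 := by linarith
  have hk0 : kk x ≠ 0 := by rintro h; rw [h] at b1; norm_num at b1
  have c2 : ci x = 0 := (mul_eq_zero.1 b2).resolve_left hk0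
  have c3 : cr x = 0 := (mul_eq_zero.1 b3).resolve_left hk0
  rw [c2, c3] at h1
  nlinarith

/-- the contact form on `Y1` -/
def C1 : ContactForm Y1 where
  α := α0
  smooth := α0_smooth
  invariant := fun g hg x _ v _ => by
    rcases Γ1_apply_cases hg with h | h | h | h <;> rw [h, h]
    · exact α0_iota x v
    · exact α0_neg x v
    · rw [α0_neg]; exact α0_iota x v
  ne_zero := fun x hx => by
    obtain ⟨v, hv, h⟩ := α0_ne_zero (mem_Z1.1 hx)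
    exact ⟨v, hv, h⟩
  nondegenerate := fun x hx u hu h0 h =>
    contact_nondegenerate (mem_Z1.1 hx) hu h0 (fun v hv => h v hv)

/-- the contact form on `Y2 k` -/
def C2 (k : ℕ) (hk : 0 < k) : ContactForm (Y2 k hk) where
  α := α0
  smooth := α0_smooth
  invariant := fun g hg x _ v _ => by
    obtain ⟨u, hu, h⟩ := (mem_Γ2 hk).1 hg
    rw [h, h]
    exact α0_rot (norm_of_pow (by omega) hu) x v
  ne_zero := fun x hx => by
    obtain ⟨v, hv, h⟩ := α0_ne_zero (mem_Z2.1 hx)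
    exact ⟨v, hv, h⟩
  nondegenerate := fun x hx u hu h0 h =>
    contact_nondegenerate (mem_Z2.1 hx) hu h0 (fun v hv => h v hv)

end Run7.h141
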