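import Pool.Agent.Run7.h141.Fill6

/-! # The weak filling and the main theorem -/

open scoped ContDiff Topology
open Set

noncomputable section

namespace Run7.h141

lemma extD2_const (c : VV →L[ℝ] VV →L[ℝ] ℝ) (p u v w : VV) :
    extD2 (fun _ => c) p u v w = 0 := by
  have h : fderiv ℝ (fun _ : VV => c) p = 0 := fderiv_const_apply c
  simp [extD2, h]

/-- The weak symplectic filling of `Y1`. -/
def filling : WeakFilling C1 VV ℂ where
  f := ff
  ρ := rho
  Ω := fun _ => Om0
  Φ := Phi
  finiteDimensional := inferInstance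
  smooth_f := ff_smooth
  regular_f := ff_regular
  dim := finrank_VV
  smooth_ρ := rho_smooth
  compact := W_compact
  regular_ρ := rho_regular
  smooth_Ω := contDiff_const
  alternating := fun _ v => Om0_self v
  closed := fun p _ _ u v w _ _ _ => extD2_const Om0 p u v w
  nondegenerate := fun p _ _ u hu h => by
    by_contra hne
    exact (Om0_I_pos hne).ne' (h _ (ff_I hu))
  smooth_Φ := fun x hx => contDiffAt_Phi (ne_zero_of_F0 hx)
  boundary := boundary_iff
  same := fun x hx y hy => Phi_same hx hy
  immersion := fun x hx v hv h => Phi_immersion hx hv h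
  orientation := fun x hx n h1 h2 u hu v hv w hw h => by
    obtain ⟨p, q, r, rfl⟩ := exists_fr hx hu
    obtain ⟨p', q', r', rfl⟩ := exists_fr hx hv
    obtain ⟨p'', q'', r'', rfl⟩ := exists_fr hx hw
    have h' : 0 < wedge12 (α0 x) (extD α0 x) (fr p q r x) (fr p' q' r' x) (fr p'' q'' r'' x) := h
    rw [vol_α0_fr _ _ _ _ _ _ _ _ _ hx] at h'
    rw [fderiv_Phi_fr hx, fderiv_Phi_fr hx, fderiv_Phi_fr hx, halfSquare_E]
    have h3 := orient_aux hx h1 h2
    have h4 : (p * (q' * r'' - r' * q'') - q * (p' * r'' - r' * p'') +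
        r * (p' * q'' - q' * p'')) < 0 := by
      by_contra hcon
      push Not at hcon
      have : 0 ≤ (2 + 4 * kk x ^ 2) * (p * (q' * r'' - r' * q'') - q * (p' * r'' - r' * p'') +
        r * (p' * q'' - q' * p'')) := mul_nonneg (by positivity) hcon
      linarith
    exact mul_pos_of_neg_of_neg h4 h3
  taming := fun x hx u hu v hv h1 h2 h3 => taming_aux hx hu hv h1 h2 h3

/-- **Main theorem.**  There is a closed contact 3-manifold `(Y, ker α)` supported by a rational open
book with connected binding (a rationally fibered knot), which has a weak symplectic filling, and all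
of whose cyclic branched covers of even order along the binding, with the contact structures
supported by the pulled-back rational open books, are overtwisted. -/
theorem main :
    ∃ (Y : ClosedThreeManifold (ℂ × ℂ) ℝ) (C : ContactForm Y) (B : RationalOpenBook Y Unit),
      Supports C B ∧ Nonempty (WeakFilling C (ℂ × ℂ × ℂ) ℂ) ∧
      ∀ k : ℕ, 0 < k →
        ∃ (Y' : ClosedThreeManifold (ℂ × ℂ) ℝ) (C' : ContactForm Y')
          (B' : RationalOpenBook Y' (Fin 2)) (P : ℂ × ℂ → ℂ × ℂ),
          Supports C' B' ∧ IsCyclicBranchedCover (2 * k) C B C' B' P ∧ Overtwisted C' :=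
  ⟨Y1, C1, B1, supports1, ⟨filling⟩, fun k hk =>
    ⟨Y2 k hk, C2 k hk, B2 k hk, PP k, supports2 k hk, isCyclicBranchedCover k hk,
      overtwisted2 k hk⟩⟩

end Run7.h141
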