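import Pool.Agent.Run7.h141.S3

/-! # Quotients of the 3-sphere -/

open scoped ContDiff Topology
open Set

noncomputable section

namespace Run7.h141

lemma finrank_C2 : Module.finrank ℝ (ℂ × ℂ) = 4 := by
  rw [Module.finrank_prod, Complex.finrank_real_complex]

lemma F0_regular (x : ℂ × ℂ) (hx : F0 x = 0) : Function.Surjective (fderiv ℝ F0 x) := by
  intro r
  refine ⟨(r / 2) • x, ?_⟩
  rw [map_smul, fderiv_F0]
  have := NN_eq_one hx
  simp only [NN] at this
  simp only [smul_eq_mul]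
  linear_combination r * this

lemma F0_continuous : Continuous F0 := F0_smooth.continuous

lemma norm_sq_fst (x : ℂ × ℂ) : ‖x.1‖ ^ 2 = x.1.re ^ 2 + x.1.im ^ 2 := by
  rw [← Complex.normSq_eq_norm_sq, Complex.normSq_apply]; ring

lemma norm_sq_snd (x : ℂ × ℂ) : ‖x.2‖ ^ 2 = x.2.re ^ 2 + x.2.im ^ 2 := by
  rw [← Complex.normSq_eq_norm_sq, Complex.normSq_apply]; ring

lemma NN_eq_norm (x : ℂ × ℂ) : NN x = ‖x.1‖ ^ 2 + ‖x.2‖ ^ 2 := by
  rw [norm_sq_fst, norm_sq_snd, NN]

lemma F0_eq_NN (x : ℂ × ℂ) : F0 x = NN x - 1 := by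
  rw [F0_eq, NN]; simp; ring

lemma F0_compact : IsCompact {x : ℂ × ℂ | F0 x = 0} := by
  refine Metric.isCompact_of_isClosed_isBounded (isClosed_eq F0_continuous continuous_const) ?_
  rw [isBounded_iff_forall_norm_le]
  refine ⟨1, fun x hx => ?_⟩
  have h : NN x = 1 := NN_eq_one hx
  rw [NN_eq_norm] at h
  rw [Prod.norm_def]
  refine max_le ?_ ?_ <;> nlinarith [norm_nonneg x.1, norm_nonneg x.2]

lemma NN_pos {x : ℂ × ℂ} (hx : x ≠ 0) : 0 < NN x := by
  rw [NN_eq_norm]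
  by_cases h : x.1 = 0
  · have h2 : x.2 ≠ 0 := fun h' => hx (Prod.ext h h')
    have := norm_pos_iff.2 h2
    positivity
  · have := norm_pos_iff.2 h
    positivity

lemma NN_continuous : Continuous NN := by
  have : NN = fun x => F0 x + 1 := by funext x; rw [F0_eq_NN]; ring
  rw [this]; exact F0_continuous.add continuous_const

lemma NN_smul (r : ℝ) (x : ℂ × ℂ) : NN (r • x) = r ^ 2 * NN x := by
  simp [NN]; ring

lemma F0_connected : IsConnected {x : ℂ × ℂ | F0 x = 0} := by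
  have h1 : IsConnected ({(0 : ℂ × ℂ)}ᶜ : Set (ℂ × ℂ)) := by
    apply isConnected_compl_singleton_of_one_lt_rank
    rw [← Module.finrank_eq_rank, finrank_C2]
    norm_num
  have h2 : ContinuousOn (fun x : ℂ × ℂ => (√(NN x))⁻¹ • x) ({(0 : ℂ × ℂ)}ᶜ) := by
    intro x hx
    apply ContinuousAt.continuousWithinAt
    have hp := NN_pos hx
    have hc : ContinuousAt (fun x : ℂ × ℂ => √(NN x)) x :=
      (Real.continuous_sqrt.comp NN_continuous).continuousAt
    have hc' : ContinuousAt (fun x : ℂ × ℂ => (√(NN x))⁻¹) x :=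
      hc.inv₀ (Real.sqrt_pos.2 hp).ne'
    exact hc'.smul continuousAt_id
  have h3 := h1.image _ h2
  convert h3
  ext x
  constructor
  · intro hx
    have h : NN x = 1 := NN_eq_one hx
    refine ⟨x, ?_, ?_⟩
    · rintro rfl
      simp [NN] at h
    · simp [h]
  · rintro ⟨y, hy, rfl⟩
    have hp := NN_pos hy
    simp only [Set.mem_ofPred_eq]
    rw [F0_eq_NN, NN_smul, inv_pow, Real.sq_sqrt hp.le, inv_mul_cancel₀ hp.ne', sub_self]

/-- the quotient of the 3-sphere by a finite group of automorphisms acting freely -/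
def sphereQuot (Γ : Subgroup ((ℂ × ℂ) ≃L[ℝ] (ℂ × ℂ))) (hf : Finite Γ)
    (hi : ∀ g ∈ Γ, ∀ x, NN (g x) = NN x) (hfree : ∀ g ∈ Γ, ∀ x, x ≠ 0 → g x = x → g = 1) :
    ClosedThreeManifold (ℂ × ℂ) ℝ where
  F := F0
  Γ := Γ
  finiteDimensional := inferInstance
  smooth := F0_smooth
  regular := F0_regular
  dim := by rw [finrank_C2, Module.finrank_self]
  compact := F0_compact
  connected := F0_connected
  finite := hf
  invariant := fun g hg x hx => by rw [F0_eq_NN, hi g hg, ← F0_eq_NN, hx]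
  free := fun g hg x hx h => by
    refine hfree g hg x ?_ h
    rintro rfl
    simp [F0] at hx

lemma contact_nondegenerate {x u : ℂ × ℂ} (hx : F0 x = 0) (hu : fderiv ℝ F0 x u = 0)
    (h0 : α0 x u = 0)
    (h : ∀ v, fderiv ℝ F0 x v = 0 → α0 x v = 0 → extD α0 x u v = 0) : u = 0 := by
  obtain ⟨p, q, r, rfl⟩ := exists_fr hx hu
  have hN := NN_eq_one hx
  have h1 := cr_ci_kk x
  rw [hN] at h1
  rw [α0_fr, hN] at h0
  set k := kk x with hk
  set a := cr x with ha
  set b := ci x with hb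
  -- v = A × (p, q, r), A = (2 k² - 1, 2 k b, - 2 k a)
  have h2 := h (fr ((2 * k * b) * r - (-2 * k * a) * q) ((-2 * k * a) * p - (2 * k ^ 2 - 1) * r)
    ((2 * k ^ 2 - 1) * q - (2 * k * b) * p) x) (fr_tangent _ _ _ _)
    (by rw [α0_fr, hN, ← hk, ← ha, ← hb]; ring)
  rw [extD_α0_fr, hN, ← hk, ← ha, ← hb] at h2
  have h3 : (2 + 4 * k ^ 2) * (p ^ 2 + q ^ 2 + r ^ 2) = 0 := by
    have e1 : b ^ 2 = 1 - k ^ 2 - a ^ 2 := by linarith
    have h0' : p * (2 * k ^ 2 - 1) + 2 * k * (q * b - r * a) = 0 := by linarith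
    have h4 : (q * ((2 * k ^ 2 - 1) * q - 2 * k * b * p) - r * (-2 * k * a * p - (2 * k ^ 2 - 1) * r)) *
        (2 - 8 * k ^ 2) +
        (p * (-2 * k * a * p - (2 * k ^ 2 - 1) * r) - q * (2 * k * b * r - -2 * k * a * q)) * (8 * k * a) +
        (p * ((2 * k ^ 2 - 1) * q - 2 * k * b * p) - r * (2 * k * b * r - -2 * k * a * q)) * (8 * k * b)
        = 0 := by linarith
    linear_combination (-1) * h4 - (p * (2 - 8 * k ^ 2) + q * (-8 * k * b) + r * (8 * k * a)) * h0' +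
      (-16 * k ^ 2 * (p ^ 2 + q ^ 2 + r ^ 2)) * e1
  have h5 : p ^ 2 + q ^ 2 + r ^ 2 = 0 := by
    rcases mul_eq_zero.1 h3 with h | h
    · nlinarith [sq_nonneg k]
    · exact h
  have hp : p = 0 := by nlinarith [sq_nonneg p, sq_nonneg q, sq_nonneg r]
  have hq : q = 0 := by nlinarith [sq_nonneg p, sq_nonneg q, sq_nonneg r]
  have hr : r = 0 := by nlinarith [sq_nonneg p, sq_nonneg q, sq_nonneg r]
  subst hp; subst hq; subst hr
  simp [fr]
  rfl

end Run7.h141
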