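import Pool.Agent.Run7.h141.Defs

/-! # The 3-sphere and the basic contact form -/

open scoped ContDiff Topology
open Set

noncomputable section

namespace Run7.h141

/-- coordinate functionals -/
def re1 : ℂ × ℂ →L[ℝ] ℝ := Complex.reCLM.comp (ContinuousLinearMap.fst ℝ ℂ ℂ)
def im1 : ℂ × ℂ →L[ℝ] ℝ := Complex.imCLM.comp (ContinuousLinearMap.fst ℝ ℂ ℂ)
def re2 : ℂ × ℂ →L[ℝ] ℝ := Complex.reCLM.comp (ContinuousLinearMap.snd ℝ ℂ ℂ)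
def im2 : ℂ × ℂ →L[ℝ] ℝ := Complex.imCLM.comp (ContinuousLinearMap.snd ℝ ℂ ℂ)

@[simp] lemma re1_apply (x : ℂ × ℂ) : re1 x = x.1.re := rfl
@[simp] lemma im1_apply (x : ℂ × ℂ) : im1 x = x.1.im := rfl
@[simp] lemma re2_apply (x : ℂ × ℂ) : re2 x = x.2.re := rfl
@[simp] lemma im2_apply (x : ℂ × ℂ) : im2 x = x.2.im := rfl

/-- the function defining the unit sphere of `ℂ²` -/
def F0 (x : ℂ × ℂ) : ℝ := Complex.normSq x.1 + Complex.normSq x.2 - 1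

lemma F0_eq (x : ℂ × ℂ) : F0 x = re1 x ^ 2 + im1 x ^ 2 + re2 x ^ 2 + im2 x ^ 2 - 1 := by
  simp [F0, Complex.normSq_apply]; ring

lemma F0_smooth : ContDiff ℝ ∞ F0 := by
  have : F0 = fun x => re1 x ^ 2 + im1 x ^ 2 + re2 x ^ 2 + im2 x ^ 2 - 1 := funext F0_eq
  rw [this]; fun_prop

lemma fderiv_F0 (x v : ℂ × ℂ) : fderiv ℝ F0 x v =
    2 * (x.1.re * v.1.re + x.1.im * v.1.im + x.2.re * v.2.re + x.2.im * v.2.im) := by
  have h : F0 = fun x => re1 x ^ 2 + im1 x ^ 2 + re2 x ^ 2 + im2 x ^ 2 - 1 := funext F0_eq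
  have a1 : HasFDerivAt re1 re1 x := re1.hasFDerivAt
  have b1 : HasFDerivAt im1 im1 x := im1.hasFDerivAt
  have a2 : HasFDerivAt re2 re2 x := re2.hasFDerivAt
  have b2 : HasFDerivAt im2 im2 x := im2.hasFDerivAt
  have h1 := ((((a1.pow 2).add (b1.pow 2)).add (a2.pow 2)).add (b2.pow 2)).sub_const 1
  rw [h]
  erw [h1.fderiv]
  simp
  ring

/-- the contact form -/
def α0 (x : ℂ × ℂ) : ℂ × ℂ →L[ℝ] ℝ :=
  ((re2 x ^ 2 + im2 x ^ 2) - 3 * (re1 x ^ 2 + im1 x ^ 2)) • (re2 x • im2 - im2 x • re2) +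
  ((re1 x ^ 2 + im1 x ^ 2) - 3 * (re2 x ^ 2 + im2 x ^ 2)) • (re1 x • im1 - im1 x • re1)

lemma α0_apply (x v : ℂ × ℂ) : α0 x v =
  ((x.2.re ^ 2 + x.2.im ^ 2) - 3 * (x.1.re ^ 2 + x.1.im ^ 2)) *
    (x.2.re * v.2.im - x.2.im * v.2.re) +
  ((x.1.re ^ 2 + x.1.im ^ 2) - 3 * (x.2.re ^ 2 + x.2.im ^ 2)) *
    (x.1.re * v.1.im - x.1.im * v.1.re) := by
  simp [α0]

lemma α0_smooth : ContDiff ℝ ∞ α0 := by
  unfold α0; fun_prop

lemma fderiv_α0 (x u v : ℂ × ℂ) : fderiv ℝ α0 x u v =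
  (2 * (x.2.re * u.2.re + x.2.im * u.2.im) - 6 * (x.1.re * u.1.re + x.1.im * u.1.im)) *
    (x.2.re * v.2.im - x.2.im * v.2.re) +
  ((x.2.re ^ 2 + x.2.im ^ 2) - 3 * (x.1.re ^ 2 + x.1.im ^ 2)) *
    (u.2.re * v.2.im - u.2.im * v.2.re) +
  (2 * (x.1.re * u.1.re + x.1.im * u.1.im) - 6 * (x.2.re * u.2.re + x.2.im * u.2.im)) *
    (x.1.re * v.1.im - x.1.im * v.1.re) +
  ((x.1.re ^ 2 + x.1.im ^ 2) - 3 * (x.2.re ^ 2 + x.2.im ^ 2)) *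
    (u.1.re * v.1.im - u.1.im * v.1.re) := by
  have hd : DifferentiableAt ℝ α0 x := (α0_smooth.differentiable (by simp)).differentiableAt
  have h1 : fderiv ℝ α0 x u v = fderiv ℝ (fun y => α0 y v) x u := by
    rw [fderiv_clm_apply hd (differentiableAt_const v)]
    simp
  have h2 : (fun y => α0 y v) = fun y =>
      ((re2 y ^ 2 + im2 y ^ 2) - 3 * (re1 y ^ 2 + im1 y ^ 2)) * (re2 y * v.2.im - im2 y * v.2.re) +
      ((re1 y ^ 2 + im1 y ^ 2) - 3 * (re2 y ^ 2 + im2 y ^ 2)) * (re1 y * v.1.im - im1 y * v.1.re) := by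
    funext y; rw [α0_apply]; simp
  have a1 : HasFDerivAt re1 re1 x := re1.hasFDerivAt
  have b1 : HasFDerivAt im1 im1 x := im1.hasFDerivAt
  have a2 : HasFDerivAt re2 re2 x := re2.hasFDerivAt
  have b2 : HasFDerivAt im2 im2 x := im2.hasFDerivAt
  have h3 := ((((a2.pow 2).add (b2.pow 2)).sub (((a1.pow 2).add (b1.pow 2)).const_mul 3)).mul
      ((a2.mul_const v.2.im).sub (b2.mul_const v.2.re))).add
      ((((a1.pow 2).add (b1.pow 2)).sub (((a2.pow 2).add (b2.pow 2)).const_mul 3)).mul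
      ((a1.mul_const v.1.im).sub (b1.mul_const v.1.re)))
  rw [h1, h2]
  erw [h3.fderiv]
  simp
  ring

lemma extD_α0 (x u v : ℂ × ℂ) : extD α0 x u v =
  (4 * (x.2.re ^ 2 + x.2.im ^ 2) - 6 * (x.1.re ^ 2 + x.1.im ^ 2)) *
    (u.2.re * v.2.im - u.2.im * v.2.re) +
  (4 * (x.1.re ^ 2 + x.1.im ^ 2) - 6 * (x.2.re ^ 2 + x.2.im ^ 2)) *
    (u.1.re * v.1.im - u.1.im * v.1.re) -
  6 * ((x.1.re * u.1.re + x.1.im * u.1.im) * (x.2.re * v.2.im - x.2.im * v.2.re) -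
    (x.1.re * v.1.re + x.1.im * v.1.im) * (x.2.re * u.2.im - x.2.im * u.2.re)) -
  6 * ((x.2.re * u.2.re + x.2.im * u.2.im) * (x.1.re * v.1.im - x.1.im * v.1.re) -
    (x.2.re * v.2.re + x.2.im * v.2.im) * (x.1.re * u.1.im - x.1.im * u.1.re)) := by
  rw [extD, fderiv_α0, fderiv_α0]
  ring

/-! ### The frame -/

/-- the frame `i x, j x, k x` of the sphere, and the vector with coordinates `(p, q, r)` -/
def fr (p q r : ℝ) (x : ℂ × ℂ) : ℂ × ℂ :=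
  (⟨-p * x.1.im - q * x.2.re - r * x.2.im, p * x.1.re + q * x.2.im - r * x.2.re⟩,
   ⟨-p * x.2.im + q * x.1.re + r * x.1.im, p * x.2.re - q * x.1.im + r * x.1.re⟩)

/-- `|x₁|² - |x₂|²` -/
def kk (x : ℂ × ℂ) : ℝ := (x.1.re ^ 2 + x.1.im ^ 2) - (x.2.re ^ 2 + x.2.im ^ 2)
/-- real part of `2 x₁ x₂` -/
def cr (x : ℂ × ℂ) : ℝ := 2 * (x.1.re * x.2.re - x.1.im * x.2.im)
/-- imaginary part of `2 x₁ x₂` -/
def ci (x : ℂ × ℂ) : ℝ := 2 * (x.1.re * x.2.im + x.1.im * x.2.re)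
/-- `|x|²` -/
def NN (x : ℂ × ℂ) : ℝ := (x.1.re ^ 2 + x.1.im ^ 2) + (x.2.re ^ 2 + x.2.im ^ 2)

lemma cr_ci_kk (x : ℂ × ℂ) : cr x ^ 2 + ci x ^ 2 + kk x ^ 2 = NN x ^ 2 := by
  simp only [cr, ci, kk, NN]; ring

lemma NN_eq_one {x : ℂ × ℂ} (hx : F0 x = 0) : NN x = 1 := by
  rw [F0_eq] at hx
  simp only [NN, re1_apply, im1_apply, re2_apply, im2_apply] at *
  linarith

lemma fr_tangent (p q r : ℝ) (x : ℂ × ℂ) : fderiv ℝ F0 x (fr p q r x) = 0 := by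
  rw [fderiv_F0]; simp only [fr]; ring

/-- coordinates of a tangent vector in the frame -/
def c1 (x v : ℂ × ℂ) : ℝ :=
  -x.1.im * v.1.re + x.1.re * v.1.im - x.2.im * v.2.re + x.2.re * v.2.im
def c2 (x v : ℂ × ℂ) : ℝ :=
  -x.2.re * v.1.re + x.2.im * v.1.im + x.1.re * v.2.re - x.1.im * v.2.im
def c3 (x v : ℂ × ℂ) : ℝ :=
  -x.2.im * v.1.re - x.2.re * v.1.im + x.1.im * v.2.re + x.1.re * v.2.im

lemma fr_decomp {x v : ℂ × ℂ} (hx : F0 x = 0) (hv : fderiv ℝ F0 x v = 0) :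
    v = fr (c1 x v) (c2 x v) (c3 x v) x := by
  have h1 := NN_eq_one hx
  rw [fderiv_F0] at hv
  simp only [NN] at h1
  apply Prod.ext <;> apply Complex.ext <;> simp only [fr, c1, c2, c3]
  · linear_combination (-v.1.re) * h1 + (x.1.re / 2) * hv
  · linear_combination (-v.1.im) * h1 + (x.1.im / 2) * hv
  · linear_combination (-v.2.re) * h1 + (x.2.re / 2) * hv
  · linear_combination (-v.2.im) * h1 + (x.2.im / 2) * hv

lemma exists_fr {x v : ℂ × ℂ} (hx : F0 x = 0) (hv : fderiv ℝ F0 x v = 0) :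
    ∃ p q r, v = fr p q r x := ⟨_, _, _, fr_decomp hx hv⟩

lemma α0_fr (p q r : ℝ) (x : ℂ × ℂ) : α0 x (fr p q r x) =
    p * (2 * kk x ^ 2 - NN x ^ 2) + 2 * kk x * (q * ci x - r * cr x) := by
  rw [α0_apply]; simp only [fr, kk, NN, ci, cr]; ring

lemma extD_α0_fr (p q r p' q' r' : ℝ) (x : ℂ × ℂ) :
    extD α0 x (fr p q r x) (fr p' q' r' x) =
    (q * r' - r * q') * (2 * NN x ^ 2 - 8 * kk x ^ 2) + (p * q' - q * p') * (8 * kk x * cr x) +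
      (p * r' - r * p') * (8 * kk x * ci x) := by
  rw [extD_α0]; simp only [fr, kk, NN, ci, cr]; ring

lemma vol_α0_fr (p q r p' q' r' p'' q'' r'' : ℝ) {x : ℂ × ℂ} (hx : F0 x = 0) :
    wedge12 (α0 x) (extD α0 x) (fr p q r x) (fr p' q' r' x) (fr p'' q'' r'' x) =
    -(2 + 4 * kk x ^ 2) * (p * (q' * r'' - r' * q'') - q * (p' * r'' - r' * p'') +
      r * (p' * q'' - q' * p'')) := by
  have h1 := cr_ci_kk x
  rw [NN_eq_one hx] at h1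
  have h2 : cr x ^ 2 = 1 - kk x ^ 2 - ci x ^ 2 := by linarith
  rw [wedge12, α0_fr, α0_fr, α0_fr, extD_α0_fr, extD_α0_fr, extD_α0_fr, NN_eq_one hx]
  ring_nf
  simp only [h2]
  ring

end Run7.h141
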