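import Pool.Agent.Run7.h141.Book

/-! # The contact forms are supported by the open books -/

open scoped ContDiff Topology
open Set

noncomputable section

namespace Run7.h141

lemma binding_aux {x t d1 d2 : ℂ × ℂ} (hF : F0 x = 0) {c e : ℝ} (hc : 0 < c)
    (ht : t = fr c 0 0 x) (h1 : d1 = fr 0 (-e) 0 x) (h2 : d2 = fr 0 0 e x) (he : e ≠ 0)
    (hk : kk x ^ 2 = 1) :
    0 < α0 x t * wedge12 (α0 x) (extD α0 x) t d1 d2 := by
  subst ht h1 h2
  rw [vol_α0_fr _ _ _ _ _ _ _ _ _ hF, α0_fr, NN_eq_one hF, hk]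
  have : 0 < c ^ 2 * e ^ 2 := by positivity
  nlinarith

lemma ex_normSq (k : ℕ) (φ : ℝ) : (ex k φ).re ^ 2 + (ex k φ).im ^ 2 = 1 := by
  rw [sq_add_sq, norm_ex]; norm_num

lemma binding1 {k : ℕ} (hk : 0 < k) (φ : ℝ) : 0 <
    α0 (tube1 k (φ, 0)) (fderiv ℝ (tube1 k) (φ, 0) (1, 0)) *
    wedge12 (α0 (tube1 k (φ, 0))) (extD α0 (tube1 k (φ, 0)))
      (fderiv ℝ (tube1 k) (φ, 0) (1, 0))
      (fderiv ℝ (tube1 k) (φ, 0) (0, 1)) (fderiv ℝ (tube1 k) (φ, 0) (0, Complex.I)) := by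
  have hn : ‖((φ, 0) : ℝ × ℂ).2‖ < 1 := by simp
  have hF := F0_tube1 k hn
  have hpk : 0 < Real.pi / k := div_pos Real.pi_pos (by exact_mod_cast hk)
  have hR : Rt 0 = 1 := by simp [Rt]
  refine binding_aux (c := Real.pi / k) (e := 1 / 2) hF hpk ?_ ?_ ?_ (by norm_num) ?_
  · rw [fderiv_tube1 k hn, tube1_zero]
    simp only [fderiv_Rt_zero, hR]
    ext1
    · apply Complex.ext <;> simp [fr]
    · apply Complex.ext <;> simp [fr]
  · rw [fderiv_tube1 k hn, tube1_zero]
    simp only [fderiv_Rt_zero, hR]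
    ext1
    · apply Complex.ext <;> simp [fr]
    · apply Complex.ext <;> simp [fr]
  · rw [fderiv_tube1 k hn, tube1_zero]
    simp only [fderiv_Rt_zero, hR]
    ext1
    · apply Complex.ext <;> simp [fr]
    · apply Complex.ext <;> simp [fr]
  · rw [tube1_zero]
    have := ex_normSq k φ
    simp only [kk, Complex.zero_re, Complex.zero_im]
    rw [this]; norm_num

lemma binding2 {k : ℕ} (hk : 0 < k) (φ : ℝ) : 0 <
    α0 (tube2 k (φ, 0)) (fderiv ℝ (tube2 k) (φ, 0) (1, 0)) *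
    wedge12 (α0 (tube2 k (φ, 0))) (extD α0 (tube2 k (φ, 0)))
      (fderiv ℝ (tube2 k) (φ, 0) (1, 0))
      (fderiv ℝ (tube2 k) (φ, 0) (0, 1)) (fderiv ℝ (tube2 k) (φ, 0) (0, Complex.I)) := by
  have hn : ‖((φ, 0) : ℝ × ℂ).2‖ < 1 := by simp
  have hF := F0_tube2 k hn
  have hpk : 0 < Real.pi / k := div_pos Real.pi_pos (by exact_mod_cast hk)
  have hR : Rt 0 = 1 := by simp [Rt]
  refine binding_aux (c := Real.pi / k) (e := -(1 / 2)) hF hpk ?_ ?_ ?_ (by norm_num) ?_
  · rw [fderiv_tube2 k hn, tube2_zero]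
    simp only [fderiv_Rt_zero, hR]
    ext1
    · apply Complex.ext <;> simp [fr]
    · apply Complex.ext <;> simp [fr]
  · rw [fderiv_tube2 k hn, tube2_zero]
    simp only [fderiv_Rt_zero, hR]
    ext1
    · apply Complex.ext <;> simp [fr]
    · apply Complex.ext <;> simp [fr]
  · rw [fderiv_tube2 k hn, tube2_zero]
    simp only [fderiv_Rt_zero, hR]
    ext1
    · apply Complex.ext <;> simp [fr]
    · apply Complex.ext <;> simp [fr]
  · rw [tube2_zero]
    have := ex_normSq k φ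
    simp only [kk, Complex.zero_re, Complex.zero_im]
    rw [this]; norm_num

/-- The contact form on `Y2 k` is adapted to the open book. -/
theorem supports2 (k : ℕ) (hk : 0 < k) : Supports (C2 k hk) (B2 k hk) where
  pages := fun x hx u hu v hv w hw h1 h2 h3 h4 =>
    pages_aux (not_mem_KK.1 hx).1 (not_mem_KK.1 hx).2 hu hv hw h1 h2 h3 h4
  binding := fun i φ => by
    fin_cases i
    · exact binding1 hk φ
    · exact binding2 hk φ

lemma dθ1_eq {x : ℂ × ℂ} (hx : x.1 * x.2 ≠ 0) (v : ℂ × ℂ) :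
    ((starRingEnd ℂ) (qq x ^ 2) * fderiv ℝ (fun x => qq x ^ 2) x v).im =
      2 * ((starRingEnd ℂ) (qq x) * fderiv ℝ qq x v).im := by
  have hq : HasFDerivAt qq (fderiv ℝ qq x) x :=
    ((contDiffAt_qq hx).differentiableAt (by simp)).hasFDerivAt
  have h2 := hq.pow 2
  erw [h2.fderiv]
  have hqn : (starRingEnd ℂ) (qq x) * qq x = 1 := by
    rw [mul_comm, Complex.mul_conj, Complex.normSq_eq_norm_sq, norm_qq hx]; simp
  have h3 : (starRingEnd ℂ) (qq x ^ 2) * (((2 : ℕ) • qq x ^ (2 - 1)) • fderiv ℝ qq x) v =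
      ((2 : ℝ) : ℂ) * ((starRingEnd ℂ) (qq x) * fderiv ℝ qq x v) := by
    simp only [smul_apply, smul_eq_mul, map_pow]
    push_cast
    simp only [pow_one, nsmul_eq_mul]
    push_cast
    linear_combination 2 * (starRingEnd ℂ) (qq x) * fderiv ℝ qq x v * hqn
  rw [← Complex.im_ofReal_mul, ← h3]

/-- The contact form on `Y1` is adapted to the rational open book. -/
theorem supports1 : Supports C1 B1 where
  pages := fun x hx u hu v hv w hw h1 h2 h3 h4 => by
    have hx' := (not_mem_KK.1 hx).2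
    have e : ∀ v, B1.dθ x v = 2 * ((starRingEnd ℂ) (qq x) * fderiv ℝ qq x v).im :=
      fun v => dθ1_eq hx' v
    rw [e] at h1 h2 h3
    exact pages_aux (not_mem_KK.1 hx).1 hx' hu hv hw (by linarith) (by linarith) (by linarith) h4
  binding := fun i φ => binding1 one_pos φ

end Run7.h141
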