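import Pool.Agent.Run7.h141.Fib

/-! # Tubular neighbourhoods of the binding -/

open scoped ContDiff Topology
open Set

noncomputable section

namespace Run7.h141

/-- `exp (i π φ / k)` -/
def ex (k : ℕ) (φ : ℝ) : ℂ := Complex.exp (((Real.pi * φ / k : ℝ) : ℂ) * Complex.I)

lemma norm_ex (k : ℕ) (φ : ℝ) : ‖ex k φ‖ = 1 := Complex.norm_exp_ofReal_mul_I _

lemma ex_ne_zero (k : ℕ) (φ : ℝ) : ex k φ ≠ 0 := Complex.exp_ne_zero _

lemma conj_ex_mul (k : ℕ) (φ : ℝ) : (starRingEnd ℂ) (ex k φ) * ex k φ = 1 := by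
  rw [mul_comm, Complex.mul_conj, Complex.normSq_eq_norm_sq, norm_ex]; simp

lemma ex_mul_conj (k : ℕ) (φ : ℝ) : ex k φ * (starRingEnd ℂ) (ex k φ) = 1 := by
  rw [mul_comm, conj_ex_mul]

lemma hasDerivAt_ex (k : ℕ) (φ : ℝ) :
    HasDerivAt (ex k) (((Real.pi / k : ℝ) : ℂ) * Complex.I * ex k φ) φ := by
  have h1 : HasDerivAt (fun φ : ℝ => (Real.pi * φ / k : ℝ)) (Real.pi / k) φ := by
    have := ((hasDerivAt_id φ).const_mul Real.pi).div_const (k : ℝ)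
    simpa using this
  have h2 : HasDerivAt (fun φ : ℝ => ((Real.pi * φ / k : ℝ) : ℂ)) ((Real.pi / k : ℝ) : ℂ) φ :=
    h1.ofReal_comp
  have h3 := (h2.mul_const Complex.I).cexp
  unfold ex
  convert h3 using 1
  ring

lemma contDiff_ex (k : ℕ) : ContDiff ℝ ∞ (ex k) := by
  have h2 : ContDiff ℝ ∞ (fun φ : ℝ => ((Real.pi * φ / k : ℝ) : ℂ)) := by
    have h1 : ContDiff ℝ ∞ (fun φ : ℝ => (Real.pi * φ / k : ℝ)) := by fun_prop
    exact Complex.ofRealCLM.contDiff.comp h1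
  exact (h2.mul contDiff_const).cexp

/-- `√(1 - |v|²/4)` -/
def Rt (v : ℂ) : ℝ := √(1 - (v.re ^ 2 + v.im ^ 2) / 4)

lemma sq_add_sq (v : ℂ) : v.re ^ 2 + v.im ^ 2 = ‖v‖ ^ 2 := by
  rw [← Complex.normSq_eq_norm_sq, Complex.normSq_apply]; ring

lemma Rt_arg_pos {v : ℂ} (hv : ‖v‖ < 1) : 3 / 4 < 1 - (v.re ^ 2 + v.im ^ 2) / 4 := by
  rw [sq_add_sq]
  nlinarith [norm_nonneg v]

lemma Rt_pos {v : ℂ} (hv : ‖v‖ < 1) : 0 < Rt v :=
  Real.sqrt_pos.2 (by linarith [Rt_arg_pos hv])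

lemma Rt_sq {v : ℂ} (hv : ‖v‖ < 1) : Rt v ^ 2 = 1 - ‖v‖ ^ 2 / 4 := by
  rw [Rt, Real.sq_sqrt (by linarith [Rt_arg_pos hv]), sq_add_sq]

lemma contDiffAt_Rt {v : ℂ} (hv : ‖v‖ < 1) : ContDiffAt ℝ ∞ Rt v := by
  unfold Rt
  have h : ContDiffAt ℝ ∞ (fun v : ℂ => 1 - (v.re ^ 2 + v.im ^ 2) / 4) v := by
    have a : ContDiff ℝ ∞ (fun v : ℂ => v.re) := Complex.reCLM.contDiff
    have b : ContDiff ℝ ∞ (fun v : ℂ => v.im) := Complex.imCLM.contDiff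
    exact (contDiff_const.sub (((a.pow 2).add (b.pow 2)).div_const 4)).contDiffAt
  exact h.sqrt (by linarith [Rt_arg_pos hv])

/-- the derivative of `Rt` vanishes at the origin -/
lemma fderiv_Rt_zero (b : ℂ) : fderiv ℝ Rt 0 b = 0 := by
  have a1 : HasFDerivAt (fun v : ℂ => v.re) Complex.reCLM 0 := Complex.reCLM.hasFDerivAt
  have a2 : HasFDerivAt (fun v : ℂ => v.im) Complex.imCLM 0 := Complex.imCLM.hasFDerivAt
  have h1 := (((a1.pow 2).add (a2.pow 2)).mul_const (1 / 4)).const_sub 1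
  have h2 := h1.sqrt (by simp)
  have h3 : Rt = fun v : ℂ => √(1 - (v.re ^ 2 + v.im ^ 2) * (1 / 4)) := by
    funext v; rw [Rt]; congr 1; ring
  rw [h3]
  erw [h2.fderiv]
  simp

def tube1 (k : ℕ) (p : ℝ × ℂ) : ℂ × ℂ :=
  ((1 / 2 : ℂ) * (starRingEnd ℂ) (p.2 * ex k p.1), (Rt p.2 : ℂ) * ex k p.1)

def tube2 (k : ℕ) (p : ℝ × ℂ) : ℂ × ℂ :=
  ((Rt p.2 : ℂ) * ex k p.1, (1 / 2 : ℂ) * (starRingEnd ℂ) (p.2 * ex k p.1))

lemma tube2_eq (k : ℕ) (p : ℝ × ℂ) : tube2 k p = (tube1 k p).swap := rfl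

lemma hasFDerivAt_tube_a (k : ℕ) (p : ℝ × ℂ) :
    ∃ L : ℝ × ℂ →L[ℝ] ℂ, HasFDerivAt
      (fun p : ℝ × ℂ => (1 / 2 : ℂ) * (starRingEnd ℂ) (p.2 * ex k p.1)) L p ∧
      ∀ a b, L (a, b) = (1 / 2 : ℂ) * (starRingEnd ℂ)
        ((b + p.2 * (((Real.pi / k * a : ℝ) : ℂ) * Complex.I)) * ex k p.1) := by
  have a1 : HasFDerivAt (fun p : ℝ × ℂ => p.2) (ContinuousLinearMap.snd ℝ ℝ ℂ) p := hasFDerivAt_snd
  have a2 : HasFDerivAt (fun p : ℝ × ℂ => ex k p.1)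
      (((ContinuousLinearMap.toSpanSingleton ℝ
        (((Real.pi / k : ℝ) : ℂ) * Complex.I * ex k p.1))).comp (ContinuousLinearMap.fst ℝ ℝ ℂ)) p :=
    (hasDerivAt_ex k p.1).hasFDerivAt.comp p hasFDerivAt_fst
  have a3 := (Complex.conjCLE : ℂ →L[ℝ] ℂ).hasFDerivAt.comp p (a1.mul a2)
  have a4 := a3.const_mul (1 / 2 : ℂ)
  refine ⟨_, a4, fun a b => ?_⟩
  simp
  ring

lemma hasFDerivAt_tube_b (k : ℕ) {p : ℝ × ℂ} (hp : ‖p.2‖ < 1) :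
    ∃ L : ℝ × ℂ →L[ℝ] ℂ, HasFDerivAt
      (fun p : ℝ × ℂ => (Rt p.2 : ℂ) * ex k p.1) L p ∧
      ∀ a b, L (a, b) = ((fderiv ℝ Rt p.2 b : ℝ) : ℂ) * ex k p.1 +
        (Rt p.2 : ℂ) * (((Real.pi / k * a : ℝ) : ℂ) * Complex.I * ex k p.1) := by
  have a0 : HasFDerivAt Rt (fderiv ℝ Rt p.2) p.2 :=
    ((contDiffAt_Rt hp).differentiableAt (by simp)).hasFDerivAt
  have a1' : HasFDerivAt (fun p : ℝ × ℂ => Rt p.2) ((fderiv ℝ Rt p.2).comp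
      (ContinuousLinearMap.snd ℝ ℝ ℂ)) p := a0.comp p hasFDerivAt_snd
  have a1 : HasFDerivAt (fun p : ℝ × ℂ => (Rt p.2 : ℂ)) (Complex.ofRealCLM.comp
      ((fderiv ℝ Rt p.2).comp (ContinuousLinearMap.snd ℝ ℝ ℂ))) p :=
    Complex.ofRealCLM.hasFDerivAt.comp p a1'
  have a2 : HasFDerivAt (fun p : ℝ × ℂ => ex k p.1)
      (((ContinuousLinearMap.toSpanSingleton ℝ
        (((Real.pi / k : ℝ) : ℂ) * Complex.I * ex k p.1))).comp (ContinuousLinearMap.fst ℝ ℝ ℂ)) p :=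
    (hasDerivAt_ex k p.1).hasFDerivAt.comp p hasFDerivAt_fst
  refine ⟨_, a1.mul a2, fun a b => ?_⟩
  simp
  ring

lemma fderiv_tube1 (k : ℕ) {p : ℝ × ℂ} (hp : ‖p.2‖ < 1) (a : ℝ) (b : ℂ) :
    fderiv ℝ (tube1 k) p (a, b) =
      ((1 / 2 : ℂ) * (starRingEnd ℂ) ((b + p.2 * (((Real.pi / k * a : ℝ) : ℂ) * Complex.I)) * ex k p.1),
      ((fderiv ℝ Rt p.2 b : ℝ) : ℂ) * ex k p.1 +
        (Rt p.2 : ℂ) * (((Real.pi / k * a : ℝ) : ℂ) * Complex.I * ex k p.1)) := by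
  obtain ⟨L1, h1, e1⟩ := hasFDerivAt_tube_a k p
  obtain ⟨L2, h2, e2⟩ := hasFDerivAt_tube_b k hp
  have h3 : HasFDerivAt (tube1 k) (L1.prod L2) p := h1.prodMk h2
  rw [h3.fderiv]
  rw [ContinuousLinearMap.prod_apply, e1, e2]

lemma fderiv_tube2 (k : ℕ) {p : ℝ × ℂ} (hp : ‖p.2‖ < 1) (a : ℝ) (b : ℂ) :
    fderiv ℝ (tube2 k) p (a, b) =
      (((fderiv ℝ Rt p.2 b : ℝ) : ℂ) * ex k p.1 +
        (Rt p.2 : ℂ) * (((Real.pi / k * a : ℝ) : ℂ) * Complex.I * ex k p.1),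
      (1 / 2 : ℂ) * (starRingEnd ℂ)
        ((b + p.2 * (((Real.pi / k * a : ℝ) : ℂ) * Complex.I)) * ex k p.1)) := by
  obtain ⟨L1, h1, e1⟩ := hasFDerivAt_tube_a k p
  obtain ⟨L2, h2, e2⟩ := hasFDerivAt_tube_b k hp
  have h3 : HasFDerivAt (tube2 k) (L2.prod L1) p := h2.prodMk h1
  rw [h3.fderiv]
  rw [ContinuousLinearMap.prod_apply, e1, e2]

lemma tube_imm_aux {k : ℕ} (hk : 0 < k) {p : ℝ × ℂ} (hp : ‖p.2‖ < 1) {a : ℝ} {b : ℂ}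
    (h1 : (1 / 2 : ℂ) * (starRingEnd ℂ)
      ((b + p.2 * (((Real.pi / k * a : ℝ) : ℂ) * Complex.I)) * ex k p.1) = 0)
    (h2 : ((fderiv ℝ Rt p.2 b : ℝ) : ℂ) * ex k p.1 +
        (Rt p.2 : ℂ) * (((Real.pi / k * a : ℝ) : ℂ) * Complex.I * ex k p.1) = 0) :
    a = 0 ∧ b = 0 := by
  have hR := Rt_pos hp
  have h3 : ((fderiv ℝ Rt p.2 b : ℝ) : ℂ) +
        (Rt p.2 : ℂ) * (((Real.pi / k * a : ℝ) : ℂ) * Complex.I) = 0 := by
    have := ex_ne_zero k p.1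
    have h4 : (((fderiv ℝ Rt p.2 b : ℝ) : ℂ) +
        (Rt p.2 : ℂ) * (((Real.pi / k * a : ℝ) : ℂ) * Complex.I)) * ex k p.1 = 0 := by
      rw [← h2]; ring
    exact (mul_eq_zero.1 h4).resolve_right this
  have h4 := congrArg Complex.im h3
  have h5 : Rt p.2 * (Real.pi / k * a) = 0 := by
    rw [Complex.add_im, Complex.im_ofReal_mul, Complex.im_ofReal_mul] at h4
    simpa using h4
  have hpk : 0 < Real.pi / k := div_pos Real.pi_pos (by exact_mod_cast hk)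
  have ha : a = 0 := by
    rcases mul_eq_zero.1 h5 with h | h
    · exact absurd h hR.ne'
    · exact (mul_eq_zero.1 h).resolve_left hpk.ne'
  refine ⟨ha, ?_⟩
  subst ha
  have h6 := ex_ne_zero k p.1
  have h7 : (starRingEnd ℂ) (b * ex k p.1) = 0 := by
    have : (1 / 2 : ℂ) ≠ 0 := by norm_num
    simpa using h1
  have h8 : b * ex k p.1 = 0 := by
    have := congrArg (starRingEnd ℂ) h7
    simpa using this
  exact (mul_eq_zero.1 h8).resolve_right h6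

lemma tube1_injective {k : ℕ} (hk : 0 < k) {p : ℝ × ℂ} (hp : ‖p.2‖ < 1) :
    Function.Injective (fderiv ℝ (tube1 k) p) := by
  rw [injective_iff_map_eq_zero]
  rintro ⟨a, b⟩ h
  rw [fderiv_tube1 k hp] at h
  obtain ⟨rfl, rfl⟩ := tube_imm_aux hk hp (congrArg Prod.fst h) (congrArg Prod.snd h)
  rfl

lemma tube2_injective {k : ℕ} (hk : 0 < k) {p : ℝ × ℂ} (hp : ‖p.2‖ < 1) :
    Function.Injective (fderiv ℝ (tube2 k) p) := by
  rw [injective_iff_map_eq_zero]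
  rintro ⟨a, b⟩ h
  rw [fderiv_tube2 k hp] at h
  obtain ⟨rfl, rfl⟩ := tube_imm_aux hk hp (congrArg Prod.snd h) (congrArg Prod.fst h)
  rfl

lemma contDiff_tube_a (k : ℕ) : ContDiff ℝ ∞
    (fun p : ℝ × ℂ => (1 / 2 : ℂ) * (starRingEnd ℂ) (p.2 * ex k p.1)) := by
  have h1 : ContDiff ℝ ∞ (fun p : ℝ × ℂ => p.2 * ex k p.1) :=
    contDiff_snd.mul ((contDiff_ex k).comp contDiff_fst)
  exact contDiff_const.mul (Complex.conjCLE.contDiff.comp h1)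

lemma contDiffAt_tube_b (k : ℕ) {p : ℝ × ℂ} (hp : ‖p.2‖ < 1) : ContDiffAt ℝ ∞
    (fun p : ℝ × ℂ => (Rt p.2 : ℂ) * ex k p.1) p := by
  have h1 : ContDiffAt ℝ ∞ (fun p : ℝ × ℂ => Rt p.2) p := (contDiffAt_Rt hp).comp p contDiffAt_snd
  have h2 : ContDiffAt ℝ ∞ (fun p : ℝ × ℂ => (Rt p.2 : ℂ)) p :=
    Complex.ofRealCLM.contDiff.contDiffAt.comp p h1
  exact h2.mul ((contDiff_ex k).comp contDiff_fst).contDiffAt

lemma tube1_smooth (k : ℕ) : ContDiffOn ℝ ∞ (tube1 k) {p | ‖p.2‖ < 1} := fun _ hp =>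
  ((contDiff_tube_a k).contDiffAt.prodMk (contDiffAt_tube_b k hp)).contDiffWithinAt

lemma tube2_smooth (k : ℕ) : ContDiffOn ℝ ∞ (tube2 k) {p | ‖p.2‖ < 1} := fun _ hp =>
  ((contDiffAt_tube_b k hp).prodMk (contDiff_tube_a k).contDiffAt).contDiffWithinAt

lemma norm_tube_a (k : ℕ) (p : ℝ × ℂ) :
    ‖(1 / 2 : ℂ) * (starRingEnd ℂ) (p.2 * ex k p.1)‖ = ‖p.2‖ / 2 := by
  rw [norm_mul, RCLike.norm_conj, norm_mul, norm_ex]; norm_num; ring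

lemma norm_tube_b (k : ℕ) {p : ℝ × ℂ} (hp : ‖p.2‖ < 1) :
    ‖(Rt p.2 : ℂ) * ex k p.1‖ = Rt p.2 := by
  rw [norm_mul, norm_ex, Complex.norm_real, Real.norm_of_nonneg (Rt_pos hp).le, mul_one]

lemma F0_tube1 (k : ℕ) {p : ℝ × ℂ} (hp : ‖p.2‖ < 1) : F0 (tube1 k p) = 0 := by
  rw [F0_eq_NN, NN_eq_norm, tube1, norm_tube_a, norm_tube_b k hp, Rt_sq hp]; ring

lemma F0_tube2 (k : ℕ) {p : ℝ × ℂ} (hp : ‖p.2‖ < 1) : F0 (tube2 k p) = 0 := by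
  rw [F0_eq_NN, NN_eq_norm, tube2, norm_tube_a, norm_tube_b k hp, Rt_sq hp]; ring

lemma Rt_gt_half {v : ℂ} (hv : ‖v‖ < 1) : 1 / 2 < Rt v := by
  have h1 := Rt_sq hv
  have h2 := Rt_pos hv
  nlinarith [norm_nonneg v]

/-- the relation defining `Y2 k` -/
def Rel (k : ℕ) (x y : ℂ × ℂ) : Prop := ∃ u : ℂ, u ^ (2 * k) = 1 ∧ y = (u⁻¹ * x.1, u * x.2)

lemma ex_pow {k : ℕ} (hk : 0 < k) (φ : ℝ) :
    ex k φ ^ (2 * k) = Complex.exp (2 * Real.pi * Complex.I * φ) := by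
  rw [ex, ← Complex.exp_nat_mul]
  congr 1
  have : (k : ℂ) ≠ 0 := by exact_mod_cast hk.ne'
  push_cast
  field_simp

lemma ex_add (k : ℕ) (φ ψ : ℝ) : ex k (φ + ψ) = ex k φ * ex k ψ := by
  rw [ex, ex, ex, ← Complex.exp_add]
  congr 1
  push_cast
  ring

lemma ex_int_pow {k : ℕ} (hk : 0 < k) (m : ℤ) : ex k m ^ (2 * k) = 1 := by
  rw [ex_pow hk]
  have := Complex.exp_int_mul_two_pi_mul_I m
  rw [← this]
  congr 1
  push_cast
  ring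

lemma exists_int {k : ℕ} (hk : 0 < k) {φ ψ : ℝ} {u : ℂ} (hu : u ^ (2 * k) = 1)
    (h : ex k ψ = u * ex k φ) : ∃ m : ℤ, ψ = φ + m := by
  have h1 := congrArg (fun z => z ^ (2 * k)) h
  simp only [mul_pow, hu, one_mul] at h1
  rw [ex_pow hk, ex_pow hk, Complex.exp_eq_exp_iff_exists_int] at h1
  obtain ⟨m, hm⟩ := h1
  refine ⟨m, ?_⟩
  have h2 : (2 * Real.pi * Complex.I : ℂ) ≠ 0 := Complex.two_pi_I_ne_zero
  have h3 : (2 * Real.pi * Complex.I : ℂ) * (ψ : ℂ) = (2 * Real.pi * Complex.I : ℂ) * (φ + m) := by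
    rw [hm]; ring
  have h4 := mul_left_cancel₀ h2 h3
  exact_mod_cast h4

lemma rel_tube1 {k : ℕ} (hk : 0 < k) {p q : ℝ × ℂ} (hp : ‖p.2‖ < 1) (hq : ‖q.2‖ < 1) :
    Rel k (tube1 k p) (tube1 k q) ↔ p.2 = q.2 ∧ ∃ m : ℤ, q.1 = p.1 + m := by
  constructor
  · rintro ⟨u, hu, h⟩
    have hun : ‖u‖ = 1 := norm_of_pow (by omega) hu
    have hu0 : u ≠ 0 := by rintro rfl; simp at hun
    have h1 := congrArg Prod.fst h
    have h2 := congrArg Prod.snd h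
    simp only [tube1] at h1 h2
    have h3 := congrArg (fun z => ‖z‖) h2
    simp only [norm_mul u, hun, one_mul] at h3
    rw [norm_tube_b k hp, norm_tube_b k hq] at h3
    have hR : (Rt p.2 : ℂ) ≠ 0 := by exact_mod_cast (Rt_pos hp).ne'
    have h4 : ex k q.1 = u * ex k p.1 := by
      rw [h3] at h2
      have : (Rt p.2 : ℂ) * ex k q.1 = (Rt p.2 : ℂ) * (u * ex k p.1) := by rw [h2]; ring
      exact mul_left_cancel₀ hR this
    refine ⟨?_, exists_int hk hu h4⟩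
    have hu' : u⁻¹ = (starRingEnd ℂ) u := by
      rw [Complex.inv_def, Complex.normSq_eq_norm_sq, hun]; simp
    rw [h4, hu'] at h1
    have h5 : (starRingEnd ℂ) (q.2 * (u * ex k p.1)) =
        (starRingEnd ℂ) (u * (p.2 * ex k p.1)) := by
      rw [map_mul (starRingEnd ℂ) u (p.2 * _)]
      have : (1 / 2 : ℂ) ≠ 0 := by norm_num
      apply mul_left_cancel₀ this
      rw [h1]; ring
    have h6 := (starRingEnd ℂ).injective h5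
    have h7 : q.2 * (u * ex k p.1) = p.2 * (u * ex k p.1) := by rw [h6]; ring
    exact (mul_right_cancel₀ (mul_ne_zero hu0 (ex_ne_zero k p.1)) h7).symm
  · rintro ⟨h1, m, h2⟩
    refine ⟨ex k m, ex_int_pow hk m, ?_⟩
    have hu' : (ex k m)⁻¹ = (starRingEnd ℂ) (ex k m) := by
      rw [Complex.inv_def, Complex.normSq_eq_norm_sq, norm_ex]; simp
    simp only [tube1]
    rw [h2, ← h1, ex_add, hu']
    ext1
    · simp only [map_mul]; ring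
    · simp only; ring

lemma rel_swap {k : ℕ} {x y : ℂ × ℂ} : Rel k x.swap y.swap ↔ Rel k x y := by
  constructor
  · rintro ⟨u, hu, h⟩
    refine ⟨u⁻¹, by rw [inv_pow, hu, inv_one], ?_⟩
    have := congrArg Prod.swap h
    simp only [Prod.swap_swap] at this
    rw [this]; simp
  · rintro ⟨u, hu, h⟩
    refine ⟨u⁻¹, by rw [inv_pow, hu, inv_one], ?_⟩
    rw [h]; simp

lemma rel_tube2 {k : ℕ} (hk : 0 < k) {p q : ℝ × ℂ} (hp : ‖p.2‖ < 1) (hq : ‖q.2‖ < 1) :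
    Rel k (tube2 k p) (tube2 k q) ↔ p.2 = q.2 ∧ ∃ m : ℤ, q.1 = p.1 + m := by
  rw [tube2_eq, tube2_eq, rel_swap]
  exact rel_tube1 hk hp hq

lemma not_rel_tube12 {k k' : ℕ} (hk : 0 < k) {p q : ℝ × ℂ} (hp : ‖p.2‖ < 1) (hq : ‖q.2‖ < 1) :
    ¬ Rel k (tube1 k' p) (tube2 k' q) := by
  rintro ⟨u, hu, h⟩
  have hun : ‖u‖ = 1 := norm_of_pow (by omega) hu
  have h1 := congrArg (fun z => ‖z.1‖) h
  simp only [tube1, tube2, norm_mul u⁻¹, norm_inv, hun, inv_one, one_mul] at h1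
  rw [norm_tube_a, norm_tube_b _ hq] at h1
  have := Rt_gt_half hq
  linarith

lemma not_rel_tube21 {k k' : ℕ} (hk : 0 < k) {p q : ℝ × ℂ} (hp : ‖p.2‖ < 1) (hq : ‖q.2‖ < 1) :
    ¬ Rel k (tube2 k' p) (tube1 k' q) := by
  rintro ⟨u, hu, h⟩
  have hun : ‖u‖ = 1 := norm_of_pow (by omega) hu
  have h1 := congrArg (fun z => ‖z.1‖) h
  simp only [tube1, tube2, norm_mul u⁻¹, norm_inv, hun, inv_one, one_mul] at h1
  rw [norm_tube_a, norm_tube_b _ hp] at h1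
  have := Rt_gt_half hp
  linarith

/-- every point with small first coordinate is in the first tube -/
lemma exists_tube1 {k : ℕ} (hk : 0 < k) {y : ℂ × ℂ} (hy : F0 y = 0) (h1 : ‖y.1‖ < 1 / 2) :
    ∃ p : ℝ × ℂ, ‖p.2‖ < 1 ∧ tube1 k p = y ∧ (y.1 = 0 → p.2 = 0) := by
  have hN := NN_eq_one hy
  rw [NN_eq_norm] at hN
  have hk' : (k : ℝ) ≠ 0 := by exact_mod_cast hk.ne'
  set φ : ℝ := k * y.2.arg / Real.pi with hφ
  have hex : (‖y.2‖ : ℂ) * ex k φ = y.2 := by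
    rw [ex, hφ]
    have : Real.pi * (k * y.2.arg / Real.pi) / k = y.2.arg := by
      field_simp
    rw [this]
    exact Complex.norm_mul_exp_arg_mul_I y.2
  have hv : ‖(starRingEnd ℂ) (2 * y.1 * ex k φ)‖ = 2 * ‖y.1‖ := by
    rw [RCLike.norm_conj, norm_mul, norm_mul, norm_ex]; norm_num
  refine ⟨(φ, (starRingEnd ℂ) (2 * y.1 * ex k φ)), ?_, ?_, ?_⟩
  · simp only
    rw [hv]; linarith
  · have hv1 : ‖(starRingEnd ℂ) (2 * y.1 * ex k φ)‖ < 1 := by rw [hv]; linarith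
    have hR : Rt ((starRingEnd ℂ) (2 * y.1 * ex k φ)) = ‖y.2‖ := by
      have h2 := Rt_sq hv1
      rw [hv] at h2
      have h3 := Rt_pos hv1
      have h4 : Rt ((starRingEnd ℂ) (2 * y.1 * ex k φ)) ^ 2 = ‖y.2‖ ^ 2 := by
        rw [h2]; linarith
      exact (sq_eq_sq₀ h3.le (norm_nonneg _)).1 h4
    simp only [tube1, hR]
    ext1
    · simp only [map_mul, Complex.conj_conj]
      have h5 := ex_mul_conj k φ
      linear_combination y.1 * h5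
    · exact hex
  · intro h0
    simp [h0]

lemma exists_tube2 {k : ℕ} (hk : 0 < k) {y : ℂ × ℂ} (hy : F0 y = 0) (h1 : ‖y.2‖ < 1 / 2) :
    ∃ p : ℝ × ℂ, ‖p.2‖ < 1 ∧ tube2 k p = y ∧ (y.2 = 0 → p.2 = 0) := by
  have hy' : F0 y.swap = 0 := by
    rw [F0_eq_NN, NN_eq_norm] at hy ⊢
    simp only [Prod.fst_swap, Prod.snd_swap]
    linarith
  obtain ⟨p, hp, h, h0⟩ := exists_tube1 (y := y.swap) hk hy' h1
  refine ⟨p, hp, ?_, h0⟩
  rw [tube2_eq, h, Prod.swap_swap]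

lemma tube_mul {k : ℕ} {p : ℝ × ℂ} : (tube1 k p).1 * (tube1 k p).2 =
    (((1 / 2 * Rt p.2 : ℝ)) : ℂ) * (starRingEnd ℂ) p.2 := by
  simp only [tube1, map_mul]
  have := conj_ex_mul k p.1
  push_cast
  linear_combination (1 / 2 : ℂ) * (Rt p.2 : ℂ) * (starRingEnd ℂ) p.2 * this

lemma tube_mul' {k : ℕ} {p : ℝ × ℂ} : (tube2 k p).1 * (tube2 k p).2 =
    (((1 / 2 * Rt p.2 : ℝ)) : ℂ) * (starRingEnd ℂ) p.2 := by
  rw [← tube_mul (k := k)]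
  rw [tube2_eq]; simp only [Prod.fst_swap, Prod.snd_swap]; ring

lemma qq_of_mul {x : ℂ × ℂ} {r : ℝ} (hr : 0 < r) {v : ℂ}
    (h : x.1 * x.2 = (r : ℂ) * (starRingEnd ℂ) v) : qq x = v / ‖v‖ := by
  rw [qq, h, norm_mul, RCLike.norm_conj, Complex.norm_real, Real.norm_of_nonneg hr.le]
  simp only [map_mul, Complex.conj_ofReal, Complex.conj_conj]
  have : (r : ℂ) ≠ 0 := by exact_mod_cast hr.ne'
  push_cast
  rw [mul_div_mul_left _ _ this]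

lemma qq_tube1 {k : ℕ} {p : ℝ × ℂ} (hp : ‖p.2‖ < 1) : qq (tube1 k p) = p.2 / ‖p.2‖ :=
  qq_of_mul (by have := Rt_pos hp; positivity) tube_mul

lemma qq_tube2 {k : ℕ} {p : ℝ × ℂ} (hp : ‖p.2‖ < 1) : qq (tube2 k p) = p.2 / ‖p.2‖ :=
  qq_of_mul (by have := Rt_pos hp; positivity) tube_mul'

lemma tube1_zero (k : ℕ) (φ : ℝ) : tube1 k (φ, 0) = (0, ex k φ) := by
  simp [tube1, Rt]

lemma tube2_zero (k : ℕ) (φ : ℝ) : tube2 k (φ, 0) = (ex k φ, 0) := by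
  simp [tube2, Rt]

end Run7.h141
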